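import Mathlib
import Pool.Agent.P8H66.QP.A
set_option autoImplicit false
set_option linter.unusedSectionVars false

/-! The `L^4` norm of the Fourier transform of a Gaussian times a cubic phase. -/

namespace Pool.Agent.P8H15.CP

open MeasureTheory Set Complex FourierTransform
open Pool.Agent.TH277.HT (ch ch_norm ch_enorm ch_add ch_conj ch_cont)
open Pool.Agent.P8H66.QP (UU AA L4 planchV memLp_two_of_bdd UU_eq)
open scoped ENNReal NNReal RealInnerProductSpace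

variable {V : Type*} [NormedAddCommGroup V] [InnerProductSpace ℝ V] [MeasurableSpace V]
  [BorelSpace V] [FiniteDimensional ℝ V]

/-- the real Gaussian -/
noncomputable def rg (ξ : V) : ℝ := Real.exp (-(Real.pi * ‖ξ‖ ^ 2))

/-- the Gaussian times a phase -/
noncomputable def Gp (φ : V → ℝ) (ξ : V) : ℂ := ((rg ξ : ℝ) : ℂ) * ch (φ ξ)

lemma rg_pos (ξ : V) : 0 < rg ξ := Real.exp_pos _

lemma rg_le (ξ : V) : rg ξ ≤ 1 := by
  unfold rg
  rw [Real.exp_le_one_iff]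
  have := Real.pi_pos
  have : 0 ≤ Real.pi * ‖ξ‖ ^ 2 := by positivity
  linarith

lemma rg_cont : Continuous (rg : V → ℝ) := by unfold rg; fun_prop

lemma cg_int : Integrable fun ξ : V => ((rg ξ : ℝ) : ℂ) := by
  have h := GaussianFourier.integrable_cexp_neg_mul_sq_norm_add (V := V) (b := (Real.pi : ℂ))
    (by simpa using Real.pi_pos) 0 0
  refine h.congr (ae_of_all _ fun ξ => ?_)
  simp only [zero_mul, add_zero, rg]
  push_cast
  congr 1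
  ring

lemma rg_int : Integrable (rg : V → ℝ) := by
  have := (cg_int (V := V)).norm
  refine this.congr (ae_of_all _ fun ξ => ?_)
  simp [abs_of_pos (rg_pos ξ)]

lemma Gp_norm (φ : V → ℝ) (ξ : V) : ‖Gp φ ξ‖ = rg ξ := by
  unfold Gp
  rw [norm_mul, ch_norm, mul_one, Complex.norm_real, Real.norm_eq_abs, abs_of_pos (rg_pos ξ)]

lemma Gp_cont {φ : V → ℝ} (hφ : Continuous φ) : Continuous (Gp φ) := by
  unfold Gp
  exact (Complex.continuous_ofReal.comp rg_cont).mul (ch_cont.comp hφ)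

lemma Gp_int {φ : V → ℝ} (hφ : Continuous φ) : Integrable (Gp φ) :=
  rg_int.mono' (Gp_cont hφ).aestronglyMeasurable (ae_of_all _ fun ξ => (Gp_norm φ ξ).le)

/-- the Fourier transform of the Gaussian -/
lemma gauss_ft (w : V) : ∫ h : V, ((rg h : ℝ) : ℂ) * ch ⟪h, w⟫ = ((rg w : ℝ) : ℂ) := by
  have h := fourier_gaussian_innerProductSpace (V := V) (b := (Real.pi : ℂ))
    (by simpa using Real.pi_pos) (-w)
  rw [← UU_eq (fun v : V => cexp (-(Real.pi : ℂ) * (‖v‖ : ℂ) ^ 2)) w] at h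
  have hpi : (Real.pi : ℂ) ≠ 0 := by exact_mod_cast Real.pi_ne_zero
  have h1 : ((Real.pi : ℂ) / (Real.pi : ℂ)) = 1 := div_self hpi
  rw [h1, Complex.one_cpow, one_mul] at h
  have h2 : cexp (-(Real.pi : ℂ) ^ 2 * (‖-w‖ : ℂ) ^ 2 / (Real.pi : ℂ)) = ((rg w : ℝ) : ℂ) := by
    unfold rg
    push_cast
    congr 1
    rw [norm_neg]
    field_simp
  rw [h2] at h
  rw [← h]
  unfold UU
  apply integral_congr_ae
  refine ae_of_all _ fun u => ?_
  simp only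
  rw [mul_comm]
  congr 1
  unfold rg
  push_cast
  congr 1
  ring

/-- The `L^4` norm of the Fourier transform of a Gaussian times a phase whose second differences
are bilinear. -/
theorem L4phase {φ : V → ℝ} (hφ : Continuous φ) {D : V → V → V}
    (hD : Continuous fun p : V × V => D p.1 p.2)
    (hd : ∀ c v h : V, φ (c + (1 / 2 : ℝ) • v + (1 / 2 : ℝ) • h) -
      φ (c + (1 / 2 : ℝ) • v - (1 / 2 : ℝ) • h) - (φ (c - (1 / 2 : ℝ) • v + (1 / 2 : ℝ) • h) -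
      φ (c - (1 / 2 : ℝ) • v - (1 / 2 : ℝ) • h)) = ⟪h, D c v⟫) :
    ∫⁻ x : V, ‖UU (Gp φ) x‖ₑ ^ 4 = ∫⁻ c : V, ∫⁻ v : V,
      ENNReal.ofReal (Real.exp (-(Real.pi * (4 * ‖c‖ ^ 2 + ‖v‖ ^ 2 + ‖D c v‖ ^ 2)))) := by
  rw [L4 (Gp φ) (Gp_int hφ) (fun ξ => by rw [Gp_norm]; exact rg_le ξ)]
  -- the second difference at two points
  have hd2 : ∀ ξ ξ' h : V, φ (ξ + (1 / 2 : ℝ) • h) - φ (ξ - (1 / 2 : ℝ) • h) -
      (φ (ξ' + (1 / 2 : ℝ) • h) - φ (ξ' - (1 / 2 : ℝ) • h)) =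
      ⟪h, D ((1 / 2 : ℝ) • (ξ + ξ')) (ξ - ξ')⟫ := by
    intro ξ ξ' h
    rw [← hd]
    have e1 : (1 / 2 : ℝ) • (ξ + ξ') + (1 / 2 : ℝ) • (ξ - ξ') = ξ := by
      rw [← smul_add]
      have : ξ + ξ' + (ξ - ξ') = (2 : ℝ) • ξ := by rw [two_smul]; abel
      rw [this, smul_smul]; norm_num
    have e2 : (1 / 2 : ℝ) • (ξ + ξ') - (1 / 2 : ℝ) • (ξ - ξ') = ξ' := by
      rw [← smul_sub]
      have : ξ + ξ' - (ξ - ξ') = (2 : ℝ) • ξ' := by rw [two_smul]; abel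
      rw [this, smul_smul]; norm_num
    rw [e1, e2]
  -- the integrand
  set K : V → V → ℂ := fun h ξ =>
    Gp φ (ξ + (1 / 2 : ℝ) • h) * (starRingEnd ℂ) (Gp φ (ξ - (1 / 2 : ℝ) • h)) with hK
  have par : ∀ ξ h : V, rg (ξ + (1 / 2 : ℝ) • h) * rg (ξ - (1 / 2 : ℝ) • h) =
      Real.exp (-(Real.pi * (2 * ‖ξ‖ ^ 2 + 1 / 2 * ‖h‖ ^ 2))) := by
    intro ξ h
    unfold rg
    rw [← Real.exp_add]
    congr 1
    have h1 := parallelogram_law_with_norm ℝ ξ ((1 / 2 : ℝ) • h)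
    have h2 : ‖(1 / 2 : ℝ) • h‖ = 1 / 2 * ‖h‖ := by
      rw [norm_smul]; norm_num
    rw [h2] at h1
    linear_combination (-Real.pi) * h1
  have hKe : ∀ h ξ, K h ξ = ((Real.exp (-(Real.pi * (2 * ‖ξ‖ ^ 2 + 1 / 2 * ‖h‖ ^ 2))) : ℝ) : ℂ) *
      ch (φ (ξ + (1 / 2 : ℝ) • h) - φ (ξ - (1 / 2 : ℝ) • h)) := by
    intro h ξ
    rw [hK]
    simp only [Gp]
    rw [map_mul, ch_conj, Complex.conj_ofReal, ← par, sub_eq_add_neg (φ _), ch_add]
    push_cast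
    ring
  have hKK : ∀ h ξ ξ', K h ξ * (starRingEnd ℂ) (K h ξ') =
      ((Real.exp (-(Real.pi * (2 * ‖ξ‖ ^ 2 + 2 * ‖ξ'‖ ^ 2))) : ℝ) : ℂ) *
      (((rg h : ℝ) : ℂ) * ch ⟪h, D ((1 / 2 : ℝ) • (ξ + ξ')) (ξ - ξ')⟫) := by
    intro h ξ ξ'
    rw [hKe, hKe, map_mul, ch_conj, Complex.conj_ofReal, ← hd2, sub_eq_add_neg _
      (φ (ξ' + (1 / 2 : ℝ) • h) - φ (ξ' - (1 / 2 : ℝ) • h)), ch_add]
    have h1 : Real.exp (-(Real.pi * (2 * ‖ξ‖ ^ 2 + 1 / 2 * ‖h‖ ^ 2))) *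
        Real.exp (-(Real.pi * (2 * ‖ξ'‖ ^ 2 + 1 / 2 * ‖h‖ ^ 2))) =
        Real.exp (-(Real.pi * (2 * ‖ξ‖ ^ 2 + 2 * ‖ξ'‖ ^ 2))) * rg h := by
      unfold rg
      rw [← Real.exp_add, ← Real.exp_add]
      congr 1
      ring
    have h2 : ((Real.exp (-(Real.pi * (2 * ‖ξ‖ ^ 2 + 1 / 2 * ‖h‖ ^ 2))) : ℝ) : ℂ) *
        ((Real.exp (-(Real.pi * (2 * ‖ξ'‖ ^ 2 + 1 / 2 * ‖h‖ ^ 2))) : ℝ) : ℂ) =
        ((Real.exp (-(Real.pi * (2 * ‖ξ‖ ^ 2 + 2 * ‖ξ'‖ ^ 2))) : ℝ) : ℂ) * ((rg h : ℝ) : ℂ) := by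
      exact_mod_cast congrArg (fun x : ℝ => (x : ℂ)) h1
    linear_combination (ch (φ (ξ + (1 / 2 : ℝ) • h) - φ (ξ - (1 / 2 : ℝ) • h)) *
      ch (-(φ (ξ' + (1 / 2 : ℝ) • h) - φ (ξ' - (1 / 2 : ℝ) • h)))) * h2
  have hAA : ∀ h, ((‖AA (Gp φ) h‖ ^ 2 : ℝ) : ℂ) =
      ∫ p : V × V, K h p.1 * (starRingEnd ℂ) (K h p.2) := by
    intro h
    have e1 : AA (Gp φ) h = ∫ ξ, K h ξ := rfl
    have e2 := integral_prod_mul (μ := (volume : Measure V)) (ν := (volume : Measure V))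
      (fun ξ => K h ξ) (fun ξ => (starRingEnd ℂ) (K h ξ))
    rw [← Measure.volume_eq_prod] at e2
    rw [e2, integral_conj, Complex.mul_conj, Complex.normSq_eq_norm_sq, e1]
  -- Fubini
  set J : V × (V × V) → ℂ := fun z =>
    ((Real.exp (-(Real.pi * (2 * ‖z.2.1‖ ^ 2 + 2 * ‖z.2.2‖ ^ 2))) : ℝ) : ℂ) *
      (((rg z.1 : ℝ) : ℂ) * ch ⟪z.1, D ((1 / 2 : ℝ) • (z.2.1 + z.2.2)) (z.2.1 - z.2.2)⟫) with hJ
  have hJc : Continuous J := by
    rw [hJ]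
    have hDc : Continuous fun z : V × (V × V) =>
        D ((1 / 2 : ℝ) • (z.2.1 + z.2.2)) (z.2.1 - z.2.2) :=
      hD.comp (by fun_prop : Continuous fun z : V × (V × V) =>
        ((1 / 2 : ℝ) • (z.2.1 + z.2.2), z.2.1 - z.2.2))
    refine Continuous.mul (Complex.continuous_ofReal.comp (by fun_prop)) ?_
    exact (Complex.continuous_ofReal.comp (rg_cont.comp continuous_fst)).mul
      (ch_cont.comp (continuous_fst.inner hDc))
  have hg1 : Integrable fun p : V × V => rg p.1 * rg p.2 := rg_int.mul_prod rg_int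
  have hg2 : Integrable fun z : V × (V × V) => rg z.1 * (rg z.2.1 * rg z.2.2) :=
    rg_int.mul_prod hg1
  have hle2 : ∀ ξ ξ' : V, Real.exp (-(Real.pi * (2 * ‖ξ‖ ^ 2 + 2 * ‖ξ'‖ ^ 2))) ≤
      rg ξ * rg ξ' := by
    intro ξ ξ'
    unfold rg
    rw [← Real.exp_add]
    apply Real.exp_le_exp.2
    have := Real.pi_pos
    nlinarith [sq_nonneg ‖ξ‖, sq_nonneg ‖ξ'‖, mul_nonneg this.le (sq_nonneg ‖ξ‖),
      mul_nonneg this.le (sq_nonneg ‖ξ'‖)]
  have hJi : Integrable J := by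
    refine hg2.mono' hJc.aestronglyMeasurable (ae_of_all _ fun z => ?_)
    rw [hJ]
    simp only [norm_mul, Complex.norm_real, ch_norm, mul_one, Real.norm_eq_abs, Real.abs_exp,
      abs_of_pos (rg_pos z.1)]
    rw [mul_comm]
    exact mul_le_mul_of_nonneg_left (hle2 _ _) (rg_pos _).le
  have hAJ : ∀ h, ((‖AA (Gp φ) h‖ ^ 2 : ℝ) : ℂ) = ∫ p : V × V, J (h, p) := by
    intro h
    rw [hAA]
    apply integral_congr_ae
    exact ae_of_all _ fun p => hKK h p.1 p.2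
  have hAi : Integrable fun h => ‖AA (Gp φ) h‖ ^ 2 := by
    have h1 := hJi.integral_prod_left
    have h2 := h1.norm
    refine h2.congr (ae_of_all _ fun h => ?_)
    simp only
    rw [← hAJ h, Complex.norm_real, Real.norm_eq_abs, abs_of_nonneg (by positivity)]
  have hval : ∫ h, ‖AA (Gp φ) h‖ ^ 2 = ∫ p : V × V,
      Real.exp (-(Real.pi * (2 * ‖p.1‖ ^ 2 + 2 * ‖p.2‖ ^ 2))) *
        rg (D ((1 / 2 : ℝ) • (p.1 + p.2)) (p.1 - p.2)) := by
    have h1 : ((∫ h, ‖AA (Gp φ) h‖ ^ 2 : ℝ) : ℂ) = ∫ h, ∫ p : V × V, J (h, p) := by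
      rw [← integral_complex_ofReal]
      apply integral_congr_ae
      exact ae_of_all _ fun h => hAJ h
    rw [integral_integral_swap (f := fun h (p : V × V) => J (h, p)) hJi] at h1
    have h2 : ∫ p : V × V, ∫ h, J (h, p) = ∫ p : V × V,
        ((Real.exp (-(Real.pi * (2 * ‖p.1‖ ^ 2 + 2 * ‖p.2‖ ^ 2))) *
        rg (D ((1 / 2 : ℝ) • (p.1 + p.2)) (p.1 - p.2)) : ℝ) : ℂ) := by
      apply integral_congr_ae
      refine ae_of_all _ fun p => ?_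
      simp only [hJ]
      rw [integral_const_mul, gauss_ft]
      push_cast
      rfl
    rw [h2, integral_complex_ofReal] at h1
    exact_mod_cast h1
  have hEi : Integrable fun p : V × V =>
      Real.exp (-(Real.pi * (2 * ‖p.1‖ ^ 2 + 2 * ‖p.2‖ ^ 2))) *
        rg (D ((1 / 2 : ℝ) • (p.1 + p.2)) (p.1 - p.2)) := by
    refine hg1.mono' ?_ (ae_of_all _ fun p => ?_)
    · apply Continuous.aestronglyMeasurable
      have hDc : Continuous fun z : V × V =>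
          D ((1 / 2 : ℝ) • (z.1 + z.2)) (z.1 - z.2) :=
        hD.comp (by fun_prop : Continuous fun z : V × V =>
          ((1 / 2 : ℝ) • (z.1 + z.2), z.1 - z.2))
      exact Continuous.mul (by fun_prop) (rg_cont.comp hDc)
    · simp only [norm_mul, Real.norm_eq_abs, Real.abs_exp, abs_of_pos (rg_pos _)]
      calc _ ≤ (rg p.1 * rg p.2) * 1 := by
            exact mul_le_mul (hle2 _ _) (rg_le _) (rg_pos _).le
              (mul_pos (rg_pos _) (rg_pos _)).le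
        _ = _ := mul_one _
  have hl : ∫⁻ h : V, ‖AA (Gp φ) h‖ₑ ^ 2 = ∫⁻ p : V × V, ENNReal.ofReal
      (Real.exp (-(Real.pi * (2 * ‖p.1‖ ^ 2 + 2 * ‖p.2‖ ^ 2))) *
        rg (D ((1 / 2 : ℝ) • (p.1 + p.2)) (p.1 - p.2))) := by
    rw [← ofReal_integral_eq_lintegral_ofReal hEi (ae_of_all _ fun p =>
      (mul_pos (Real.exp_pos _) (rg_pos _)).le), ← hval,
      ofReal_integral_eq_lintegral_ofReal hAi (ae_of_all _ fun p => by positivity)]
    apply lintegral_congr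
    intro h
    rw [← ofReal_norm, ENNReal.ofReal_pow (norm_nonneg _)]
  rw [hl]
  -- change of variables
  set E : V → V → ℝ≥0∞ := fun ξ ξ' => ENNReal.ofReal
      (Real.exp (-(Real.pi * (2 * ‖ξ‖ ^ 2 + 2 * ‖ξ'‖ ^ 2))) *
        rg (D ((1 / 2 : ℝ) • (ξ + ξ')) (ξ - ξ'))) with hE
  have hEc : Continuous fun p : V × V => E p.1 p.2 := by
    rw [hE]
    refine ENNReal.continuous_ofReal.comp ?_
    have hDc : Continuous fun z : V × V =>
        D ((1 / 2 : ℝ) • (z.1 + z.2)) (z.1 - z.2) :=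
      hD.comp (by fun_prop : Continuous fun z : V × V =>
        ((1 / 2 : ℝ) • (z.1 + z.2), z.1 - z.2))
    exact Continuous.mul (by fun_prop) (rg_cont.comp hDc)
  have s1 : ∫⁻ p : V × V, E p.1 p.2 = ∫⁻ ξ, ∫⁻ ξ', E ξ ξ' :=
    lintegral_prod _ hEc.measurable.aemeasurable
  have s2 : ∫⁻ ξ, ∫⁻ ξ', E ξ ξ' = ∫⁻ ξ, ∫⁻ v, E ξ (ξ - v) := by
    apply lintegral_congr
    intro ξ
    rw [lintegral_sub_left_eq_self (fun v => E ξ v) ξ]
  have s3 : ∫⁻ ξ, ∫⁻ v, E ξ (ξ - v) = ∫⁻ v, ∫⁻ ξ, E ξ (ξ - v) := by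
    apply lintegral_lintegral_swap
    apply Measurable.aemeasurable
    exact (hEc.comp (by fun_prop : Continuous fun p : V × V => (p.1, p.1 - p.2))).measurable
  have s4 : ∫⁻ v, ∫⁻ ξ, E ξ (ξ - v) = ∫⁻ v, ∫⁻ c, E (c + (1 / 2 : ℝ) • v) (c + (1 / 2 : ℝ) • v - v) := by
    apply lintegral_congr
    intro v
    rw [lintegral_add_right_eq_self (fun ξ => E ξ (ξ - v)) ((1 / 2 : ℝ) • v)]
  have s5 : ∫⁻ v, ∫⁻ c, E (c + (1 / 2 : ℝ) • v) (c + (1 / 2 : ℝ) • v - v) =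
      ∫⁻ c, ∫⁻ v, E (c + (1 / 2 : ℝ) • v) (c + (1 / 2 : ℝ) • v - v) := by
    apply lintegral_lintegral_swap
    apply Measurable.aemeasurable
    exact (hEc.comp (by fun_prop : Continuous fun p : V × V =>
      (p.2 + (1 / 2 : ℝ) • p.1, p.2 + (1 / 2 : ℝ) • p.1 - p.1))).measurable
  change ∫⁻ p : V × V, E p.1 p.2 = _
  rw [s1, s2, s3, s4, s5]
  apply lintegral_congr
  intro c
  apply lintegral_congr
  intro v
  simp only [hE]
  congr 1
  have e0 : c + (1 / 2 : ℝ) • v - v = c - (1 / 2 : ℝ) • v := by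
    have : v = (1 / 2 : ℝ) • v + (1 / 2 : ℝ) • v := by
      rw [← add_smul]; norm_num
    nth_rewrite 2 [this]
    abel
  have e1 : (1 / 2 : ℝ) • (c + (1 / 2 : ℝ) • v + (c - (1 / 2 : ℝ) • v)) = c := by
    have : c + (1 / 2 : ℝ) • v + (c - (1 / 2 : ℝ) • v) = (2 : ℝ) • c := by
      rw [two_smul]; abel
    rw [this, smul_smul]; norm_num
  have e2 : c + (1 / 2 : ℝ) • v - (c - (1 / 2 : ℝ) • v) = v := by
    have : c + (1 / 2 : ℝ) • v - (c - (1 / 2 : ℝ) • v) = (1 / 2 : ℝ) • v + (1 / 2 : ℝ) • v := by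
      abel
    rw [this, ← add_smul]; norm_num
  rw [e0, e1, e2]
  unfold rg
  rw [← Real.exp_add]
  congr 1
  have h1 := parallelogram_law_with_norm ℝ c ((1 / 2 : ℝ) • v)
  have h2 : ‖(1 / 2 : ℝ) • v‖ = 1 / 2 * ‖v‖ := by
    rw [norm_smul]; norm_num
  rw [h2] at h1
  linear_combination (-2 * Real.pi) * h1

end Pool.Agent.P8H15.CP
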