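import Mathlib
import Pool.Agent.P8H66.QP.F
set_option autoImplicit false
set_option linter.unusedSectionVars false

/-! One and two dimensional weighted integrals. -/

namespace Pool.Agent.P8H15.CP

open MeasureTheory Set
open Pool.Agent.P8H66.QP (gg gg_int gg_le gg_meas lint_gauss mom)
open scoped ENNReal NNReal

/-- the Gaussian times a power -/
noncomputable def gk (k : ℕ) (x : ℝ) : ℝ≥0∞ := gg x * ENNReal.ofReal ((1 + |x|) ^ k)

lemma gk_meas (k : ℕ) : Measurable (gk k) := by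
  unfold gk
  exact gg_meas.mul (by fun_prop)

lemma gk_zero (x : ℝ) : gk 0 x = gg x := by simp [gk]

lemma gk_succ (k : ℕ) (x : ℝ) : gk k x * ENNReal.ofReal (1 + |x|) = gk (k + 1) x := by
  unfold gk
  rw [mul_assoc, ← ENNReal.ofReal_mul (by positivity), pow_succ]

lemma gg_le_gk (k : ℕ) (x : ℝ) : gg x ≤ gk k x := by
  unfold gk
  calc gg x = gg x * 1 := (mul_one _).symm
    _ ≤ _ := by
      gcongr
      rw [← ENNReal.ofReal_one]
      apply ENNReal.ofReal_le_ofReal
      exact one_le_pow₀ (by linarith [abs_nonneg x])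

lemma gk_bd (k : ℕ) : ∃ A : ℝ≥0∞, A ≠ ∞ ∧ (∀ x, gk k x ≤ A) ∧ ∫⁻ x, gk k x ≤ A := by
  set c : ℝ := (k.factorial : ℝ) * Real.exp (3 / 2) with hc
  have hc0 : 0 < c := by positivity
  have h1 : ∀ x : ℝ, gk k x ≤ ENNReal.ofReal (c * Real.exp (-(2 * x ^ 2))) := by
    intro x
    unfold gk gg
    rw [← ENNReal.ofReal_mul (Real.exp_pos _).le]
    apply ENNReal.ofReal_le_ofReal
    have h2 := Real.pow_div_factorial_le_exp (1 + |x|) (by positivity) k
    have h3 : (1 + |x|) ^ k ≤ k.factorial * Real.exp (1 + |x|) := by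
      rw [div_le_iff₀ (by positivity)] at h2
      linarith
    calc Real.exp (-(Real.pi * x ^ 2)) * (1 + |x|) ^ k
        ≤ Real.exp (-(Real.pi * x ^ 2)) * (k.factorial * Real.exp (1 + |x|)) := by gcongr
      _ = k.factorial * (Real.exp (-(Real.pi * x ^ 2)) * Real.exp (1 + |x|)) := by ring
      _ ≤ k.factorial * (Real.exp (3 / 2) * Real.exp (-(2 * x ^ 2))) := by
          have h6 : Real.exp (-(Real.pi * x ^ 2)) * Real.exp (1 + |x|) ≤
              Real.exp (3 / 2) * Real.exp (-(2 * x ^ 2)) := by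
            rw [← Real.exp_add, ← Real.exp_add]
            apply Real.exp_le_exp.2
            have h4 := Real.pi_gt_three
            have h5 : |x| ^ 2 = x ^ 2 := sq_abs x
            nlinarith [sq_nonneg (|x| - 1), sq_nonneg x, mul_nonneg (by linarith : (0:ℝ) ≤ Real.pi - 3) (sq_nonneg x)]
          exact mul_le_mul_of_nonneg_left h6 (by positivity)
      _ = _ := by rw [hc]; ring
  refine ⟨ENNReal.ofReal c + ∫⁻ x : ℝ, ENNReal.ofReal (c * Real.exp (-(2 * x ^ 2))), ?_, ?_, ?_⟩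
  · refine ENNReal.add_ne_top.2 ⟨ENNReal.ofReal_ne_top, ?_⟩
    simp only [ENNReal.ofReal_mul hc0.le]
    rw [lintegral_const_mul' _ _ ENNReal.ofReal_ne_top, lint_gauss 2 (by norm_num)]
    exact ENNReal.mul_ne_top ENNReal.ofReal_ne_top ENNReal.ofReal_ne_top
  · intro x
    refine (h1 x).trans (le_trans ?_ le_self_add)
    apply ENNReal.ofReal_le_ofReal
    have : Real.exp (-(2 * x ^ 2)) ≤ 1 := by
      rw [Real.exp_le_one_iff]; nlinarith [sq_nonneg x]
    nlinarith
  · exact (lintegral_mono h1).trans le_add_self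

/-- the decaying weight `(1 + |y|)^(-s)` -/
noncomputable def jp (s y : ℝ) : ℝ≥0∞ := ENNReal.ofReal ((1 + |y|) ^ (-s))

lemma jp_meas (s : ℝ) : Measurable (jp s) := by
  unfold jp
  fun_prop

lemma jp_le_one {s : ℝ} (hs : 0 ≤ s) (y : ℝ) : jp s y ≤ 1 := by
  unfold jp
  rw [← ENNReal.ofReal_one]
  apply ENNReal.ofReal_le_ofReal
  apply Real.rpow_le_one_of_one_le_of_nonpos (by linarith [abs_nonneg y]) (by linarith)

lemma jp_anti {s : ℝ} (hs : 0 ≤ s) {y y' : ℝ} (h : |y| ≤ |y'|) : jp s y' ≤ jp s y := by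
  unfold jp
  apply ENNReal.ofReal_le_ofReal
  apply Real.rpow_le_rpow_of_nonpos (by positivity) (by linarith) (by linarith)

lemma jp_exp {s s' : ℝ} (h : s' ≤ s) (y : ℝ) : jp s y ≤ jp s' y := by
  unfold jp
  apply ENNReal.ofReal_le_ofReal
  apply Real.rpow_le_rpow_of_exponent_le (by linarith [abs_nonneg y]) (by linarith)

lemma jp_add (s s' y : ℝ) : jp (s + s') y = jp s y * jp s' y := by
  unfold jp
  rw [← ENNReal.ofReal_mul (by positivity), ← Real.rpow_add (by positivity)]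
  congr 2
  ring

/-- the inverse of the weight -/
noncomputable def ij (s y : ℝ) : ℝ≥0∞ := ENNReal.ofReal ((1 + |y|) ^ s)

lemma ij_mul (s y : ℝ) : ij s y * jp s y = 1 := by
  unfold ij jp
  rw [← ENNReal.ofReal_mul (by positivity), ← Real.rpow_add (by positivity)]
  simp

lemma ij_ne (s y : ℝ) : ij s y ≠ ∞ := ENNReal.ofReal_ne_top

/-- the local singularity -/
noncomputable def SS (s : ℝ) : ℝ≥0∞ := ∫⁻ x in Ioo (-1 : ℝ) 1, ENNReal.ofReal (|x| ^ (-s))

lemma SS_ne {s : ℝ} (hs : s < 1) : SS s ≠ ∞ := by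
  have h := mom (s := -s) (by linarith)
  have h1 : ENNReal.ofReal (Real.exp (-Real.pi)) * SS s ≤
      ∫⁻ h : ℝ, gg h * ENNReal.ofReal (|h| ^ (-s)) := by
    unfold SS
    rw [← lintegral_const_mul' _ _ ENNReal.ofReal_ne_top]
    refine le_trans ?_ (setLIntegral_le_lintegral (Ioo (-1 : ℝ) 1) _)
    apply setLIntegral_mono' measurableSet_Ioo
    intro x hx
    gcongr
    unfold gg
    apply ENNReal.ofReal_le_ofReal
    apply Real.exp_le_exp.2
    have := Real.pi_pos
    have h2 : x ^ 2 ≤ 1 := by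
      rw [sq_le_one_iff_abs_le_one, abs_le]
      exact ⟨hx.1.le, hx.2.le⟩
    nlinarith
  intro hc
  rw [hc, ENNReal.mul_top (by
    rw [Ne, ENNReal.ofReal_eq_zero, not_le]; exact Real.exp_pos _)] at h1
  exact h (top_le_iff.1 h1)

lemma sing {w : ℝ → ℝ≥0∞} {A : ℝ≥0∞} (h1 : ∀ x, w x ≤ A)
    (h2 : ∫⁻ x, w x ≤ A) {s : ℝ} (hs0 : 0 ≤ s) (b : ℝ) :
    ∫⁻ x, w x * ENNReal.ofReal (|x + b| ^ (-s)) ≤ A * SS s + A := by
  set f : ℝ → ℝ≥0∞ := (Ioo (-1 : ℝ) 1).indicator fun x => ENNReal.ofReal (|x| ^ (-s)) with hf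
  have hfm : Measurable f := Measurable.indicator (by fun_prop) measurableSet_Ioo
  have h3 : ∀ x, w x * ENNReal.ofReal (|x + b| ^ (-s)) ≤ A * f (x + b) + w x := by
    intro x
    by_cases hx : x + b ∈ Ioo (-1 : ℝ) 1
    · rw [hf, indicator_of_mem hx]
      refine le_trans ?_ le_self_add
      gcongr
      exact h1 x
    · rw [hf, indicator_of_notMem hx, mul_zero, zero_add]
      calc _ ≤ w x * 1 := by
            gcongr
            rw [← ENNReal.ofReal_one]
            apply ENNReal.ofReal_le_ofReal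
            apply Real.rpow_le_one_of_one_le_of_nonpos _ (by linarith)
            by_contra hc
            rw [not_le, abs_lt] at hc
            exact hx ⟨hc.1, hc.2⟩
        _ = _ := mul_one _
  calc _ ≤ ∫⁻ x, (A * f (x + b) + w x) := lintegral_mono h3
    _ = (∫⁻ x, A * f (x + b)) + ∫⁻ x, w x := by
        have hm : Measurable fun x => A * f (x + b) :=
          (hfm.comp (measurable_id.add_const b)).const_mul _
        exact lintegral_add_left hm _
    _ = A * SS s + ∫⁻ x, w x := by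
        have hm : Measurable fun x => f (x + b) := hfm.comp (measurable_id.add_const b)
        rw [lintegral_const_mul _ hm, lintegral_add_right_eq_self f b, hf,
          lintegral_indicator measurableSet_Ioo]
        rfl
    _ ≤ A * SS s + A := by gcongr

lemma L1 {w : ℝ → ℝ≥0∞} {A : ℝ≥0∞} (hA : A ≠ ∞) (h1 : ∀ x, w x ≤ A)
    (h2 : ∫⁻ x, w x ≤ A) {s : ℝ} (hs0 : 0 ≤ s) (hs1 : s < 1) :
    ∃ C : ℝ≥0∞, C ≠ ∞ ∧ ∀ N z : ℝ, ∫⁻ x, w x * jp s (N * x + z) ≤ C * jp s N := by
  refine ⟨ENNReal.ofReal (2 ^ s) * (A * SS s + A), ?_, ?_⟩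
  · exact ENNReal.mul_ne_top ENNReal.ofReal_ne_top
      (ENNReal.add_ne_top.2 ⟨ENNReal.mul_ne_top hA (SS_ne hs1), hA⟩)
  intro N z
  by_cases hN : |N| ≤ 1
  · have h3 : ENNReal.ofReal (2 ^ s) * jp s N ≥ 1 := by
      unfold jp
      rw [← ENNReal.ofReal_mul (by positivity), ge_iff_le, ← ENNReal.ofReal_one]
      apply ENNReal.ofReal_le_ofReal
      rw [Real.rpow_neg (by positivity), ← div_eq_mul_inv, le_div_iff₀ (by positivity), one_mul]
      apply Real.rpow_le_rpow (by positivity) (by linarith) hs0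
    calc ∫⁻ x, w x * jp s (N * x + z) ≤ ∫⁻ x, w x := by
          refine lintegral_mono fun x => ?_
          calc _ ≤ w x * 1 := by gcongr; exact jp_le_one hs0 _
            _ = _ := mul_one _
      _ ≤ A := h2
      _ ≤ A * SS s + A := le_add_self
      _ = (A * SS s + A) * 1 := (mul_one _).symm
      _ ≤ (A * SS s + A) * (ENNReal.ofReal (2 ^ s) * jp s N) := by gcongr
      _ = _ := by ring
  · rw [not_le] at hN
    have hN0 : N ≠ 0 := by
      rintro rfl
      simp at hN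
      linarith
    have hNp : 0 < |N| := by positivity
    have h3 : ∀ᵐ x : ℝ, w x * jp s (N * x + z) ≤ (ENNReal.ofReal (2 ^ s) * jp s N) *
        (w x * ENNReal.ofReal (|x + z / N| ^ (-s))) := by
      have h4 : ∀ᵐ x : ℝ, x ≠ -(z / N) := by
        rw [ae_iff]
        simp
      filter_upwards [h4] with x hx
      have hx0 : x + z / N ≠ 0 := fun h => hx (by linarith)
      have e1 : N * x + z = N * (x + z / N) := by field_simp
      have h5 : jp s (N * x + z) ≤ (ENNReal.ofReal (2 ^ s) * jp s N) *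
          ENNReal.ofReal (|x + z / N| ^ (-s)) := by
        unfold jp
        rw [← ENNReal.ofReal_mul (by positivity), ← ENNReal.ofReal_mul (by positivity)]
        apply ENNReal.ofReal_le_ofReal
        have hp : 0 < |x + z / N| := abs_pos.2 hx0
        calc (1 + |N * x + z|) ^ (-s) ≤ (|N * x + z|) ^ (-s) := by
              apply Real.rpow_le_rpow_of_nonpos _ (by linarith) (by linarith)
              rw [e1, abs_mul]
              positivity
          _ = |N| ^ (-s) * |x + z / N| ^ (-s) := by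
              rw [e1, abs_mul, Real.mul_rpow hNp.le hp.le]
          _ ≤ (2 ^ s * (1 + |N|) ^ (-s)) * |x + z / N| ^ (-s) := by
              gcongr
              rw [Real.rpow_neg (by positivity), Real.rpow_neg (by positivity),
                ← div_eq_mul_inv, ← one_div, div_le_div_iff₀ (by positivity) (by positivity),
                one_mul, ← Real.mul_rpow (by positivity) (by positivity)]
              apply Real.rpow_le_rpow (by positivity) (by linarith) hs0
      calc _ ≤ w x * ((ENNReal.ofReal (2 ^ s) * jp s N) *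
          ENNReal.ofReal (|x + z / N| ^ (-s))) := by gcongr
        _ = _ := by ring
    calc ∫⁻ x, w x * jp s (N * x + z) ≤ ∫⁻ x, (ENNReal.ofReal (2 ^ s) * jp s N) *
        (w x * ENNReal.ofReal (|x + z / N| ^ (-s))) := lintegral_mono_ae h3
      _ = (ENNReal.ofReal (2 ^ s) * jp s N) *
        ∫⁻ x, (w x * ENNReal.ofReal (|x + z / N| ^ (-s))) := by
          rw [lintegral_const_mul']
          exact ENNReal.mul_ne_top ENNReal.ofReal_ne_top ENNReal.ofReal_ne_top
      _ ≤ (ENNReal.ofReal (2 ^ s) * jp s N) * (A * SS s + A) := by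
          gcongr
          exact sing h1 h2 hs0 _
      _ = _ := by ring

/-- the two dimensional integrand -/
noncomputable def i2 (k : ℕ) (s l1 l2 h : ℝ) (p : ℝ × ℝ) : ℝ≥0∞ :=
  (gk k p.1 * gk k p.2) * jp s (l1 * p.1 + (l2 * p.2 + h))

lemma i2_meas (k : ℕ) (s l1 l2 h : ℝ) : Measurable (i2 k s l1 l2 h) := by
  unfold i2
  have h1 : Measurable fun p : ℝ × ℝ => gk k p.1 := (gk_meas k).comp measurable_fst
  have h2 : Measurable fun p : ℝ × ℝ => gk k p.2 := (gk_meas k).comp measurable_snd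
  have h3 : Measurable fun p : ℝ × ℝ => jp s (l1 * p.1 + (l2 * p.2 + h)) :=
    (jp_meas s).comp (by fun_prop)
  exact (h1.mul h2).mul h3

/-- the two dimensional integral -/
noncomputable def I2 (k : ℕ) (s l1 l2 h : ℝ) : ℝ≥0∞ := ∫⁻ p : ℝ × ℝ, i2 k s l1 l2 h p

lemma I2_swap (k : ℕ) (s l1 l2 h : ℝ) : I2 k s l1 l2 h = I2 k s l2 l1 h := by
  unfold I2
  have h1 := (Measure.measurePreserving_swap (μ := (volume : Measure ℝ))
    (ν := (volume : Measure ℝ))).lintegral_comp (i2_meas k s l2 l1 h)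
  rw [← Measure.volume_eq_prod] at h1
  rw [← h1]
  apply lintegral_congr
  intro p
  unfold i2
  simp only [Prod.fst_swap, Prod.snd_swap]
  rw [mul_comm (gk k p.1)]
  congr 2
  ring

lemma I2_one (k : ℕ) {s : ℝ} (hs0 : 0 ≤ s) (hs1 : s < 1) :
    ∃ C : ℝ≥0∞, C ≠ ∞ ∧ ∀ l1 l2 h : ℝ, I2 k s l1 l2 h ≤ C * jp s l1 ∧
      I2 k s l1 l2 h ≤ C * jp s l2 := by
  obtain ⟨A, hA, hA1, hA2⟩ := gk_bd k
  obtain ⟨C, hC, hC1⟩ := L1 (w := gk k) hA hA1 hA2 hs0 hs1
  have key : ∀ l1 l2 h : ℝ, I2 k s l1 l2 h ≤ (A * C) * jp s l2 := by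
    intro l1 l2 h
    unfold I2
    have h0 : ∫⁻ p : ℝ × ℝ, i2 k s l1 l2 h p = ∫⁻ x : ℝ, ∫⁻ y : ℝ, i2 k s l1 l2 h (x, y) :=
      lintegral_prod _ (i2_meas k s l1 l2 h).aemeasurable
    rw [h0]
    calc _ = ∫⁻ x : ℝ, gk k x * ∫⁻ y : ℝ, gk k y * jp s (l2 * y + (l1 * x + h)) := by
          apply lintegral_congr
          intro x
          have hm : Measurable fun y => gk k y * jp s (l2 * y + (l1 * x + h)) :=
            (gk_meas k).mul ((jp_meas s).comp (by fun_prop))
          rw [← lintegral_const_mul _ hm]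
          apply lintegral_congr
          intro y
          unfold i2
          rw [mul_assoc]
          congr 3
          ring
      _ ≤ ∫⁻ x : ℝ, gk k x * (C * jp s l2) := by
          refine lintegral_mono fun x => ?_
          gcongr
          exact hC1 _ _
      _ = (∫⁻ x : ℝ, gk k x) * (C * jp s l2) := by
          rw [lintegral_mul_const _ (gk_meas k)]
      _ ≤ A * (C * jp s l2) := by gcongr
      _ = _ := by ring
  refine ⟨A * C, ENNReal.mul_ne_top hA hC, fun l1 l2 h => ⟨?_, key l1 l2 h⟩⟩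
  rw [I2_swap]
  exact key l2 l1 h

lemma peetre {s : ℝ} (hs0 : 0 ≤ s) (hs1 : s < 1) (l1 l2 x y h : ℝ) :
    ij s h * jp s (l1 * x + (l2 * y + h)) ≤
      1 + ij s l1 * (ENNReal.ofReal (1 + |x|) * jp s (l1 * x + (l2 * y + h))) +
        ij s l2 * (ENNReal.ofReal (1 + |y|) * jp s (l1 * x + (l2 * y + h))) := by
  set u := l1 * x + (l2 * y + h) with hu
  have h1 : (1 + |h|) ^ s ≤ (1 + |u|) ^ s + (1 + |l1|) ^ s * (1 + |x|) +
      (1 + |l2|) ^ s * (1 + |y|) := by
    have e : |h| ≤ |u| + |l1| * |x| + |l2| * |y| := by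
      have : h = u - l1 * x - l2 * y := by rw [hu]; ring
      rw [this, ← abs_mul, ← abs_mul]
      exact (abs_sub _ _).trans (by linarith [abs_sub u (l1 * x)])
    have p : ∀ l x : ℝ, (|l| * |x|) ^ s ≤ (1 + |l|) ^ s * (1 + |x|) := by
      intro l x
      rw [Real.mul_rpow (abs_nonneg _) (abs_nonneg _)]
      have a1 : |l| ^ s ≤ (1 + |l|) ^ s := Real.rpow_le_rpow (abs_nonneg _) (by linarith) hs0
      have a2 : |x| ^ s ≤ 1 + |x| := by
        calc |x| ^ s ≤ (1 + |x|) ^ s := Real.rpow_le_rpow (abs_nonneg _) (by linarith) hs0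
          _ ≤ (1 + |x|) ^ (1 : ℝ) :=
              Real.rpow_le_rpow_of_exponent_le (by linarith [abs_nonneg x]) hs1.le
          _ = _ := Real.rpow_one _
      exact mul_le_mul a1 a2 (by positivity) (by positivity)
    calc (1 + |h|) ^ s ≤ ((1 + |u| + |l1| * |x|) + |l2| * |y|) ^ s :=
          Real.rpow_le_rpow (by positivity) (by linarith) hs0
      _ ≤ (1 + |u| + |l1| * |x|) ^ s + (|l2| * |y|) ^ s :=
          Real.rpow_add_le_add_rpow (by positivity) (by positivity) hs0 hs1.le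
      _ ≤ ((1 + |u|) ^ s + (|l1| * |x|) ^ s) + (|l2| * |y|) ^ s := by
          gcongr
          exact Real.rpow_add_le_add_rpow (by positivity) (by positivity) hs0 hs1.le
      _ ≤ _ := by
          have := p l1 x
          have := p l2 y
          linarith
  have h2 : ij s h ≤ ij s u + ij s l1 * ENNReal.ofReal (1 + |x|) +
      ij s l2 * ENNReal.ofReal (1 + |y|) := by
    unfold ij
    rw [← ENNReal.ofReal_mul (by positivity), ← ENNReal.ofReal_mul (by positivity),
      ← ENNReal.ofReal_add (by positivity) (by positivity),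
      ← ENNReal.ofReal_add (by positivity) (by positivity)]
    exact ENNReal.ofReal_le_ofReal h1
  calc ij s h * jp s u ≤ (ij s u + ij s l1 * ENNReal.ofReal (1 + |x|) +
      ij s l2 * ENNReal.ofReal (1 + |y|)) * jp s u := by gcongr
    _ = ij s u * jp s u + ij s l1 * (ENNReal.ofReal (1 + |x|) * jp s u) +
      ij s l2 * (ENNReal.ofReal (1 + |y|) * jp s u) := by ring
    _ = _ := by rw [ij_mul]

lemma gk_mono (k : ℕ) (x : ℝ) : gk k x ≤ gk (k + 1) x := by
  rw [← gk_succ]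
  calc gk k x = gk k x * 1 := (mul_one _).symm
    _ ≤ _ := by
      gcongr
      rw [← ENNReal.ofReal_one]
      exact ENNReal.ofReal_le_ofReal (by linarith [abs_nonneg x])

/-- the total mass -/
noncomputable def K2 (k : ℕ) : ℝ≥0∞ := ∫⁻ p : ℝ × ℝ, gk k p.1 * gk k p.2

lemma K2_ne (k : ℕ) : K2 k ≠ ∞ := by
  obtain ⟨A, hA, hA1, hA2⟩ := gk_bd k
  unfold K2
  have h1 : Measurable fun p : ℝ × ℝ => gk k p.1 := (gk_meas k).comp measurable_fst
  have h2 : Measurable fun p : ℝ × ℝ => gk k p.2 := (gk_meas k).comp measurable_snd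
  have h0 : ∫⁻ p : ℝ × ℝ, gk k p.1 * gk k p.2 = ∫⁻ x : ℝ, ∫⁻ y : ℝ, gk k x * gk k y :=
    lintegral_prod _ (h1.mul h2).aemeasurable
  rw [h0]
  have h3 : ∀ x, ∫⁻ y : ℝ, gk k x * gk k y = gk k x * ∫⁻ y, gk k y := fun x =>
    lintegral_const_mul _ (gk_meas k)
  simp only [h3]
  rw [lintegral_mul_const _ (gk_meas k)]
  have : ∫⁻ x, gk k x ≠ ∞ := ne_top_of_le_ne_top hA hA2
  exact ENNReal.mul_ne_top this this

lemma i2_peetre (k : ℕ) {s : ℝ} (hs0 : 0 ≤ s) (hs1 : s < 1) (l1 l2 h : ℝ) (p : ℝ × ℝ) :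
    ij s h * i2 k s l1 l2 h p ≤ gk k p.1 * gk k p.2 +
      (ij s l1 * i2 (k + 1) s l1 l2 h p + ij s l2 * i2 (k + 1) s l1 l2 h p) := by
  unfold i2
  have h1 := peetre hs0 hs1 l1 l2 p.1 p.2 h
  calc ij s h * (gk k p.1 * gk k p.2 * jp s (l1 * p.1 + (l2 * p.2 + h)))
      = (gk k p.1 * gk k p.2) * (ij s h * jp s (l1 * p.1 + (l2 * p.2 + h))) := by ring
    _ ≤ (gk k p.1 * gk k p.2) * (1 + ij s l1 * (ENNReal.ofReal (1 + |p.1|) *
          jp s (l1 * p.1 + (l2 * p.2 + h))) +
        ij s l2 * (ENNReal.ofReal (1 + |p.2|) * jp s (l1 * p.1 + (l2 * p.2 + h)))) := by gcongr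
    _ = gk k p.1 * gk k p.2 + (ij s l1 * ((gk k p.1 * ENNReal.ofReal (1 + |p.1|)) * gk k p.2 *
          jp s (l1 * p.1 + (l2 * p.2 + h))) +
        ij s l2 * (gk k p.1 * (gk k p.2 * ENNReal.ofReal (1 + |p.2|)) *
          jp s (l1 * p.1 + (l2 * p.2 + h)))) := by ring
    _ ≤ _ := by
        rw [gk_succ, gk_succ]
        gcongr
        · exact gk_mono k _
        · exact gk_mono k _

lemma I2_three (k : ℕ) {s : ℝ} (hs0 : 0 ≤ s) (hs1 : s < 1) :
    ∃ C : ℝ≥0∞, C ≠ ∞ ∧ ∀ l1 l2 h : ℝ, I2 k s l1 l2 h ≤ C * jp s l1 ∧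
      I2 k s l1 l2 h ≤ C * jp s l2 ∧ I2 k s l1 l2 h ≤ C * jp s h := by
  obtain ⟨C, hC, hC1⟩ := I2_one k hs0 hs1
  obtain ⟨C', hC', hC1'⟩ := I2_one (k + 1) hs0 hs1
  refine ⟨C + (K2 k + (C' + C')), ENNReal.add_ne_top.2 ⟨hC, ENNReal.add_ne_top.2
    ⟨K2_ne k, ENNReal.add_ne_top.2 ⟨hC', hC'⟩⟩⟩, ?_⟩
  intro l1 l2 h
  refine ⟨(hC1 l1 l2 h).1.trans (by gcongr; exact le_self_add),
    (hC1 l1 l2 h).2.trans (by gcongr; exact le_self_add), ?_⟩
  have hK : Measurable fun p : ℝ × ℝ => gk k p.1 * gk k p.2 := by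
    have h1 : Measurable fun p : ℝ × ℝ => gk k p.1 := (gk_meas k).comp measurable_fst
    have h2 : Measurable fun p : ℝ × ℝ => gk k p.2 := (gk_meas k).comp measurable_snd
    exact h1.mul h2
  have hm := i2_meas (k + 1) s l1 l2 h
  have h1 : ij s h * I2 k s l1 l2 h ≤ K2 k + (C' + C') := by
    calc ij s h * I2 k s l1 l2 h = ∫⁻ p : ℝ × ℝ, ij s h * i2 k s l1 l2 h p := by
          unfold I2
          rw [lintegral_const_mul' _ _ (ij_ne _ _)]
      _ ≤ ∫⁻ p : ℝ × ℝ, (gk k p.1 * gk k p.2 +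
          (ij s l1 * i2 (k + 1) s l1 l2 h p + ij s l2 * i2 (k + 1) s l1 l2 h p)) :=
          lintegral_mono fun p => i2_peetre k hs0 hs1 l1 l2 h p
      _ = K2 k + (ij s l1 * I2 (k + 1) s l1 l2 h + ij s l2 * I2 (k + 1) s l1 l2 h) := by
          rw [lintegral_add_left hK, lintegral_add_left (hm.const_mul _),
            lintegral_const_mul _ hm, lintegral_const_mul _ hm]
          rfl
      _ ≤ K2 k + (ij s l1 * (C' * jp s l1) + ij s l2 * (C' * jp s l2)) := by
          gcongr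
          · exact (hC1' l1 l2 h).1
          · exact (hC1' l1 l2 h).2
      _ = K2 k + (C' * (ij s l1 * jp s l1) + C' * (ij s l2 * jp s l2)) := by ring
      _ = _ := by rw [ij_mul, ij_mul, mul_one]
  calc I2 k s l1 l2 h = (ij s h * jp s h) * I2 k s l1 l2 h := by rw [ij_mul, one_mul]
    _ = (ij s h * I2 k s l1 l2 h) * jp s h := by ring
    _ ≤ (K2 k + (C' + C')) * jp s h := by gcongr
    _ ≤ (C + (K2 k + (C' + C'))) * jp s h := mul_le_mul' le_add_self le_rfl

/-- the integral in time -/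
lemma time_int {p : ℝ} (hp : 1 < p) : ∃ C : ℝ≥0∞, C ≠ ∞ ∧ ∀ z : ℝ,
    ∫⁻ t : ℝ, jp p (2 * t + z) ≤ C := by
  have h1 : Integrable fun t : ℝ => (1 + ‖t‖) ^ (-p) :=
    integrable_one_add_norm (by simpa using hp)
  refine ⟨∫⁻ t : ℝ, ENNReal.ofReal ((1 + ‖t‖) ^ (-p)), ?_, ?_⟩
  · have := h1.2
    rw [hasFiniteIntegral_iff_enorm] at this
    refine ne_top_of_le_ne_top this.ne (lintegral_mono fun t => ?_)
    rw [← ofReal_norm]
    exact ENNReal.ofReal_le_ofReal (le_abs_self _)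
  · intro z
    rw [← lintegral_add_right_eq_self (fun t : ℝ => ENNReal.ofReal ((1 + ‖t‖) ^ (-p))) (z / 2)]
    refine lintegral_mono fun t => ?_
    unfold jp
    apply ENNReal.ofReal_le_ofReal
    apply Real.rpow_le_rpow_of_nonpos (by positivity) _ (by linarith)
    have : 2 * t + z = 2 * (t + z / 2) := by ring
    rw [this, abs_mul, Real.norm_eq_abs]
    have := abs_nonneg (t + z / 2)
    norm_num
    linarith

end Pool.Agent.P8H15.CP
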