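import Mathlib
import Pool.Agent.P8H15.CP.B
set_option autoImplicit false
set_option linter.unusedSectionVars false

/-! Blocks of two variables: the Gaussian integral and the pointwise bound. -/

namespace Pool.Agent.P8H15.CP

open MeasureTheory Set
open Pool.Agent.P8H66.QP (gg gg_int gg_le gg_meas lint_gauss mom)
open scoped ENNReal NNReal

/-- the two dimensional Gaussian integral -/
lemma gauss2 (α β γ : ℝ) (hα : 0 < α) (hd : 0 < α * γ - β ^ 2) :
    ∫⁻ p : ℝ × ℝ, ENNReal.ofReal (Real.exp (-(Real.pi *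
      (α * p.1 ^ 2 + 2 * β * (p.1 * p.2) + γ * p.2 ^ 2)))) =
      ENNReal.ofReal (1 / Real.sqrt (α * γ - β ^ 2)) := by
  have hm : Measurable fun p : ℝ × ℝ => ENNReal.ofReal (Real.exp (-(Real.pi *
      (α * p.1 ^ 2 + 2 * β * (p.1 * p.2) + γ * p.2 ^ 2)))) := by fun_prop
  have hpi := Real.pi_pos
  have hsw := (Measure.measurePreserving_swap (μ := (volume : Measure ℝ))
    (ν := (volume : Measure ℝ))).lintegral_comp hm
  rw [← Measure.volume_eq_prod] at hsw
  have h0 : ∫⁻ p : ℝ × ℝ, ENNReal.ofReal (Real.exp (-(Real.pi *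
      (α * p.swap.1 ^ 2 + 2 * β * (p.swap.1 * p.swap.2) + γ * p.swap.2 ^ 2)))) =
      ∫⁻ y : ℝ, ∫⁻ x : ℝ, ENNReal.ofReal (Real.exp (-(Real.pi *
      (α * x ^ 2 + 2 * β * (x * y) + γ * y ^ 2)))) :=
    lintegral_prod _ (hm.comp measurable_swap).aemeasurable
  rw [← hsw, h0]
  have h1 : ∀ y : ℝ, ∫⁻ x : ℝ, ENNReal.ofReal (Real.exp (-(Real.pi *
      (α * x ^ 2 + 2 * β * (x * y) + γ * y ^ 2)))) =
      ENNReal.ofReal (Real.sqrt (1 / α)) *
        ENNReal.ofReal (Real.exp (-((Real.pi * ((α * γ - β ^ 2) / α)) * y ^ 2))) := by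
    intro y
    have e : ∀ x : ℝ, ENNReal.ofReal (Real.exp (-(Real.pi *
      (α * x ^ 2 + 2 * β * (x * y) + γ * y ^ 2)))) =
      ENNReal.ofReal (Real.exp (-((Real.pi * ((α * γ - β ^ 2) / α)) * y ^ 2))) *
        ENNReal.ofReal (Real.exp (-((Real.pi * α) * (x + β * y / α) ^ 2))) := by
      intro x
      rw [← ENNReal.ofReal_mul (Real.exp_pos _).le, ← Real.exp_add]
      congr 2
      field_simp
      ring
    simp only [e]
    rw [lintegral_const_mul' _ _ ENNReal.ofReal_ne_top,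
      lintegral_add_right_eq_self (fun x => ENNReal.ofReal (Real.exp (-((Real.pi * α) * x ^ 2)))),
      lint_gauss _ (by positivity), mul_comm]
    congr 3
    field_simp
  simp only [h1]
  rw [lintegral_const_mul' _ _ ENNReal.ofReal_ne_top, lint_gauss _ (by positivity),
    ← ENNReal.ofReal_mul (Real.sqrt_nonneg _)]
  congr 1
  have e3 : 1 / Real.sqrt (α * γ - β ^ 2) = Real.sqrt (1 / (α * γ - β ^ 2)) := by
    rw [Real.sqrt_div' _ hd.le, Real.sqrt_one]
  rw [← Real.sqrt_mul (by positivity), e3]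
  congr 1
  field_simp

/-- the bound for the Gaussian integral of a block -/
noncomputable def xb (m δ : ℝ) : ℝ := 2 / ((1 + |m + δ|) * (1 + |m - δ|))

lemma xb_nonneg (m δ : ℝ) : 0 ≤ xb m δ := by unfold xb; positivity

lemma sq_one (y : ℝ) : (1 + |y|) ^ 2 ≤ 2 * (1 + y ^ 2) := by
  have h5 : |y| ^ 2 = y ^ 2 := sq_abs y
  nlinarith [sq_nonneg (|y| - 1)]

/-- the Gaussian integral of a block -/
lemma block_int (m p r δ : ℝ) (hδ : δ ^ 2 = p ^ 2 + r ^ 2) :
    ∫⁻ v : ℝ × ℝ, ENNReal.ofReal (Real.exp (-(Real.pi * (v.1 ^ 2 + v.2 ^ 2 +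
      (((m + p) * v.1 + r * v.2) ^ 2 + (r * v.1 + (m - p) * v.2) ^ 2))))) ≤
      ENNReal.ofReal (xb m δ) := by
  have hα : 0 < 1 + (m + p) ^ 2 + r ^ 2 := by positivity
  have hdet : (1 + (m + p) ^ 2 + r ^ 2) * (1 + (m - p) ^ 2 + r ^ 2) - (2 * r * m) ^ 2 =
      (1 + (m + δ) ^ 2) * (1 + (m - δ) ^ 2) := by
    linear_combination (-(2 - 2 * m ^ 2 + δ ^ 2 + p ^ 2 + r ^ 2)) * hδ
  have hpos : 0 < (1 + (m + δ) ^ 2) * (1 + (m - δ) ^ 2) := by positivity
  have h := gauss2 (1 + (m + p) ^ 2 + r ^ 2) (2 * r * m) (1 + (m - p) ^ 2 + r ^ 2) hα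
    (by rw [hdet]; exact hpos)
  rw [hdet] at h
  have e : ∀ v : ℝ × ℝ, v.1 ^ 2 + v.2 ^ 2 +
      (((m + p) * v.1 + r * v.2) ^ 2 + (r * v.1 + (m - p) * v.2) ^ 2) =
      (1 + (m + p) ^ 2 + r ^ 2) * v.1 ^ 2 + 2 * (2 * r * m) * (v.1 * v.2) +
        (1 + (m - p) ^ 2 + r ^ 2) * v.2 ^ 2 := fun v => by ring
  simp only [e]
  rw [h]
  apply ENNReal.ofReal_le_ofReal
  unfold xb
  rw [div_le_div_iff₀ (Real.sqrt_pos.2 hpos) (by positivity), one_mul]
  have h1 := sq_one (m + δ)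
  have h2 := sq_one (m - δ)
  have h3 : 0 ≤ (1 + |m + δ|) * (1 + |m - δ|) := by positivity
  rw [← abs_of_nonneg h3, ← abs_of_nonneg (by positivity :
    (0 : ℝ) ≤ 2 * Real.sqrt ((1 + (m + δ) ^ 2) * (1 + (m - δ) ^ 2)))]
  apply sq_le_sq.1
  rw [mul_pow, mul_pow, Real.sq_sqrt hpos.le]
  calc (1 + |m + δ|) ^ 2 * (1 + |m - δ|) ^ 2 ≤ (2 * (1 + (m + δ) ^ 2)) * (2 * (1 + (m - δ) ^ 2)) := by
        gcongr
    _ = _ := by ring

/-- the pointwise bound -/
lemma pointwise {K A : ℝ} (hK0 : 0 < K) (hK1 : K < 1) (hA : 1 ≤ A) (m δ τ z : ℝ) (hδ : 0 ≤ δ)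
    (hz : 0 ≤ z) (hτ : |τ| ≤ |m| + 4 * A * z) :
    xb m δ * (1 + |τ| / A) ^ K ≤ 32 * ((1 + |δ|) ^ (-K) + A ^ (-K)) *
      ((1 + |m + δ|) ^ (-(2 - K)) + (1 + |m - δ|) ^ (-(2 - K))) * (1 + z) := by
  set a := 1 + |m + δ| with ha
  set b := 1 + |m - δ| with hb
  have ha1 : 1 ≤ a := by rw [ha]; linarith [abs_nonneg (m + δ)]
  have hb1 : 1 ≤ b := by rw [hb]; linarith [abs_nonneg (m - δ)]
  have hA0 : 0 < A := by linarith
  have x1 := le_abs_self (m + δ)
  have x2 := neg_abs_le (m + δ)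
  have x3 := le_abs_self (m - δ)
  have x4 := neg_abs_le (m - δ)
  have hm : |m| ≤ a + b := by
    rw [abs_le, ha, hb]
    constructor <;> linarith
  have hd : 1 + |δ| ≤ a + b := by
    rw [abs_of_nonneg hδ, ha, hb]
    linarith
  have hS : 0 < a + b := by linarith
  -- the weight
  have w1 : (1 + |τ| / A) ^ K ≤ 4 * (1 + ((a + b) / A) ^ K) * (1 + z) := by
    have h1 : 1 + |τ| / A ≤ (1 + (a + b) / A) * (4 * (1 + z)) := by
      have h2 : |τ| / A ≤ (a + b) / A + 4 * z := by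
        rw [div_add' _ _ _ hA0.ne']
        gcongr
        linarith
      have h3 : 0 ≤ (a + b) / A := by positivity
      nlinarith
    calc (1 + |τ| / A) ^ K ≤ ((1 + (a + b) / A) * (4 * (1 + z))) ^ K :=
          Real.rpow_le_rpow (by positivity) h1 hK0.le
      _ = (1 + (a + b) / A) ^ K * (4 * (1 + z)) ^ K := by
          rw [Real.mul_rpow (by positivity) (by positivity)]
      _ ≤ (1 + ((a + b) / A) ^ K) * (4 * (1 + z)) := by
          gcongr
          · calc (1 + (a + b) / A) ^ K ≤ 1 ^ K + ((a + b) / A) ^ K :=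
                  Real.rpow_add_le_add_rpow (by positivity) (by positivity) hK0.le hK1.le
              _ = _ := by rw [Real.one_rpow]
          · calc (4 * (1 + z)) ^ K ≤ (4 * (1 + z)) ^ (1 : ℝ) :=
                  Real.rpow_le_rpow_of_exponent_le (by linarith) hK1.le
              _ = _ := Real.rpow_one _
      _ = _ := by ring
  -- the product
  have w2 : 1 / (a * b) ≤ 2 * (a + b) ^ (-K) * (a ^ (-(2 - K)) + b ^ (-(2 - K))) := by
    have key : ∀ u v : ℝ, 1 ≤ u → u ≤ v → 1 / (u * v) ≤ 2 * (u + v) ^ (-K) * u ^ (-(2 - K)) := by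
      intro u v hu huv
      have hu0 : 0 < u := by linarith
      have hv0 : 0 < v := by linarith
      have e1 : 1 / (u * v) = v ^ (-K) * (u ^ (-(1 : ℝ)) * v ^ (-(1 - K))) := by
        have : v ^ (-K) * (u ^ (-(1 : ℝ)) * v ^ (-(1 - K))) =
            u ^ (-(1 : ℝ)) * (v ^ (-K) * v ^ (-(1 - K))) := by ring
        rw [this, ← Real.rpow_add hv0, Real.rpow_neg hu0.le, Real.rpow_one,
          show -K + -(1 - K) = -(1 : ℝ) by ring, Real.rpow_neg hv0.le, Real.rpow_one]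
        field_simp
      have e2 : u ^ (-(1 : ℝ)) * v ^ (-(1 - K)) ≤ u ^ (-(2 - K)) := by
        calc u ^ (-(1 : ℝ)) * v ^ (-(1 - K)) ≤ u ^ (-(1 : ℝ)) * u ^ (-(1 - K)) := by
              exact mul_le_mul_of_nonneg_left
                (Real.rpow_le_rpow_of_nonpos hu0 huv (by linarith : -(1 - K) ≤ 0)) (by positivity)
          _ = _ := by rw [← Real.rpow_add hu0]; congr 1; ring
      have e3 : v ^ (-K) ≤ 2 * (u + v) ^ (-K) := by
        have h1 : (2 * v) ^ (-K) ≤ (u + v) ^ (-K) :=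
          Real.rpow_le_rpow_of_nonpos (by linarith : 0 < u + v) (by linarith : u + v ≤ 2 * v)
            (by linarith : -K ≤ 0)
        rw [Real.mul_rpow (by norm_num) hv0.le] at h1
        have h2 : (1 : ℝ) / 2 ≤ 2 ^ (-K) := by
          rw [Real.rpow_neg (by norm_num), ← one_div]
          apply one_div_le_one_div_of_le (by positivity)
          calc (2 : ℝ) ^ K ≤ 2 ^ (1 : ℝ) :=
                Real.rpow_le_rpow_of_exponent_le (by norm_num) hK1.le
            _ = 2 := Real.rpow_one _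
        have h3 : 0 < v ^ (-K) := Real.rpow_pos_of_pos hv0 _
        nlinarith
      rw [e1]
      exact mul_le_mul e3 e2 (by positivity) (by positivity)
    have hpa : 0 ≤ a ^ (-(2 - K)) := by positivity
    have hpb : 0 ≤ b ^ (-(2 - K)) := by positivity
    have hpp : 0 ≤ 2 * (a + b) ^ (-K) := by positivity
    rcases le_total a b with h | h
    · refine (key a b ha1 h).trans ?_
      nlinarith
    · have := key b a hb1 h
      rw [mul_comm b a, add_comm b a] at this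
      refine this.trans ?_
      nlinarith
  -- the sum
  have w3 : (a + b) ^ (-K) * (1 + ((a + b) / A) ^ K) ≤ (1 + |δ|) ^ (-K) + A ^ (-K) := by
    have e1 : (a + b) ^ (-K) * ((a + b) / A) ^ K = A ^ (-K) := by
      rw [Real.div_rpow hS.le hA0.le, Real.rpow_neg hS.le, Real.rpow_neg hA0.le]
      have : 0 < (a + b) ^ K := Real.rpow_pos_of_pos hS _
      field_simp
    rw [mul_add, mul_one, e1]
    have e2 : (a + b) ^ (-K) ≤ (1 + |δ|) ^ (-K) :=
      Real.rpow_le_rpow_of_nonpos (by positivity) hd (by linarith : -K ≤ 0)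
    linarith
  have e0 : xb m δ = 2 * (1 / (a * b)) := by unfold xb; rw [← ha, ← hb]; ring
  have hAb : 0 ≤ a ^ (-(2 - K)) + b ^ (-(2 - K)) := by positivity
  calc xb m δ * (1 + |τ| / A) ^ K
      ≤ (2 * (2 * (a + b) ^ (-K) * (a ^ (-(2 - K)) + b ^ (-(2 - K))))) *
        (4 * (1 + ((a + b) / A) ^ K) * (1 + z)) := by
        rw [e0]
        gcongr
    _ = 16 * ((a + b) ^ (-K) * (1 + ((a + b) / A) ^ K)) *
        (a ^ (-(2 - K)) + b ^ (-(2 - K))) * (1 + z) := by ring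
    _ ≤ 16 * ((1 + |δ|) ^ (-K) + A ^ (-K)) *
        (a ^ (-(2 - K)) + b ^ (-(2 - K))) * (1 + z) := by gcongr
    _ ≤ _ := by
        have : 0 ≤ ((1 + |δ|) ^ (-K) + A ^ (-K)) * (a ^ (-(2 - K)) + b ^ (-(2 - K))) * (1 + z) := by
          positivity
        nlinarith

end Pool.Agent.P8H15.CP
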