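import Mathlib
import Pool.Agent.P8H15.CP.C
set_option autoImplicit false
set_option linter.unusedSectionVars false

/-! Blocks of two variables: the bound for the integral in time. -/

namespace Pool.Agent.P8H15.CP

open MeasureTheory Set
open Pool.Agent.P8H66.QP (gg gg_int gg_le gg_meas lint_gauss mom)
open scoped ENNReal NNReal

/-- the parameters of the Hessian of a cubic polynomial in two variables -/
structure Blk where
  (m0 h1 h2 a11 a12 a21 a22 : ℝ)

namespace Blk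

variable (B : Blk)

/-- half of the trace -/
def mm (t : ℝ) (p : ℝ × ℝ) : ℝ := 2 * t + (B.m0 + ((B.a11 + B.a22) * p.1 + (B.a21 - B.a12) * p.2))

/-- half of the difference of the diagonal entries -/
def pp (p : ℝ × ℝ) : ℝ := B.a11 * p.1 + (B.a12 * p.2 + B.h1)

/-- the entry off the diagonal -/
def rr (p : ℝ × ℝ) : ℝ := B.a21 * p.1 + (B.a22 * p.2 + B.h2)

/-- half of the difference of the eigenvalues -/
noncomputable def dd (p : ℝ × ℝ) : ℝ := Real.sqrt (B.pp p ^ 2 + B.rr p ^ 2)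

/-- the size -/
noncomputable def Am : ℝ :=
  max |B.h1| (max |B.h2| (max |B.a11| (max |B.a12| (max |B.a21| |B.a22|))))

lemma Am_nonneg : 0 ≤ B.Am := le_max_of_le_left (abs_nonneg _)

lemma dd_nonneg (p : ℝ × ℝ) : 0 ≤ B.dd p := Real.sqrt_nonneg _

lemma dd_pp (p : ℝ × ℝ) : |B.pp p| ≤ |B.dd p| := by
  rw [abs_of_nonneg (B.dd_nonneg p)]
  unfold dd
  rw [← Real.sqrt_sq_eq_abs]
  exact Real.sqrt_le_sqrt (by nlinarith [sq_nonneg (B.rr p)])

lemma dd_rr (p : ℝ × ℝ) : |B.rr p| ≤ |B.dd p| := by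
  rw [abs_of_nonneg (B.dd_nonneg p)]
  unfold dd
  rw [← Real.sqrt_sq_eq_abs]
  exact Real.sqrt_le_sqrt (by nlinarith [sq_nonneg (B.pp p)])

/-- the fourth power of the `L^4` norm at a fixed time -/
noncomputable def FB (t : ℝ) : ℝ≥0∞ :=
  ∫⁻ p : ℝ × ℝ, (gg p.1 * gg p.2) * ENNReal.ofReal (xb (B.mm t p) (B.dd p))

lemma mm_meas : Measurable fun z : ℝ × (ℝ × ℝ) => B.mm z.1 z.2 := by unfold mm; fun_prop

lemma dd_meas : Measurable B.dd := by
  unfold dd pp rr
  exact Real.continuous_sqrt.measurable.comp (by fun_prop)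

lemma xb_meas : Measurable fun z : ℝ × (ℝ × ℝ) =>
    ENNReal.ofReal (xb (B.mm z.1 z.2) (B.dd z.2)) := by
  have h1 := B.mm_meas
  have h2 : Measurable fun z : ℝ × (ℝ × ℝ) => B.dd z.2 := B.dd_meas.comp measurable_snd
  unfold xb
  apply ENNReal.measurable_ofReal.comp
  apply Measurable.const_div
  have h3 : Measurable fun z : ℝ × (ℝ × ℝ) => |B.mm z.1 z.2 + B.dd z.2| := (h1.add h2).abs
  have h4 : Measurable fun z : ℝ × (ℝ × ℝ) => |B.mm z.1 z.2 - B.dd z.2| := (h1.sub h2).abs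
  exact (h3.const_add 1).mul (h4.const_add 1)

lemma g2_meas : Measurable fun z : ℝ × (ℝ × ℝ) => gg z.2.1 * gg z.2.2 := by
  have h1 : Measurable fun z : ℝ × (ℝ × ℝ) => gg z.2.1 := gg_meas.comp (by fun_prop)
  have h2 : Measurable fun z : ℝ × (ℝ × ℝ) => gg z.2.2 := gg_meas.comp (by fun_prop)
  exact h1.mul h2

lemma FB_meas : Measurable B.FB := by
  unfold FB
  exact ((g2_meas).mul B.xb_meas).lintegral_prod_right'

/-- the weight in time -/
noncomputable def wK (K t : ℝ) : ℝ≥0∞ := ENNReal.ofReal ((1 + |(2 * t + B.m0) / (1 + B.Am)|) ^ K)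

lemma le_Am : |B.h1| ≤ B.Am ∧ |B.h2| ≤ B.Am ∧ |B.a11| ≤ B.Am ∧ |B.a12| ≤ B.Am ∧
    |B.a21| ≤ B.Am ∧ |B.a22| ≤ B.Am := by
  unfold Am
  refine ⟨?_, ?_, ?_, ?_, ?_, ?_⟩ <;> simp only [le_max_iff, le_refl, true_or, or_true]

lemma Am_mem : B.Am = |B.h1| ∨ B.Am = |B.h2| ∨ B.Am = |B.a11| ∨ B.Am = |B.a12| ∨
    B.Am = |B.a21| ∨ B.Am = |B.a22| := by
  unfold Am
  rcases max_choice |B.h1| (max |B.h2| (max |B.a11| (max |B.a12| (max |B.a21| |B.a22|)))) with h | h
  · exact Or.inl h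
  rw [h]
  rcases max_choice |B.h2| (max |B.a11| (max |B.a12| (max |B.a21| |B.a22|))) with h | h
  · exact Or.inr (Or.inl h)
  rw [h]
  rcases max_choice |B.a11| (max |B.a12| (max |B.a21| |B.a22|)) with h | h
  · exact Or.inr (Or.inr (Or.inl h))
  rw [h]
  rcases max_choice |B.a12| (max |B.a21| |B.a22|) with h | h
  · exact Or.inr (Or.inr (Or.inr (Or.inl h)))
  rw [h]
  rcases max_choice |B.a21| |B.a22| with h | h
  · exact Or.inr (Or.inr (Or.inr (Or.inr (Or.inl h))))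
  · exact Or.inr (Or.inr (Or.inr (Or.inr (Or.inr h))))

lemma point (K t : ℝ) (hK0 : 0 < K) (hK1 : K < 1) (p : ℝ × ℝ) :
    ENNReal.ofReal (xb (B.mm t p) (B.dd p)) * B.wK K t ≤
      32 * ENNReal.ofReal (1 + (|p.1| + |p.2|)) * (jp K (B.dd p) + jp K B.Am) *
        (jp (2 - K) (B.mm t p + B.dd p) + jp (2 - K) (B.mm t p - B.dd p)) := by
  have hA := B.Am_nonneg
  have hA1 : (0 : ℝ) < 1 + B.Am := by linarith
  obtain ⟨-, -, b1, b2, b3, b4⟩ := B.le_Am
  have hτ : |2 * t + B.m0| ≤ |B.mm t p| + 4 * (1 + B.Am) * (|p.1| + |p.2|) := by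
    have e : 2 * t + B.m0 = B.mm t p - ((B.a11 + B.a22) * p.1 + (B.a21 - B.a12) * p.2) := by
      unfold mm; ring
    rw [e]
    refine (abs_sub _ _).trans ?_
    gcongr
    have c1 : |(B.a11 + B.a22) * p.1| ≤ (2 * (1 + B.Am)) * |p.1| := by
      rw [abs_mul]
      gcongr
      exact (abs_add_le _ _).trans (by linarith)
    have c2 : |(B.a21 - B.a12) * p.2| ≤ (2 * (1 + B.Am)) * |p.2| := by
      rw [abs_mul]
      gcongr
      exact (abs_sub _ _).trans (by linarith)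
    have c3 := abs_add_le ((B.a11 + B.a22) * p.1) ((B.a21 - B.a12) * p.2)
    have := abs_nonneg p.1
    have := abs_nonneg p.2
    nlinarith
  have h := pointwise hK0 hK1 (by linarith : (1 : ℝ) ≤ 1 + B.Am) (B.mm t p) (B.dd p)
    (2 * t + B.m0) (|p.1| + |p.2|) (B.dd_nonneg p) (by positivity) hτ
  unfold wK jp
  rw [← ENNReal.ofReal_mul (xb_nonneg _ _), ← ENNReal.ofReal_add (by positivity) (by positivity),
    ← ENNReal.ofReal_add (by positivity) (by positivity),
    show (32 : ℝ≥0∞) = ENNReal.ofReal 32 by norm_num,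
    ← ENNReal.ofReal_mul (by norm_num), ← ENNReal.ofReal_mul (by positivity),
    ← ENNReal.ofReal_mul (by positivity)]
  apply ENNReal.ofReal_le_ofReal
  rw [abs_div, abs_of_pos hA1]
  refine h.trans (le_of_eq ?_)
  rw [abs_of_nonneg hA]
  ring

lemma step1 {K : ℝ} (hK0 : 0 < K) (hK1 : K < 1) : ∃ C : ℝ≥0∞, C ≠ ∞ ∧ ∀ B : Blk,
    ∫⁻ t, B.FB t * B.wK K t ≤ C * jp K B.Am := by
  obtain ⟨Ct, hCt, hCt1⟩ := time_int (p := 2 - K) (by linarith)
  obtain ⟨C3, hC3, hC31⟩ := I2_three 1 hK0.le hK1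
  refine ⟨32 * (Ct + Ct) * (C3 + K2 1), ?_, ?_⟩
  · exact ENNReal.mul_ne_top (ENNReal.mul_ne_top (by norm_num) (ENNReal.add_ne_top.2 ⟨hCt, hCt⟩))
      (ENNReal.add_ne_top.2 ⟨hC3, K2_ne 1⟩)
  intro B
  -- the integral over the block variables
  have hI : ∫⁻ p : ℝ × ℝ, (gk 1 p.1 * gk 1 p.2) * jp K (B.dd p) ≤ C3 * jp K B.Am := by
    have e1 : ∫⁻ p : ℝ × ℝ, (gk 1 p.1 * gk 1 p.2) * jp K (B.dd p) ≤ I2 1 K B.a11 B.a12 B.h1 := by
      refine lintegral_mono fun p => ?_
      unfold i2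
      gcongr
      exact jp_anti hK0.le (B.dd_pp p)
    have e2 : ∫⁻ p : ℝ × ℝ, (gk 1 p.1 * gk 1 p.2) * jp K (B.dd p) ≤ I2 1 K B.a21 B.a22 B.h2 := by
      refine lintegral_mono fun p => ?_
      unfold i2
      gcongr
      exact jp_anti hK0.le (B.dd_rr p)
    have e3 : ∀ y : ℝ, jp K |y| = jp K y := by
      intro y; unfold jp; rw [abs_abs]
    rcases B.Am_mem with h | h | h | h | h | h
    · rw [h, e3]; exact e1.trans (hC31 _ _ _).2.2
    · rw [h, e3]; exact e2.trans (hC31 _ _ _).2.2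
    · rw [h, e3]; exact e1.trans (hC31 _ _ _).1
    · rw [h, e3]; exact e1.trans (hC31 _ _ _).2.1
    · rw [h, e3]; exact e2.trans (hC31 _ _ _).1
    · rw [h, e3]; exact e2.trans (hC31 _ _ _).2.1
  have wm : Measurable fun t : ℝ => B.wK K t := by unfold wK; fun_prop
  have h1 : ∀ t, B.FB t * B.wK K t = ∫⁻ p : ℝ × ℝ, (gg p.1 * gg p.2) *
      (ENNReal.ofReal (xb (B.mm t p) (B.dd p)) * B.wK K t) := by
    intro t
    unfold FB
    rw [← lintegral_mul_const' _ _ (by unfold wK; exact ENNReal.ofReal_ne_top)]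
    apply lintegral_congr
    intro p
    ring
  simp only [h1]
  have hs : ∫⁻ t : ℝ, ∫⁻ p : ℝ × ℝ, (gg p.1 * gg p.2) *
      (ENNReal.ofReal (xb (B.mm t p) (B.dd p)) * B.wK K t) =
      ∫⁻ p : ℝ × ℝ, ∫⁻ t : ℝ, (gg p.1 * gg p.2) *
      (ENNReal.ofReal (xb (B.mm t p) (B.dd p)) * B.wK K t) := by
    apply lintegral_lintegral_swap
    apply Measurable.aemeasurable
    exact (g2_meas).mul (B.xb_meas.mul (wm.comp measurable_fst))
  rw [hs]
  have h2 : ∀ p : ℝ × ℝ, ∫⁻ t : ℝ, (gg p.1 * gg p.2) *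
      (ENNReal.ofReal (xb (B.mm t p) (B.dd p)) * B.wK K t) ≤
      32 * (Ct + Ct) * ((gk 1 p.1 * gk 1 p.2) * jp K (B.dd p) + (gk 1 p.1 * gk 1 p.2) * jp K B.Am) := by
    intro p
    have m1 : ∀ c : ℝ, Measurable fun t : ℝ => jp (2 - K) (B.mm t p + c) := by
      intro c
      apply (jp_meas _).comp
      unfold mm
      fun_prop
    have m2 : Measurable fun t : ℝ => jp (2 - K) (B.mm t p - B.dd p) := by
      simpa only [sub_eq_add_neg] using m1 (-B.dd p)
    calc ∫⁻ t : ℝ, (gg p.1 * gg p.2) * (ENNReal.ofReal (xb (B.mm t p) (B.dd p)) * B.wK K t)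
        ≤ ∫⁻ t : ℝ, ((gg p.1 * gg p.2) * (32 * ENNReal.ofReal (1 + (|p.1| + |p.2|)) *
          (jp K (B.dd p) + jp K B.Am))) *
        (jp (2 - K) (B.mm t p + B.dd p) + jp (2 - K) (B.mm t p - B.dd p)) := by
          refine lintegral_mono fun t => ?_
          calc _ ≤ (gg p.1 * gg p.2) * (32 * ENNReal.ofReal (1 + (|p.1| + |p.2|)) *
              (jp K (B.dd p) + jp K B.Am) *
              (jp (2 - K) (B.mm t p + B.dd p) + jp (2 - K) (B.mm t p - B.dd p))) := by
                exact mul_le_mul' le_rfl (B.point K t hK0 hK1 p)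
            _ = _ := by ring
      _ = ((gg p.1 * gg p.2) * (32 * ENNReal.ofReal (1 + (|p.1| + |p.2|)) *
          (jp K (B.dd p) + jp K B.Am))) * ((∫⁻ t : ℝ, jp (2 - K) (B.mm t p + B.dd p)) +
            ∫⁻ t : ℝ, jp (2 - K) (B.mm t p - B.dd p)) := by
          have m3 : Measurable fun t : ℝ => jp (2 - K) (B.mm t p + B.dd p) +
              jp (2 - K) (B.mm t p - B.dd p) := (m1 _).add m2
          rw [lintegral_const_mul _ m3, lintegral_add_left (m1 _)]
      _ ≤ ((gg p.1 * gg p.2) * (32 * ENNReal.ofReal (1 + (|p.1| + |p.2|)) *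
          (jp K (B.dd p) + jp K B.Am))) * (Ct + Ct) := by
          gcongr
          · refine le_trans (le_of_eq ?_) (hCt1 (B.m0 + ((B.a11 + B.a22) * p.1 +
              (B.a21 - B.a12) * p.2) + B.dd p))
            apply lintegral_congr
            intro t
            unfold mm
            congr 1
            ring
          · refine le_trans (le_of_eq ?_) (hCt1 (B.m0 + ((B.a11 + B.a22) * p.1 +
              (B.a21 - B.a12) * p.2) - B.dd p))
            apply lintegral_congr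
            intro t
            unfold mm
            congr 1
            ring
      _ ≤ ((gk 1 p.1 * gk 1 p.2) * (32 * (jp K (B.dd p) + jp K B.Am))) * (Ct + Ct) := by
          have e : (gg p.1 * gg p.2) * ENNReal.ofReal (1 + (|p.1| + |p.2|)) ≤
              gk 1 p.1 * gk 1 p.2 := by
            unfold gk
            rw [pow_one, pow_one]
            calc _ ≤ (gg p.1 * gg p.2) * (ENNReal.ofReal (1 + |p.1|) * ENNReal.ofReal (1 + |p.2|)) := by
                  gcongr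
                  rw [← ENNReal.ofReal_mul (by positivity)]
                  apply ENNReal.ofReal_le_ofReal
                  nlinarith [abs_nonneg p.1, abs_nonneg p.2, mul_nonneg (abs_nonneg p.1) (abs_nonneg p.2)]
              _ = _ := by ring
          calc _ = (((gg p.1 * gg p.2) * ENNReal.ofReal (1 + (|p.1| + |p.2|))) *
              (32 * (jp K (B.dd p) + jp K B.Am))) * (Ct + Ct) := by ring
            _ ≤ _ := by gcongr
      _ = _ := by ring
  have mg : Measurable fun p : ℝ × ℝ => gk 1 p.1 * gk 1 p.2 := by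
    have h1 : Measurable fun p : ℝ × ℝ => gk 1 p.1 := (gk_meas 1).comp measurable_fst
    have h2 : Measurable fun p : ℝ × ℝ => gk 1 p.2 := (gk_meas 1).comp measurable_snd
    exact h1.mul h2
  calc _ ≤ ∫⁻ p : ℝ × ℝ, 32 * (Ct + Ct) * ((gk 1 p.1 * gk 1 p.2) * jp K (B.dd p) +
        (gk 1 p.1 * gk 1 p.2) * jp K B.Am) := lintegral_mono h2
    _ = 32 * (Ct + Ct) * ((∫⁻ p : ℝ × ℝ, (gk 1 p.1 * gk 1 p.2) * jp K (B.dd p)) +
        K2 1 * jp K B.Am) := by
        have n1 : Measurable fun p : ℝ × ℝ => (gk 1 p.1 * gk 1 p.2) * jp K (B.dd p) :=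
          mg.mul ((jp_meas K).comp B.dd_meas)
        have n2 : Measurable fun p : ℝ × ℝ => (gk 1 p.1 * gk 1 p.2) * jp K (B.dd p) +
          (gk 1 p.1 * gk 1 p.2) * jp K B.Am := n1.add (mg.mul_const _)
        rw [lintegral_const_mul _ n2, lintegral_add_left n1, lintegral_mul_const _ mg]
        rfl
    _ ≤ 32 * (Ct + Ct) * (C3 * jp K B.Am + K2 1 * jp K B.Am) := by gcongr
    _ = _ := by ring

/-- scaling -/
lemma scale {A : ℝ} (hA : 0 < A) (f : ℝ → ℝ≥0∞) (hf : Measurable f) :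
    ∫⁻ t, f (t / A) = ENNReal.ofReal A * ∫⁻ t, f t := by
  have h := Real.smul_map_volume_mul_left (a := 1 / A) (by positivity)
  have h1 : ∫⁻ t, f t = ENNReal.ofReal (1 / A) * ∫⁻ t, f (t / A) := by
    conv_lhs => rw [← h]
    rw [lintegral_smul_measure, lintegral_map hf (by fun_prop), abs_of_pos (by positivity),
      smul_eq_mul]
    congr 1
    apply lintegral_congr
    intro t
    congr 1
    ring
  rw [h1, ← mul_assoc, ← ENNReal.ofReal_mul hA.le]
  have : A * (1 / A) = 1 := by field_simp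
  rw [this, ENNReal.ofReal_one, one_mul]

/-- The bound for blocks. -/
theorem main {a : ℝ} (ha : 1 / 2 < a) (ha1 : a < 1) : ∃ C : ℝ≥0∞, C ≠ ∞ ∧ ∀ B : Blk,
    ∫⁻ t, B.FB t ^ a ≤ C := by
  set K : ℝ := 1 / (2 * a) with hK
  have ha0 : 0 < a := by linarith
  have hK0 : 0 < K := by positivity
  have hK1 : K < 1 := by
    rw [hK, div_lt_one (by positivity)]
    linarith
  have hKa : K * a = 1 / 2 := by rw [hK]; field_simp
  have h1a : 0 < 1 - a := by linarith
  set p : ℝ := 1 / (2 * (1 - a)) with hp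
  have hp1 : 1 < p := by
    rw [hp, lt_div_iff₀ (by positivity)]
    linarith
  have hpa : p * (1 - a) = 1 / 2 := by rw [hp]; field_simp
  obtain ⟨C1, hC1, H1⟩ := step1 hK0 hK1
  obtain ⟨Ct, hCt, hCt1⟩ := time_int hp1
  refine ⟨C1 ^ a * Ct ^ (1 - a), ENNReal.mul_ne_top (ENNReal.rpow_ne_top_of_nonneg ha0.le hC1)
    (ENNReal.rpow_ne_top_of_nonneg h1a.le hCt), ?_⟩
  intro B
  have hA := B.Am_nonneg
  have hA1 : (0 : ℝ) < 1 + B.Am := by linarith
  set g : ℝ → ℝ≥0∞ := fun t => jp p ((2 * t + B.m0) / (1 + B.Am)) with hg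
  have gm : Measurable g := (jp_meas p).comp (by fun_prop)
  have wm : Measurable fun t : ℝ => B.wK K t := by unfold wK; fun_prop
  have e1 : ∀ t, B.FB t ^ a = (B.FB t * B.wK K t) ^ a * g t ^ (1 - a) := by
    intro t
    have e2 : B.wK K t ^ a * g t ^ (1 - a) = 1 := by
      rw [hg]
      simp only
      unfold wK jp
      rw [ENNReal.ofReal_rpow_of_nonneg (by positivity) ha0.le,
        ENNReal.ofReal_rpow_of_nonneg (by positivity) h1a.le, ← ENNReal.ofReal_mul (by positivity),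
        ← Real.rpow_mul (by positivity), ← Real.rpow_mul (by positivity),
        ← Real.rpow_add (by positivity), hKa,
        show -p * (1 - a) = -(1 / 2) by rw [neg_mul, hpa]]
      simp
    rw [ENNReal.mul_rpow_of_nonneg _ _ ha0.le, mul_assoc, e2, mul_one]
  simp only [e1]
  have hg1 : ∫⁻ t, g t ≤ ENNReal.ofReal (1 + B.Am) * Ct := by
    have e2 : ∀ t, g t = (fun u : ℝ => jp p (2 * u + B.m0 / (1 + B.Am))) (t / (1 + B.Am)) := by
      intro t
      rw [hg]
      simp only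
      congr 1
      ring
    simp only [e2]
    rw [scale hA1 (fun u : ℝ => jp p (2 * u + B.m0 / (1 + B.Am))) ((jp_meas p).comp (by fun_prop))]
    gcongr
    exact hCt1 _
  calc ∫⁻ t, (B.FB t * B.wK K t) ^ a * g t ^ (1 - a)
      ≤ (∫⁻ t, B.FB t * B.wK K t) ^ a * (∫⁻ t, g t) ^ (1 - a) :=
        ENNReal.lintegral_mul_norm_pow_le (B.FB_meas.mul wm).aemeasurable gm.aemeasurable
          ha0.le h1a.le (by ring)
    _ ≤ (C1 * jp K B.Am) ^ a * (ENNReal.ofReal (1 + B.Am) * Ct) ^ (1 - a) := by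
        gcongr
        · exact H1 B
    _ = (C1 ^ a * Ct ^ (1 - a)) * (jp K B.Am ^ a * ENNReal.ofReal (1 + B.Am) ^ (1 - a)) := by
        rw [ENNReal.mul_rpow_of_nonneg _ _ ha0.le, ENNReal.mul_rpow_of_nonneg _ _ h1a.le]
        ring
    _ ≤ (C1 ^ a * Ct ^ (1 - a)) * 1 := by
        gcongr
        unfold jp
        rw [ENNReal.ofReal_rpow_of_nonneg (by positivity) ha0.le,
          ENNReal.ofReal_rpow_of_nonneg hA1.le h1a.le, ← ENNReal.ofReal_mul (by positivity),
          ← Real.rpow_mul (by positivity), abs_of_nonneg hA, ← Real.rpow_add hA1,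
          ← ENNReal.ofReal_one]
        apply ENNReal.ofReal_le_ofReal
        apply Real.rpow_le_one_of_one_le_of_nonpos (by linarith)
        rw [neg_mul, hKa]
        linarith
    _ = _ := mul_one _

end Blk

end Pool.Agent.P8H15.CP
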