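import Mathlib
set_option autoImplicit false
set_option linter.unusedSectionVars false

/-! Determinants `det (1 + iM)` for real symmetric `M`. -/

namespace Pool.Agent.P8H15.CP

open Matrix

variable {ι : Type*} [Fintype ι] [DecidableEq ι]

/-- the complex matrix `1 + i M` -/
noncomputable def cM (M : Matrix ι ι ℝ) : Matrix ι ι ℂ :=
  1 + Complex.I • M.map (fun x : ℝ => (x : ℂ))

/-- the determinant of `1 + i M` -/
noncomputable def dC (M : Matrix ι ι ℝ) : ℂ := (cM M).det

lemma dC_norm {M : Matrix ι ι ℝ} (hM : M.IsHermitian) (s : ℝ) :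
    ‖dC (M + s • (1 : Matrix ι ι ℝ))‖ = ∏ j, Real.sqrt (1 + (hM.eigenvalues j + s) ^ 2) := by
  set z : ℂ := Complex.I - (s : ℂ) with hz
  have h1 : cM (M + s • (1 : Matrix ι ι ℝ)) =
      (-Complex.I) • (Matrix.scalar ι z - M.map (Complex.ofRealHom : ℝ →+* ℂ)) := by
    ext i j
    simp only [cM, Matrix.add_apply, Matrix.smul_apply, Matrix.map_apply, Matrix.sub_apply,
      smul_eq_mul, Complex.ofRealHom_eq_coe, Matrix.scalar_apply, Matrix.diagonal_apply,
      Matrix.one_apply, hz]
    by_cases hij : i = j
    · simp only [hij, if_true]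
      push_cast
      linear_combination Complex.I_sq
    · simp only [hij, if_false]
      push_cast
      ring
  have h2 : (Matrix.scalar ι z - M.map (Complex.ofRealHom : ℝ →+* ℂ)).det =
      ∏ j, (z - (hM.eigenvalues j : ℂ)) := by
    rw [← Matrix.eval_charpoly, Matrix.charpoly_map, hM.charpoly_eq, Polynomial.map_prod,
      Polynomial.eval_prod]
    apply Finset.prod_congr rfl
    intro j _
    simp
  unfold dC
  rw [h1, Matrix.det_smul, h2, norm_mul, norm_pow, norm_neg, Complex.norm_I, one_pow, one_mul,
    norm_prod]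
  apply Finset.prod_congr rfl
  intro j _
  rw [hz, Complex.norm_def, Complex.normSq_apply]
  congr 1
  simp
  ring

lemma dC_norm' {M : Matrix ι ι ℝ} (hM : M.IsHermitian) :
    ‖dC M‖ = ∏ j, Real.sqrt (1 + (hM.eigenvalues j) ^ 2) := by
  have := dC_norm hM 0
  simpa using this

lemma one_le_sqrt (x : ℝ) : 1 ≤ Real.sqrt (1 + x ^ 2) := by
  rw [Real.one_le_sqrt]
  nlinarith [sq_nonneg x]

lemma one_le_prod' {κ : Type*} (s : Finset κ) (f : κ → ℝ) (h : ∀ i, 1 ≤ f i) : 1 ≤ ∏ i ∈ s, f i := by
  classical
  induction s using Finset.induction_on with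
  | empty => simp
  | insert a s ha ih =>
    rw [Finset.prod_insert ha]
    nlinarith [h a]

lemma dC_ge_one {M : Matrix ι ι ℝ} (hM : M.IsHermitian) : 1 ≤ ‖dC M‖ := by
  rw [dC_norm' hM]
  exact one_le_prod' _ _ fun j => one_le_sqrt _

lemma dC_ne {M : Matrix ι ι ℝ} (hM : M.IsHermitian) : dC M ≠ 0 := by
  intro h
  have := dC_ge_one hM
  rw [h, norm_zero] at this
  linarith

lemma trace_bd {M : Matrix ι ι ℝ} (hM : M.IsHermitian) [Nonempty ι] :
    1 + |M.trace| ≤ 2 * Fintype.card ι * ‖dC M‖ := by
  obtain ⟨j0, -, hj0⟩ := Finset.exists_max_image Finset.univ (fun j => |hM.eigenvalues j|)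
    Finset.univ_nonempty
  have h1 : |M.trace| ≤ Fintype.card ι * |hM.eigenvalues j0| := by
    rw [hM.trace_eq_sum_eigenvalues]
    refine (Finset.abs_sum_le_sum_abs _ _).trans ?_
    refine (Finset.sum_le_card_nsmul _ _ |hM.eigenvalues j0| fun j hj => ?_).trans ?_
    · simpa using hj0 j hj
    · simp
  have h2 : |hM.eigenvalues j0| ≤ ‖dC M‖ := by
    rw [dC_norm' hM, ← Finset.mul_prod_erase Finset.univ _ (Finset.mem_univ j0)]
    have h3 : |hM.eigenvalues j0| ≤ Real.sqrt (1 + hM.eigenvalues j0 ^ 2) := by
      rw [← Real.sqrt_sq_eq_abs]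
      exact Real.sqrt_le_sqrt (by linarith)
    have h4 : 1 ≤ ∏ x ∈ Finset.univ.erase j0, Real.sqrt (1 + hM.eigenvalues x ^ 2) :=
      one_le_prod' _ _ fun j => one_le_sqrt _
    nlinarith [one_le_sqrt (hM.eigenvalues j0)]
  have h5 := dC_ge_one hM
  have h6 : (1 : ℝ) ≤ Fintype.card ι := by exact_mod_cast Fintype.card_pos
  nlinarith

/-- rank one updates -/
lemma rank_one {M : Matrix ι ι ℝ} (hM : M.IsHermitian) (j : ι) :
    ∃ g : ℂ, Complex.normSq g ≤ g.re ∧ ∀ s : ℝ,
      dC (M + s • Matrix.single j j (1 : ℝ)) = dC M * (1 + Complex.I * s * g) := by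
  have hdet : IsUnit (cM M).det := isUnit_iff_ne_zero.2 (dC_ne hM)
  refine ⟨((cM M)⁻¹) j j, ?_, ?_⟩
  · -- the vector `y = A⁻¹ e_j`
    set y : ι → ℂ := fun k => ((cM M)⁻¹) k j with hy
    have hAy : ∀ k, ∑ l, cM M k l * y l = if k = j then 1 else 0 := by
      intro k
      have h1 := congrFun (congrFun (Matrix.mul_nonsing_inv (cM M) hdet) k) j
      rw [Matrix.mul_apply, Matrix.one_apply] at h1
      exact h1
    have hAy2 : ∀ k, y k + Complex.I * ∑ l, (M k l : ℂ) * y l = if k = j then 1 else 0 := by
      intro k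
      rw [← hAy k]
      have : ∀ l, cM M k l * y l = (if k = l then y l else 0) + Complex.I * ((M k l : ℂ) * y l) := by
        intro l
        simp only [cM, Matrix.add_apply, Matrix.smul_apply, Matrix.map_apply, Matrix.one_apply,
          smul_eq_mul]
        by_cases hkl : k = l
        · simp only [hkl, if_true]; ring
        · simp only [hkl, if_false]; ring
      simp only [this, Finset.sum_add_distrib, Finset.sum_ite_eq, Finset.mem_univ, if_true,
        Finset.mul_sum]
    -- multiply by `conj y`
    set S : ℂ := ∑ k, ∑ l, (M k l : ℂ) * ((starRingEnd ℂ) (y k) * y l) with hS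
    have hSc : (starRingEnd ℂ) S = S := by
      rw [hS, map_sum]
      simp only [map_sum, map_mul, Complex.conj_ofReal, Complex.conj_conj]
      rw [Finset.sum_comm]
      apply Finset.sum_congr rfl
      intro k _
      apply Finset.sum_congr rfl
      intro l _
      have : M l k = M k l := by
        have := hM.apply k l
        simpa using this
      rw [this]
      ring
    have hSi : S.im = 0 := Complex.conj_eq_iff_im.1 hSc
    have h3 : ∑ k, (starRingEnd ℂ) (y k) * y k + Complex.I * S = (starRingEnd ℂ) (y j) := by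
      have h4 : ∑ k, (starRingEnd ℂ) (y k) * (y k + Complex.I * ∑ l, (M k l : ℂ) * y l) =
          (starRingEnd ℂ) (y j) := by
        simp only [hAy2]
        simp
      rw [← h4, hS]
      simp only [mul_add, Finset.sum_add_distrib, Finset.mul_sum]
      congr 1
      apply Finset.sum_congr rfl
      intro k _
      apply Finset.sum_congr rfl
      intro l _
      ring
    have h5 := congrArg Complex.re h3
    have h6 : (∑ k, (starRingEnd ℂ) (y k) * y k).re = ∑ k, Complex.normSq (y k) := by
      rw [Complex.re_sum]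
      apply Finset.sum_congr rfl
      intro k _
      rw [mul_comm, Complex.mul_conj]
      simp
    rw [Complex.add_re, h6, Complex.mul_re, hSi, Complex.conj_re] at h5
    simp only [Complex.I_re, zero_mul, mul_zero, sub_self, add_zero] at h5
    change Complex.normSq (y j) ≤ (y j).re
    rw [← h5]
    exact Finset.single_le_sum (f := fun k => Complex.normSq (y k))
      (fun k _ => Complex.normSq_nonneg _) (Finset.mem_univ j)
  · intro s
    have e1 : cM (M + s • Matrix.single j j (1 : ℝ)) = cM M +
        Matrix.replicateCol Unit (Pi.single j (Complex.I * s)) *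
          Matrix.replicateRow Unit (Pi.single j (1 : ℂ)) := by
      ext k l
      simp only [cM, Matrix.add_apply, Matrix.smul_apply, Matrix.map_apply, smul_eq_mul,
        Matrix.mul_apply, Matrix.replicateCol_apply, Matrix.replicateRow_apply,
        Finset.univ_unique, Finset.sum_singleton, Matrix.single_apply, Pi.single_apply]
      by_cases hk : k = j
      · by_cases hl : l = j
        · simp [hk, hl]; ring
        · have : ¬ (j = k ∧ j = l) := fun h => hl h.2.symm
          simp [hl, this]
      · have : ¬ (j = k ∧ j = l) := fun h => hk h.1.symm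
        simp [hk, this]
    unfold dC
    rw [e1, Matrix.det_add_replicateCol_mul_replicateRow hdet]
    congr 1
    rw [Matrix.det_unique, Matrix.add_apply, Matrix.one_apply_eq]
    congr 1
    rw [Matrix.mul_apply]
    simp only [Matrix.mul_apply, Matrix.replicateCol_apply, Matrix.replicateRow_apply,
      Pi.single_apply]
    simp
    ring

end Pool.Agent.P8H15.CP
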