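import Mathlib
import Pool.Agent.P8H15.CP.E
import Pool.Agent.P8H15.CP.B
import Pool.Agent.P8H66.QP.G
set_option autoImplicit false
set_option linter.unusedSectionVars false

/-! Gaussian integrals with symmetric matrices; integration in the coordinates one at a time. -/

namespace Pool.Agent.P8H15.CP

open MeasureTheory Set
open Pool.Agent.P8H66.QP (gg gg_int gg_le gg_meas lint_gauss mom lint_cons)
open Pool.Agent.TH277.HT (lint_pi)
open scoped ENNReal NNReal RealInnerProductSpace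

/-- Gaussian integrals with symmetric matrices -/
lemma gaussM {r : ℕ} {M : Matrix (Fin r) (Fin r) ℝ} (hM : M.IsHermitian) :
    ∫⁻ v : Fin r → ℝ, ENNReal.ofReal (Real.exp (-(Real.pi *
      (∑ j, v j ^ 2 + ∑ j, (M.mulVec v j) ^ 2)))) = ENNReal.ofReal (‖dC M‖⁻¹) := by
  set f : (Fin r → ℝ) → ℝ≥0∞ := fun v => ENNReal.ofReal (Real.exp (-(Real.pi *
      (∑ j, v j ^ 2 + ∑ j, (M.mulVec v j) ^ 2)))) with hf
  set e := hM.eigenvectorBasis with he
  set lam := hM.eigenvalues with hlam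
  have h1 : ∫⁻ v : Fin r → ℝ, f v = ∫⁻ x : EuclideanSpace ℝ (Fin r), f (WithLp.ofLp x) :=
    ((PiLp.volume_preserving_ofLp (Fin r)).lintegral_comp_emb
      (MeasurableEquiv.toLp 2 (Fin r → ℝ)).symm.measurableEmbedding f).symm
  have h2 : ∫⁻ x : EuclideanSpace ℝ (Fin r), f (WithLp.ofLp x) =
      ∫⁻ y : EuclideanSpace ℝ (Fin r), f (WithLp.ofLp (e.repr.symm y)) :=
    (e.repr.symm.measurePreserving.lintegral_comp_emb
      e.repr.symm.toHomeomorph.measurableEmbedding (fun x => f (WithLp.ofLp x))).symm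
  have h3 : ∫⁻ y : EuclideanSpace ℝ (Fin r), f (WithLp.ofLp (e.repr.symm y)) =
      ∫⁻ y : Fin r → ℝ, f (WithLp.ofLp (e.repr.symm (WithLp.toLp 2 y))) :=
    ((PiLp.volume_preserving_toLp (Fin r)).lintegral_comp_emb
      (MeasurableEquiv.toLp 2 (Fin r → ℝ)).measurableEmbedding
      (fun y => f (WithLp.ofLp (e.repr.symm y)))).symm
  have sq : ∀ x : EuclideanSpace ℝ (Fin r), ∑ j, (WithLp.ofLp x j) ^ 2 = ‖x‖ ^ 2 := by
    intro x
    rw [EuclideanSpace.real_norm_sq_eq]
  have h4 : ∀ y : Fin r → ℝ, f (WithLp.ofLp (e.repr.symm (WithLp.toLp 2 y))) =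
      ∏ j, ENNReal.ofReal (Real.exp (-((Real.pi * (1 + lam j ^ 2)) * y j ^ 2))) := by
    intro y
    have e1 : ∑ j, (WithLp.ofLp (e.repr.symm (WithLp.toLp 2 y)) j) ^ 2 = ∑ j, y j ^ 2 := by
      rw [sq, LinearIsometryEquiv.norm_map, ← sq]
    have e2 : M.mulVec (WithLp.ofLp (e.repr.symm (WithLp.toLp 2 y))) =
        WithLp.ofLp (e.repr.symm (WithLp.toLp 2 fun j => lam j * y j)) := by
      rw [← e.sum_repr_symm, ← e.sum_repr_symm]
      simp only [WithLp.ofLp_sum, WithLp.ofLp_smul, Matrix.mulVec_sum, Matrix.mulVec_smul]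
      apply Finset.sum_congr rfl
      intro j _
      rw [hM.mulVec_eigenvectorBasis, smul_smul, mul_comm]
    have e3 : ∑ j, (M.mulVec (WithLp.ofLp (e.repr.symm (WithLp.toLp 2 y))) j) ^ 2 =
        ∑ j, (lam j * y j) ^ 2 := by
      rw [e2, sq, LinearIsometryEquiv.norm_map, ← sq]
    rw [hf]
    simp only
    rw [e1, e3, ← ENNReal.ofReal_prod_of_nonneg (fun j _ => (Real.exp_pos _).le),
      ← Real.exp_sum, ← Finset.sum_add_distrib, Finset.mul_sum, ← Finset.sum_neg_distrib]
    congr 2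
    apply Finset.sum_congr rfl
    intro j _
    ring
  rw [h1, h2, h3]
  simp only [h4]
  rw [lint_pi (fun (j : Fin r) (u : ℝ) =>
    ENNReal.ofReal (Real.exp (-((Real.pi * (1 + lam j ^ 2)) * u ^ 2))))
    (fun j => by fun_prop)]
  have hpi := Real.pi_pos
  have h5 : ∀ j, ∫⁻ u : ℝ, ENNReal.ofReal (Real.exp (-((Real.pi * (1 + lam j ^ 2)) * u ^ 2))) =
      ENNReal.ofReal ((Real.sqrt (1 + lam j ^ 2))⁻¹) := by
    intro j
    rw [lint_gauss _ (by positivity), ← Real.sqrt_inv]
    congr 2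
    field_simp
  simp only [h5]
  rw [← ENNReal.ofReal_prod_of_nonneg (fun j _ => by positivity), dC_norm' hM, Finset.prod_inv_distrib]

/-- integration in one variable -/
lemma one_dim {ε : ℝ} (h0 : 0 < ε) (h1 : ε < 1) : ∃ C : ℝ≥0∞, C ≠ ∞ ∧ ∀ (N : ℝ) (g : ℂ),
    Complex.normSq g ≤ g.re →
    ∫⁻ x : ℝ, gg x * ENNReal.ofReal (‖1 + Complex.I * ((N * x : ℝ) : ℂ) * g‖⁻¹) ≤ C * ij ε N := by
  obtain ⟨A, hA, hA1, hA2⟩ := gk_bd 1
  obtain ⟨C, hC, hC1⟩ := L1 (w := gk 1) hA hA1 hA2 (s := 1 - ε) (by linarith) (by linarith)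
  refine ⟨1 + 2 * C, ENNReal.add_ne_top.2 ⟨ENNReal.one_ne_top, ENNReal.mul_ne_top (by norm_num) hC⟩,
    ?_⟩
  intro N g hg
  have hij : 1 ≤ ij ε N := by
    unfold ij
    rw [← ENNReal.ofReal_one]
    exact ENNReal.ofReal_le_ofReal (Real.one_le_rpow (by linarith [abs_nonneg N]) h0.le)
  by_cases hg0 : g = 0
  · subst hg0
    simp only [mul_zero, add_zero, norm_one, inv_one, ENNReal.ofReal_one, mul_one]
    rw [gg_int]
    calc (1 : ℝ≥0∞) = 1 * 1 := (mul_one _).symm
      _ ≤ (1 + 2 * C) * ij ε N := by gcongr; exact le_self_add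
  -- the inverse of `g`
  set w : ℂ := g⁻¹ with hw
  have hwre : 1 ≤ w.re := by
    rw [hw, Complex.inv_re, le_div_iff₀ (Complex.normSq_pos.2 hg0), one_mul]
    exact hg
  have hpt : ∀ x : ℝ, ‖1 + Complex.I * ((N * x : ℝ) : ℂ) * g‖⁻¹ ≤
      1 + 2 * |N| * (|x| * (1 + |N * x + w.im|) ^ (-(1 - ε))) := by
    intro x
    have e1 : 1 + Complex.I * ((N * x : ℝ) : ℂ) * g = g * (w + Complex.I * ((N * x : ℝ) : ℂ)) := by
      rw [hw, mul_add, mul_inv_cancel₀ hg0]
      ring
    have hgn : ‖g‖ = ‖w‖⁻¹ := by rw [hw, norm_inv, inv_inv]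
    have hw0 : 0 < ‖w‖ := norm_pos_iff.2 (inv_ne_zero hg0)
    set u : ℂ := w + Complex.I * ((N * x : ℝ) : ℂ) with hu
    have ure : u.re = w.re := by rw [hu]; simp
    have uim : u.im = N * x + w.im := by rw [hu]; simp; ring
    have hu1 : 1 ≤ ‖u‖ := by
      calc (1 : ℝ) ≤ u.re := by rw [ure]; exact hwre
        _ ≤ |u.re| := le_abs_self _
        _ ≤ _ := Complex.abs_re_le_norm u
    have hu2 : |N * x + w.im| ≤ ‖u‖ := by rw [← uim]; exact Complex.abs_im_le_norm u
    have hu0 : 0 < ‖u‖ := by linarith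
    have hwu : ‖w‖ ≤ ‖u‖ + |N| * |x| := by
      have : w = u - Complex.I * ((N * x : ℝ) : ℂ) := by rw [hu]; ring
      calc ‖w‖ = ‖u - Complex.I * ((N * x : ℝ) : ℂ)‖ := by rw [← this]
        _ ≤ ‖u‖ + ‖Complex.I * ((N * x : ℝ) : ℂ)‖ := norm_sub_le _ _
        _ = _ := by rw [norm_mul, Complex.norm_I, one_mul, Complex.norm_real, Real.norm_eq_abs, abs_mul]
    rw [e1, norm_mul, hgn, mul_inv, inv_inv]
    have hk : ‖u‖⁻¹ ≤ 2 * (1 + |N * x + w.im|) ^ (-(1 - ε)) := by
      have h3 : (1 + |N * x + w.im|) / 2 ≤ ‖u‖ := by linarith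
      have h4 : ‖u‖⁻¹ ≤ ((1 + |N * x + w.im|) / 2)⁻¹ := inv_anti₀ (by positivity) h3
      have h5 : ((1 + |N * x + w.im|) / 2)⁻¹ = 2 * (1 + |N * x + w.im|) ^ (-(1 : ℝ)) := by
        rw [Real.rpow_neg (by positivity), Real.rpow_one]
        field_simp
      rw [h5] at h4
      refine h4.trans ?_
      have : (1 + |N * x + w.im|) ^ (-(1 : ℝ)) ≤ (1 + |N * x + w.im|) ^ (-(1 - ε)) :=
        Real.rpow_le_rpow_of_exponent_le (by linarith [abs_nonneg (N * x + w.im)]) (by linarith)
      linarith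
    calc ‖w‖ * ‖u‖⁻¹ ≤ (‖u‖ + |N| * |x|) * ‖u‖⁻¹ := by gcongr
      _ = 1 + |N| * |x| * ‖u‖⁻¹ := by field_simp
      _ ≤ 1 + |N| * |x| * (2 * (1 + |N * x + w.im|) ^ (-(1 - ε))) := by gcongr
      _ = _ := by ring
  have m1 : Measurable fun x : ℝ => gk 1 x * jp (1 - ε) (N * x + w.im) :=
    (gk_meas 1).mul ((jp_meas _).comp (by fun_prop))
  calc ∫⁻ x : ℝ, gg x * ENNReal.ofReal (‖1 + Complex.I * ((N * x : ℝ) : ℂ) * g‖⁻¹)
      ≤ ∫⁻ x : ℝ, (gg x + ENNReal.ofReal (2 * |N|) * (gk 1 x * jp (1 - ε) (N * x + w.im))) := by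
        refine lintegral_mono fun x => ?_
        calc gg x * ENNReal.ofReal (‖1 + Complex.I * ((N * x : ℝ) : ℂ) * g‖⁻¹)
            ≤ gg x * ENNReal.ofReal (1 + 2 * |N| * (|x| * (1 + |N * x + w.im|) ^ (-(1 - ε)))) := by
              gcongr
              exact hpt x
          _ = gg x + ENNReal.ofReal (2 * |N|) * ((gg x * ENNReal.ofReal |x|) *
              jp (1 - ε) (N * x + w.im)) := by
              rw [ENNReal.ofReal_add (by norm_num) (by positivity), ENNReal.ofReal_one, mul_add,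
                mul_one, ENNReal.ofReal_mul (by positivity), ENNReal.ofReal_mul (abs_nonneg x)]
              unfold jp
              ring
          _ ≤ _ := by
              gcongr
              rw [← gk_succ 0 x, gk_zero]
              gcongr
              linarith
    _ = 1 + ENNReal.ofReal (2 * |N|) * ∫⁻ x : ℝ, gk 1 x * jp (1 - ε) (N * x + w.im) := by
        rw [lintegral_add_left gg_meas, gg_int, lintegral_const_mul _ m1]
    _ ≤ 1 + ENNReal.ofReal (2 * |N|) * (C * jp (1 - ε) N) := by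
        gcongr
        exact hC1 _ _
    _ = 1 + 2 * C * (ENNReal.ofReal |N| * jp (1 - ε) N) := by
        rw [ENNReal.ofReal_mul (by norm_num), ENNReal.ofReal_ofNat]
        ring
    _ ≤ 1 + 2 * C * ij ε N := by
        gcongr
        unfold jp ij
        rw [← ENNReal.ofReal_mul (abs_nonneg _)]
        apply ENNReal.ofReal_le_ofReal
        calc |N| * (1 + |N|) ^ (-(1 - ε)) ≤ (1 + |N|) ^ (1 : ℝ) * (1 + |N|) ^ (-(1 - ε)) := by
              rw [Real.rpow_one]
              gcongr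
              linarith
          _ = _ := by
              rw [← Real.rpow_add (by positivity)]
              congr 1
              ring
    _ ≤ 1 * ij ε N + 2 * C * ij ε N := by
        gcongr
        rw [one_mul]
        exact hij
    _ = _ := by ring

/-- integration in the coordinates, one at a time -/
lemma iter {r : ℕ} (K : ℝ≥0∞) (f : (Fin r → ℝ) → ℝ≥0∞) (hf : Measurable f)
    (h : ∀ (x : Fin r → ℝ) (j : Fin r), ∫⁻ y : ℝ, gg y * f (Function.update x j y) ≤
      K * f (Function.update x j 0)) :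
    ∫⁻ x : Fin r → ℝ, (∏ j, gg (x j)) * f x ≤ K ^ r * f 0 := by
  induction r with
  | zero =>
    have e0 : ∀ x : Fin 0 → ℝ, (∏ j, gg (x j)) * f x = f 0 := by
      intro x
      rw [Subsingleton.elim x 0]
      simp
    simp only [e0]
    rw [volume_pi]
    simp
  | succ r ih =>
    have hgp : Measurable fun x : Fin (r + 1) → ℝ => ∏ j, gg (x j) :=
      Finset.measurable_fun_prod _ fun j _ => gg_meas.comp (measurable_pi_apply j)
    have hm : Measurable fun x : Fin (r + 1) → ℝ => (∏ j, gg (x j)) * f x := hgp.mul hf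
    rw [lint_cons _ hm]
    have h1 : ∀ u : ℝ, ∫⁻ k : Fin r → ℝ, (∏ j, gg ((Fin.cons u k : Fin (r + 1) → ℝ) j)) *
        f (Fin.cons u k) ≤ gg u * (K ^ r * f (Fin.cons u 0)) := by
      intro u
      have m1 : Measurable fun k : Fin r → ℝ => f (Fin.cons u k) := by
        apply hf.comp
        rw [measurable_pi_iff]
        intro j
        refine Fin.cases ?_ (fun i => ?_) j
        · simp
        · simpa using measurable_pi_apply i
      have e1 : ∀ k : Fin r → ℝ, (∏ j, gg ((Fin.cons u k : Fin (r + 1) → ℝ) j)) *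
          f (Fin.cons u k) = gg u * ((∏ j, gg (k j)) * f (Fin.cons u k)) := by
        intro k
        rw [Fin.prod_univ_succ]
        simp only [Fin.cons_zero, Fin.cons_succ]
        ring
      simp only [e1]
      have hgp' : Measurable fun x : Fin r → ℝ => ∏ j, gg (x j) :=
        Finset.measurable_fun_prod _ fun j _ => gg_meas.comp (measurable_pi_apply j)
      have hm' : Measurable fun k : Fin r → ℝ => (∏ j, gg (k j)) * f (Fin.cons u k) :=
        hgp'.mul m1
      rw [lintegral_const_mul _ hm']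
      gcongr
      apply ih (fun k => f (Fin.cons u k)) m1
      intro x j
      have := h (Fin.cons u x) j.succ
      simpa only [Fin.cons_update] using this
    refine (lintegral_mono h1).trans ?_
    have e2 : ∀ u : ℝ, gg u * (K ^ r * f (Fin.cons u 0)) =
        K ^ r * (gg u * f (Function.update (0 : Fin (r + 1) → ℝ) 0 u)) := by
      intro u
      have : (Fin.cons u 0 : Fin (r + 1) → ℝ) = Function.update (0 : Fin (r + 1) → ℝ) 0 u := by
        funext j
        refine Fin.cases ?_ (fun i => ?_) j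
        · simp
        · simp [Fin.succ_ne_zero]
      rw [this]
      ring
    simp only [e2]
    have m2 : Measurable fun u : ℝ => gg u * f (Function.update (0 : Fin (r + 1) → ℝ) 0 u) :=
      gg_meas.mul (hf.comp (measurable_update (0 : Fin (r + 1) → ℝ)))
    rw [lintegral_const_mul _ m2]
    calc K ^ r * ∫⁻ u : ℝ, gg u * f (Function.update (0 : Fin (r + 1) → ℝ) 0 u)
        ≤ K ^ r * (K * f (Function.update (0 : Fin (r + 1) → ℝ) 0 0)) := by gcongr; exact h 0 0
      _ = _ := by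
        have : Function.update (0 : Fin (r + 1) → ℝ) 0 0 = 0 := by simp
        rw [this]
        ring

end Pool.Agent.P8H15.CP
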