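import Mathlib
import Pool.Agent.P8H15.CP.F
import Pool.Agent.P8H15.CP.C
set_option autoImplicit false
set_option linter.unusedSectionVars false

/-! Diagonal cubic forms with arbitrary quadratic forms: the bound for the integral in time. -/

namespace Pool.Agent.P8H15.CP

open MeasureTheory Set
open Pool.Agent.P8H66.QP (gg gg_int gg_le gg_meas lint_gauss mom lint_cons)
open Pool.Agent.TH277.HT (lint_pi)
open scoped ENNReal NNReal

lemma dC_cont {ι : Type*} [Fintype ι] [DecidableEq ι] : Continuous (dC : Matrix ι ι ℝ → ℂ) := by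
  unfold dC
  apply Continuous.matrix_det
  unfold cM
  have : Continuous fun M : Matrix ι ι ℝ => M.map (fun x : ℝ => (x : ℂ)) :=
    continuous_id.matrix_map Complex.continuous_ofReal
  fun_prop

attribute [local irreducible] dC

/-- the Hessian matrices -/
noncomputable def Hd {r : ℕ} (M : Matrix (Fin r) (Fin r) ℝ) (N : Fin r → ℝ) (t : ℝ)
    (x : Fin r → ℝ) : Matrix (Fin r) (Fin r) ℝ :=
  M + Matrix.diagonal (fun j => N j * x j) + (2 * t) • (1 : Matrix (Fin r) (Fin r) ℝ)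

lemma Hd_cont {r : ℕ} (M : Matrix (Fin r) (Fin r) ℝ) (N : Fin r → ℝ) :
    Continuous fun z : ℝ × (Fin r → ℝ) => Hd M N z.1 z.2 := by
  unfold Hd
  have h1 : Continuous fun z : ℝ × (Fin r → ℝ) =>
      (Matrix.diagonal (fun j => N j * z.2 j) : Matrix (Fin r) (Fin r) ℝ) :=
    Continuous.matrix_diagonal (by fun_prop)
  have h2 : Continuous fun z : ℝ × (Fin r → ℝ) =>
      ((2 * z.1) • (1 : Matrix (Fin r) (Fin r) ℝ)) := by fun_prop
  exact (continuous_const.add h1).add h2

lemma Hd_herm {r : ℕ} {M : Matrix (Fin r) (Fin r) ℝ} (hM : M.IsHermitian) (N : Fin r → ℝ) (t : ℝ)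
    (x : Fin r → ℝ) : (Hd M N t x).IsHermitian := by
  unfold Hd
  refine (hM.add ?_).add ?_
  · exact Matrix.isHermitian_diagonal _
  · have : ((2 * t) • (1 : Matrix (Fin r) (Fin r) ℝ)) =
        Matrix.diagonal (fun _ => 2 * t) := by
      rw [Matrix.smul_one_eq_diagonal]
    rw [this]
    exact Matrix.isHermitian_diagonal _

lemma Hd_zero {r : ℕ} (M : Matrix (Fin r) (Fin r) ℝ) (N : Fin r → ℝ) (t : ℝ) :
    Hd M N t 0 = M + (2 * t) • (1 : Matrix (Fin r) (Fin r) ℝ) := by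
  unfold Hd
  simp

lemma Hd_update {r : ℕ} (M : Matrix (Fin r) (Fin r) ℝ) (N : Fin r → ℝ) (t : ℝ)
    (x : Fin r → ℝ) (j : Fin r) (y : ℝ) : Hd M N t (Function.update x j y) =
      Hd M N t (Function.update x j 0) + (N j * y) • Matrix.single j j (1 : ℝ) := by
  unfold Hd
  ext k l
  simp only [Matrix.add_apply, Matrix.smul_apply, Matrix.diagonal_apply, Matrix.single_apply,
    smul_eq_mul]
  by_cases hkl : k = l
  · subst hkl
    by_cases hkj : k = j
    · subst hkj
      simp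
      ring
    · simp [Function.update_of_ne hkj, Ne.symm hkj]
  · have : ¬ (j = k ∧ j = l) := fun h => hkl (h.1.symm.trans h.2)
    simp [hkl, this]

/-- the integrand -/
noncomputable def fd {r : ℕ} (M : Matrix (Fin r) (Fin r) ℝ) (N : Fin r → ℝ) (t : ℝ)
    (x : Fin r → ℝ) : ℝ≥0∞ := ENNReal.ofReal (‖dC (Hd M N t x)‖⁻¹)

lemma fd_meas {r : ℕ} (M : Matrix (Fin r) (Fin r) ℝ) (N : Fin r → ℝ) :
    Measurable fun z : ℝ × (Fin r → ℝ) => fd M N z.1 z.2 := by
  unfold fd
  have h := (dC_cont.comp (Hd_cont M N)).norm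
  exact ENNReal.measurable_ofReal.comp (h.measurable.inv)

lemma fd_meas' {r : ℕ} (M : Matrix (Fin r) (Fin r) ℝ) (N : Fin r → ℝ) (t : ℝ) :
    Measurable (fd M N t) := by
  have h : Measurable fun x : Fin r → ℝ => ((t, x) : ℝ × (Fin r → ℝ)) := by fun_prop
  have h2 := (fd_meas M N).comp h
  exact h2

/-- the fourth power of the `L^4` norm at a fixed time -/
noncomputable def FD {r : ℕ} (M : Matrix (Fin r) (Fin r) ℝ) (N : Fin r → ℝ) (t : ℝ) : ℝ≥0∞ :=
  ∫⁻ x : Fin r → ℝ, (∏ j, gg (x j)) * fd M N t x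

lemma FD_meas {r : ℕ} (M : Matrix (Fin r) (Fin r) ℝ) (N : Fin r → ℝ) : Measurable (FD M N) := by
  unfold FD
  have h1 : Measurable fun z : ℝ × (Fin r → ℝ) => ∏ j, gg (z.2 j) :=
    Finset.measurable_fun_prod _ fun j _ => gg_meas.comp (by fun_prop)
  exact (h1.mul (fd_meas M N)).lintegral_prod_right'

lemma ij_mono {ε : ℝ} (h : 0 ≤ ε) {y y' : ℝ} (hy : |y| ≤ |y'|) : ij ε y ≤ ij ε y' := by
  unfold ij
  apply ENNReal.ofReal_le_ofReal
  exact Real.rpow_le_rpow (by positivity) (by linarith) h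

lemma FD_iter {r : ℕ} {ε : ℝ} (h0 : 0 < ε) (h1 : ε < 1) : ∃ C : ℝ≥0∞, C ≠ ∞ ∧
    ∀ (M : Matrix (Fin r) (Fin r) ℝ) (N : Fin r → ℝ) (Nm t : ℝ), M.IsHermitian →
      (∀ j, |N j| ≤ |Nm|) → FD M N t ≤ (C * ij ε Nm) ^ r *
        ENNReal.ofReal (‖dC (M + (2 * t) • (1 : Matrix (Fin r) (Fin r) ℝ))‖⁻¹) := by
  obtain ⟨C, hC, H⟩ := one_dim h0 h1
  refine ⟨C, hC, ?_⟩
  intro M N Nm t hM hN
  have := iter (C * ij ε Nm) (fd M N t) (fd_meas' M N t) ?_
  · unfold FD
    refine this.trans (le_of_eq ?_)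
    unfold fd
    rw [Hd_zero]
  intro x j
  obtain ⟨g, hg, hs⟩ := rank_one (Hd_herm hM N t (Function.update x j 0)) j
  have e1 : ∀ y : ℝ, fd M N t (Function.update x j y) =
      fd M N t (Function.update x j 0) *
        ENNReal.ofReal (‖1 + Complex.I * ((N j * y : ℝ) : ℂ) * g‖⁻¹) := by
    intro y
    unfold fd
    rw [Hd_update, hs, ← ENNReal.ofReal_mul (by positivity), norm_mul, mul_inv]
  have hm : Measurable fun y : ℝ => gg y *
      ENNReal.ofReal (‖1 + Complex.I * ((N j * y : ℝ) : ℂ) * g‖⁻¹) := by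
    apply gg_meas.mul
    apply ENNReal.measurable_ofReal.comp
    apply Measurable.inv
    fun_prop
  calc ∫⁻ y : ℝ, gg y * fd M N t (Function.update x j y) =
      ∫⁻ y : ℝ, fd M N t (Function.update x j 0) *
        (gg y * ENNReal.ofReal (‖1 + Complex.I * ((N j * y : ℝ) : ℂ) * g‖⁻¹)) := by
        apply lintegral_congr
        intro y
        rw [e1]
        ring
    _ = fd M N t (Function.update x j 0) * ∫⁻ y : ℝ,
        (gg y * ENNReal.ofReal (‖1 + Complex.I * ((N j * y : ℝ) : ℂ) * g‖⁻¹)) :=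
        lintegral_const_mul _ hm
    _ ≤ fd M N t (Function.update x j 0) * (C * ij ε (N j)) := by
        gcongr
        exact H (N j) g hg
    _ ≤ fd M N t (Function.update x j 0) * (C * ij ε Nm) := by
        gcongr
        exact ij_mono h0.le (hN j)
    _ = _ := mul_comm _ _

lemma FD_gain {m : ℕ} {s : ℝ} (h0 : 0 ≤ s) (h1 : s < 1) : ∃ C : ℝ≥0∞, C ≠ ∞ ∧
    ∀ (M : Matrix (Fin (m + 1)) (Fin (m + 1)) ℝ) (N : Fin (m + 1) → ℝ) (t : ℝ)
      (j0 : Fin (m + 1)), M.IsHermitian → FD M N t ≤ C * jp s (N j0) := by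
  obtain ⟨A, hA, hA1, hA2⟩ := gk_bd 0
  obtain ⟨C, hC, hC1⟩ := L1 (w := gk 0) hA hA1 hA2 h0 h1
  refine ⟨(2 * (m + 1)) * C, ENNReal.mul_ne_top (by finiteness) hC, ?_⟩
  intro M N t j0 hM
  have hf : ∀ x, fd M N t x ≤ (2 * (m + 1)) * jp s (Hd M N t x).trace := by
    intro x
    have h2 := trace_bd (Hd_herm hM N t x)
    have h3 := dC_ge_one (Hd_herm hM N t x)
    unfold fd jp
    have e : ((2 : ℝ≥0∞) * (m + 1)) = ENNReal.ofReal (2 * (m + 1)) := by
      rw [ENNReal.ofReal_mul (by norm_num), ENNReal.ofReal_add (by positivity) (by norm_num)]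
      simp
    rw [e, ← ENNReal.ofReal_mul (by positivity)]
    apply ENNReal.ofReal_le_ofReal
    have h4 : ‖dC (Hd M N t x)‖⁻¹ ≤ (2 * (m + 1)) * (1 + |(Hd M N t x).trace|) ^ (-(1 : ℝ)) := by
      rw [Real.rpow_neg (by positivity), Real.rpow_one, ← div_eq_mul_inv, inv_eq_one_div,
        div_le_div_iff₀ (by linarith) (by positivity), one_mul]
      simpa using h2
    refine h4.trans ?_
    gcongr
    linarith [abs_nonneg (Hd M N t x).trace]
  have tr : ∀ x : Fin (m + 1) → ℝ, (Hd M N t x).trace =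
      ∑ j, N j * x j + (M.trace + 2 * t * (m + 1)) := by
    intro x
    unfold Hd
    rw [Matrix.trace_add, Matrix.trace_add, Matrix.trace_diagonal, Matrix.trace_smul,
      Matrix.trace_one]
    simp
    ring
  set F : (Fin (m + 1) → ℝ) → ℝ≥0∞ := fun x => (∏ j, gg (x j)) * jp s (Hd M N t x).trace with hF
  have hFm : Measurable F := by
    have hgp : Measurable fun x : Fin (m + 1) → ℝ => ∏ j, gg (x j) :=
      Finset.measurable_fun_prod _ fun j _ => gg_meas.comp (measurable_pi_apply j)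
    apply hgp.mul
    apply (jp_meas s).comp
    simp only [tr]
    fun_prop
  have h2 : FD M N t ≤ (2 * (m + 1)) * ∫⁻ x, F x := by
    rw [← lintegral_const_mul' _ _ (by finiteness)]
    unfold FD
    refine lintegral_mono fun x => ?_
    calc _ ≤ (∏ j, gg (x j)) * ((2 * (m + 1)) * jp s (Hd M N t x).trace) := by
          gcongr
          exact hf x
      _ = _ := by rw [hF]; ring
  have h3 : ∫⁻ x, F x ≤ C * jp s (N j0) := by
    have e1 := (measurePreserving_piFinSuccAbove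
      (fun _ : Fin (m + 1) => (volume : Measure ℝ)) j0).symm
    rw [volume_pi, ← e1.lintegral_comp_emb (MeasurableEquiv.measurableEmbedding _)]
    have e2 : ∀ p : ℝ × (Fin m → ℝ), (MeasurableEquiv.piFinSuccAbove
        (fun _ : Fin (m + 1) => ℝ) j0).symm p = j0.insertNth p.1 p.2 := by
      intro p
      simp [MeasurableEquiv.piFinSuccAbove_symm_apply, Fin.insertNthEquiv]
    simp only [e2]
    have e3 : ∀ p : ℝ × (Fin m → ℝ), F (j0.insertNth p.1 p.2) =
        (∏ j, gg (p.2 j)) * (gk 0 p.1 * jp s (N j0 * p.1 + (∑ j, N (j0.succAbove j) * p.2 j +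
          (M.trace + 2 * t * (m + 1))))) := by
      intro p
      rw [hF]
      simp only
      rw [tr, Fin.prod_univ_succAbove _ j0, Fin.sum_univ_succAbove _ j0, gk_zero]
      simp only [Fin.insertNth_apply_same, Fin.insertNth_apply_succAbove]
      rw [add_assoc]
      ring
    simp only [e3]
    have hm1 : Measurable fun p : ℝ × (Fin m → ℝ) => (∏ j, gg (p.2 j)) *
        (gk 0 p.1 * jp s (N j0 * p.1 + (∑ j, N (j0.succAbove j) * p.2 j +
          (M.trace + 2 * t * (m + 1))))) := by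
      have a1 : Measurable fun p : ℝ × (Fin m → ℝ) => ∏ j, gg (p.2 j) :=
        Finset.measurable_fun_prod _ fun j _ => gg_meas.comp (by fun_prop)
      have a2 : Measurable fun p : ℝ × (Fin m → ℝ) => gk 0 p.1 :=
        (gk_meas 0).comp measurable_fst
      exact a1.mul (a2.mul ((jp_meas s).comp (by fun_prop)))
    rw [lintegral_prod_symm _ hm1.aemeasurable]
    calc _ ≤ ∫⁻ k : Fin m → ℝ, (∏ j, gg (k j)) * (C * jp s (N j0))
          ∂(Measure.pi fun _ => (volume : Measure ℝ)) := by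
          refine lintegral_mono fun k => ?_
          have a3 : Measurable fun x : ℝ => gk 0 x * jp s (N j0 * x +
              (∑ j, N (j0.succAbove j) * k j + (M.trace + 2 * t * (m + 1)))) :=
            (gk_meas 0).mul ((jp_meas s).comp (by fun_prop))
          simp only
          rw [lintegral_const_mul _ a3]
          gcongr
          exact hC1 _ _
      _ = (∫⁻ k : Fin m → ℝ, (∏ j, gg (k j))) * (C * jp s (N j0)) := by
          rw [← volume_pi]
          apply lintegral_mul_const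
          exact Finset.measurable_fun_prod _ fun j _ => gg_meas.comp (measurable_pi_apply j)
      _ = _ := by
          rw [lint_pi (fun (_ : Fin m) => gg) (fun _ => gg_meas)]
          simp [gg_int]
  calc FD M N t ≤ (2 * (m + 1)) * ∫⁻ x, F x := h2
    _ ≤ (2 * (m + 1)) * (C * jp s (N j0)) := by gcongr
    _ = _ := by ring

lemma jp_rpow {s a : ℝ} (ha : 0 ≤ a) (y : ℝ) : jp s y ^ a = jp (s * a) y := by
  unfold jp
  rw [ENNReal.ofReal_rpow_of_nonneg (by positivity) ha, ← Real.rpow_mul (by positivity), neg_mul]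

lemma time_det {r : ℕ} {a : ℝ} (ha : 1 < r * a) : ∃ C : ℝ≥0∞, C ≠ ∞ ∧
    ∀ (M : Matrix (Fin r) (Fin r) ℝ), M.IsHermitian →
      ∫⁻ t : ℝ, ENNReal.ofReal (‖dC (M + (2 * t) • (1 : Matrix (Fin r) (Fin r) ℝ))‖⁻¹) ^ a ≤ C := by
  have hr : 0 < r := by
    rcases Nat.eq_zero_or_pos r with h | h
    · subst h; simp at ha; linarith
    · exact h
  have hr' : (0 : ℝ) < r := by exact_mod_cast hr
  have ha0 : 0 < a := by
    by_contra hc
    rw [not_lt] at hc
    nlinarith
  obtain ⟨C, hC, H⟩ := time_int ha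
  refine ⟨(2 ^ r) ^ a * C, ENNReal.mul_ne_top
    (ENNReal.rpow_ne_top_of_nonneg ha0.le (by finiteness)) hC, ?_⟩
  intro M hM
  have h1 : ∀ t : ℝ, ENNReal.ofReal (‖dC (M + (2 * t) • (1 : Matrix (Fin r) (Fin r) ℝ))‖⁻¹) ^ a ≤
      (2 ^ r) ^ a * ∏ j, jp (r * a) (2 * t + hM.eigenvalues j) ^ (1 / (r : ℝ)) := by
    intro t
    have e1 : ENNReal.ofReal (‖dC (M + (2 * t) • (1 : Matrix (Fin r) (Fin r) ℝ))‖⁻¹) ≤
        2 ^ r * ∏ j, jp 1 (2 * t + hM.eigenvalues j) := by
      rw [dC_norm hM, ← Finset.prod_inv_distrib, ENNReal.ofReal_prod_of_nonneg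
        (fun j _ => by positivity)]
      have e2 : ∀ j, ENNReal.ofReal ((Real.sqrt (1 + (hM.eigenvalues j + 2 * t) ^ 2))⁻¹) ≤
          2 * jp 1 (2 * t + hM.eigenvalues j) := by
        intro j
        unfold jp
        rw [show (2 : ℝ≥0∞) = ENNReal.ofReal 2 by norm_num, ← ENNReal.ofReal_mul (by norm_num)]
        apply ENNReal.ofReal_le_ofReal
        rw [Real.rpow_neg (by positivity), Real.rpow_one, ← div_eq_mul_inv, inv_eq_one_div,
          div_le_div_iff₀ (by positivity) (by positivity), one_mul]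
        have h2 := sq_one (2 * t + hM.eigenvalues j)
        have h3 : (0 : ℝ) < 1 + (hM.eigenvalues j + 2 * t) ^ 2 := by positivity
        rw [← abs_of_nonneg (by positivity : (0 : ℝ) ≤ 1 + |2 * t + hM.eigenvalues j|),
          ← abs_of_nonneg (by positivity :
            (0 : ℝ) ≤ 2 * Real.sqrt (1 + (hM.eigenvalues j + 2 * t) ^ 2))]
        apply sq_le_sq.1
        rw [mul_pow, Real.sq_sqrt h3.le]
        nlinarith
      calc _ ≤ ∏ j, (2 * jp 1 (2 * t + hM.eigenvalues j)) :=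
            Finset.prod_le_prod' fun j _ => e2 j
        _ = _ := by
          rw [Finset.prod_mul_distrib]
          simp
    calc _ ≤ (2 ^ r * ∏ j, jp 1 (2 * t + hM.eigenvalues j)) ^ a :=
          ENNReal.rpow_le_rpow e1 ha0.le
      _ = _ := by
          rw [ENNReal.mul_rpow_of_nonneg _ _ ha0.le, ← ENNReal.prod_rpow_of_nonneg ha0.le]
          congr 1
          apply Finset.prod_congr rfl
          intro j _
          rw [jp_rpow ha0.le, jp_rpow (by positivity)]
          congr 1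
          field_simp
  have jm : ∀ j, Measurable fun t : ℝ => jp (r * a) (2 * t + hM.eigenvalues j) := fun j =>
    (jp_meas _).comp (by fun_prop)
  calc _ ≤ ∫⁻ t : ℝ, (2 ^ r) ^ a * ∏ j, jp (r * a) (2 * t + hM.eigenvalues j) ^ (1 / (r : ℝ)) :=
        lintegral_mono h1
    _ = (2 ^ r) ^ a * ∫⁻ t : ℝ, ∏ j, jp (r * a) (2 * t + hM.eigenvalues j) ^ (1 / (r : ℝ)) := by
        rw [lintegral_const_mul']
        exact ENNReal.rpow_ne_top_of_nonneg ha0.le (by finiteness)
    _ ≤ (2 ^ r) ^ a * ∏ j, (∫⁻ t : ℝ, jp (r * a) (2 * t + hM.eigenvalues j)) ^ (1 / (r : ℝ)) := by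
        gcongr
        apply ENNReal.lintegral_prod_norm_pow_le
        · exact fun j _ => (jm j).aemeasurable
        · simp [hr.ne']
        · exact fun j _ => by positivity
    _ ≤ (2 ^ r) ^ a * ∏ _j : Fin r, C ^ (1 / (r : ℝ)) := by
        gcongr
        exact H _
    _ = _ := by
        have e : ∏ _j : Fin r, C ^ (1 / (r : ℝ)) = C := by
          rw [Finset.prod_const, Finset.card_univ, Fintype.card_fin, ← ENNReal.rpow_natCast,
            ← ENNReal.rpow_mul, one_div, inv_mul_cancel₀ hr'.ne', ENNReal.rpow_one]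
        rw [e]

/-- The bound for diagonal cubic forms and arbitrary quadratic forms. -/
theorem FD_main {r : ℕ} {a : ℝ} (ha : 1 < r * a) : ∃ C : ℝ≥0∞, C ≠ ∞ ∧
    ∀ (M : Matrix (Fin r) (Fin r) ℝ) (N : Fin r → ℝ), M.IsHermitian →
      ∫⁻ t : ℝ, FD M N t ^ a ≤ C := by
  have hr : 0 < r := by
    rcases Nat.eq_zero_or_pos r with h | h
    · subst h; simp at ha; linarith
    · exact h
  obtain ⟨m, rfl⟩ : ∃ m, r = m + 1 := ⟨r - 1, by omega⟩
  have hr' : (0 : ℝ) < ((m + 1 : ℕ) : ℝ) := by exact_mod_cast hr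
  set R : ℝ := ((m + 1 : ℕ) : ℝ) with hR
  have ha0 : 0 < a := by
    by_contra hc
    rw [not_lt] at hc
    nlinarith
  set a' : ℝ := (a + 1 / R) / 2 with ha'
  have haR : 1 / R < a := by rw [div_lt_iff₀ hr']; linarith
  have ha'1 : a' < a := by rw [ha']; linarith
  have hR1 : 0 < 1 / R := by positivity
  have ha'0 : 0 < a' := by rw [ha']; linarith
  have ha'2 : 1 < R * a' := by
    have : 1 / R < a' := by rw [ha']; linarith
    rw [div_lt_iff₀ hr'] at this
    linarith
  set b : ℝ := a - a' with hb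
  have hb0 : 0 < b := by rw [hb]; linarith
  set ε : ℝ := b / (b + R * a') with hε
  have hden : 0 < b + R * a' := by positivity
  have hε0 : 0 < ε := by positivity
  have hε1 : ε < 1 := by
    rw [hε, div_lt_one hden]
    have : 0 < R * a' := by positivity
    linarith
  have hbal : (1 - ε) * b = ε * (R * a') := by
    rw [hε]
    field_simp
    ring
  obtain ⟨C1, hC1, H1⟩ := FD_iter (r := m + 1) hε0 hε1
  obtain ⟨C2, hC2, H2⟩ := FD_gain (m := m) (s := 1 - ε) (by linarith) (by linarith)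
  obtain ⟨C3, hC3, H3⟩ := time_det (r := m + 1) (a := a') ha'2
  refine ⟨C2 ^ b * (C1 ^ (m + 1)) ^ a' * C3, ?_, ?_⟩
  · exact ENNReal.mul_ne_top (ENNReal.mul_ne_top (ENNReal.rpow_ne_top_of_nonneg hb0.le hC2)
      (ENNReal.rpow_ne_top_of_nonneg ha'0.le (ENNReal.pow_ne_top hC1))) hC3
  intro M N hM
  obtain ⟨j0, -, hj0⟩ := Finset.exists_max_image Finset.univ (fun j => |N j|)
    Finset.univ_nonempty
  have hN : ∀ j, |N j| ≤ |N j0| := fun j => hj0 j (Finset.mem_univ j)
  have key : ∀ t, FD M N t ^ a ≤ (C2 ^ b * (C1 ^ (m + 1)) ^ a') *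
      ENNReal.ofReal (‖dC (M + (2 * t) • (1 : Matrix (Fin (m + 1)) (Fin (m + 1)) ℝ))‖⁻¹) ^ a' := by
    intro t
    have e1 : FD M N t ^ a = FD M N t ^ b * FD M N t ^ a' := by
      rw [← ENNReal.rpow_add_of_nonneg _ _ hb0.le ha'0.le]
      congr 1
      rw [hb]
      ring
    set X := ENNReal.ofReal (‖dC (M + (2 * t) •
      (1 : Matrix (Fin (m + 1)) (Fin (m + 1)) ℝ))‖⁻¹) with hX
    have e2 : jp (1 - ε) (N j0) ^ b * (ij ε (N j0) ^ (m + 1)) ^ a' = 1 := by
      rw [jp_rpow hb0.le]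
      unfold ij jp
      rw [← ENNReal.ofReal_pow (by positivity), ENNReal.ofReal_rpow_of_nonneg (by positivity)
        ha'0.le, ← ENNReal.ofReal_mul (by positivity), ← Real.rpow_natCast, ← Real.rpow_mul
        (by positivity), ← Real.rpow_mul (by positivity), ← Real.rpow_add (by positivity), hbal]
      have : -(ε * (R * a')) + ε * (((m + 1 : ℕ) : ℝ) * a') = 0 := by rw [hR]; ring
      rw [this]
      simp
    calc FD M N t ^ a = FD M N t ^ b * FD M N t ^ a' := e1
      _ ≤ (C2 * jp (1 - ε) (N j0)) ^ b * ((C1 * ij ε (N j0)) ^ (m + 1) * X) ^ a' := by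
          gcongr
          · exact H2 M N t j0 hM
          · exact H1 M N (N j0) t hM hN
      _ = (C2 ^ b * (C1 ^ (m + 1)) ^ a') * X ^ a' *
          (jp (1 - ε) (N j0) ^ b * (ij ε (N j0) ^ (m + 1)) ^ a') := by
          rw [ENNReal.mul_rpow_of_nonneg _ _ hb0.le, ENNReal.mul_rpow_of_nonneg _ _ ha'0.le,
            mul_pow, ENNReal.mul_rpow_of_nonneg _ _ ha'0.le]
          ring
      _ = _ := by rw [e2, mul_one]
  calc _ ≤ ∫⁻ t : ℝ, (C2 ^ b * (C1 ^ (m + 1)) ^ a') *
      ENNReal.ofReal (‖dC (M + (2 * t) • (1 : Matrix (Fin (m + 1)) (Fin (m + 1)) ℝ))‖⁻¹) ^ a' :=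
        lintegral_mono key
    _ = (C2 ^ b * (C1 ^ (m + 1)) ^ a') * ∫⁻ t : ℝ,
      ENNReal.ofReal (‖dC (M + (2 * t) • (1 : Matrix (Fin (m + 1)) (Fin (m + 1)) ℝ))‖⁻¹) ^ a' := by
        rw [lintegral_const_mul']
        exact ENNReal.mul_ne_top (ENNReal.rpow_ne_top_of_nonneg hb0.le hC2)
          (ENNReal.rpow_ne_top_of_nonneg ha'0.le (ENNReal.pow_ne_top hC1))
    _ ≤ _ := by
        gcongr
        exact H3 M hM

end Pool.Agent.P8H15.CP
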