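import Mathlib
import Pool.Agent.P8H15.CP.A
import Pool.Agent.P8H15.CP.D
import Pool.Agent.P8H15.CP.G
set_option autoImplicit false
set_option linter.unusedSectionVars false

/-! The phases, and the bound for the `L^4` norm at a fixed time. -/

namespace Pool.Agent.P8H15.CP

open MeasureTheory Set
open Pool.Agent.P8H66.QP (gg gg_int gg_le gg_meas UU)
open Pool.Agent.TH277.HT (ch)
open scoped ENNReal NNReal RealInnerProductSpace

/-- Fubini for products over the coordinates. -/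
lemma lint_piG {α : Type*} [MeasureSpace α] [SigmaFinite (volume : Measure α)] {n : ℕ}
    (f : Fin n → α → ℝ≥0∞) (hf : ∀ i, Measurable (f i)) :
    ∫⁻ x : Fin n → α, ∏ i, f i (x i) = ∏ i, ∫⁻ u, f i u := by
  induction n with
  | zero =>
    rw [volume_pi]
    simp
  | succ n ih =>
    have h1 := (measurePreserving_piFinSuccAbove (fun _ : Fin (n + 1) => (volume : Measure α)) 0).symm
    rw [volume_pi, ← h1.lintegral_comp_emb (MeasurableEquiv.measurableEmbedding _)]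
    have h2 : ∀ p : α × (Fin n → α), ∏ i, f i ((MeasurableEquiv.piFinSuccAbove
        (fun _ : Fin (n + 1) => α) 0).symm p i) = f 0 p.1 * ∏ i, f (Fin.succ i) (p.2 i) := by
      intro p
      rw [Fin.prod_univ_succ]
      simp [MeasurableEquiv.piFinSuccAbove_symm_apply, Fin.insertNthEquiv]
    simp only [h2]
    have hm : Measurable fun r : Fin n → α => ∏ i, f (Fin.succ i) (r i) :=
      Finset.measurable_prod _ fun i _ => (hf _).comp (measurable_pi_apply i)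
    rw [lintegral_prod_mul (hf 0).aemeasurable hm.aemeasurable, Fin.prod_univ_succ]
    congr 1
    rw [← volume_pi]
    exact ih _ fun i => hf _

/-- the index type -/
abbrev Ix (k r : ℕ) : Type := (Fin k ⊕ Fin k) ⊕ Fin r

/-- factorisation -/
lemma fact {k r : ℕ} (f : Fin k → ℝ × ℝ → ℝ≥0∞) (hf : ∀ b, Measurable (f b))
    (g : (Fin r → ℝ) → ℝ≥0∞) (hg : Measurable g) :
    ∫⁻ c : Ix k r → ℝ, (∏ b, f b (c (Sum.inl (Sum.inl b)), c (Sum.inl (Sum.inr b)))) *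
      g (fun j => c (Sum.inr j)) = (∏ b, ∫⁻ p, f b p) * ∫⁻ z, g z := by
  have e1 := (volume_measurePreserving_sumPiEquivProdPi_symm (ι := Fin k ⊕ Fin k) (ι' := Fin r)
    (fun _ => ℝ))
  have e2 := (volume_measurePreserving_sumPiEquivProdPi_symm (ι := Fin k) (ι' := Fin k)
    (fun _ => ℝ))
  have e3 := volume_measurePreserving_arrowProdEquivProdArrow ℝ ℝ (Fin k)
  rw [← e1.lintegral_comp_emb (MeasurableEquiv.measurableEmbedding _)]
  have h1 : ∀ p : (Fin k ⊕ Fin k → ℝ) × (Fin r → ℝ),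
      (∏ b, f b ((MeasurableEquiv.sumPiEquivProdPi (fun _ : (Fin k ⊕ Fin k) ⊕ Fin r => ℝ)).symm p
        (Sum.inl (Sum.inl b)), (MeasurableEquiv.sumPiEquivProdPi
        (fun _ : (Fin k ⊕ Fin k) ⊕ Fin r => ℝ)).symm p (Sum.inl (Sum.inr b)))) *
      g (fun j => (MeasurableEquiv.sumPiEquivProdPi
        (fun _ : (Fin k ⊕ Fin k) ⊕ Fin r => ℝ)).symm p (Sum.inr j)) =
      (∏ b, f b (p.1 (Sum.inl b), p.1 (Sum.inr b))) * g p.2 := by
    intro p
    rfl
  simp only [h1]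
  have hF : Measurable fun u : Fin k ⊕ Fin k → ℝ => ∏ b, f b (u (Sum.inl b), u (Sum.inr b)) :=
    Finset.measurable_fun_prod _ fun b _ => (hf b).comp
      ((measurable_pi_apply _).prodMk (measurable_pi_apply _))
  have h2 : ∫⁻ p : (Fin k ⊕ Fin k → ℝ) × (Fin r → ℝ),
      (∏ b, f b (p.1 (Sum.inl b), p.1 (Sum.inr b))) * g p.2 =
      (∫⁻ u : Fin k ⊕ Fin k → ℝ, ∏ b, f b (u (Sum.inl b), u (Sum.inr b))) * ∫⁻ z, g z :=
    lintegral_prod_mul hF.aemeasurable hg.aemeasurable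
  rw [h2]
  congr 1
  rw [← e2.lintegral_comp_emb (MeasurableEquiv.measurableEmbedding _)]
  have h3 : ∀ p : (Fin k → ℝ) × (Fin k → ℝ),
      (∏ b, f b ((MeasurableEquiv.sumPiEquivProdPi (fun _ : Fin k ⊕ Fin k => ℝ)).symm p
        (Sum.inl b), (MeasurableEquiv.sumPiEquivProdPi (fun _ : Fin k ⊕ Fin k => ℝ)).symm p
        (Sum.inr b))) = ∏ b, f b (p.1 b, p.2 b) := by
    intro p
    rfl
  simp only [h3]
  rw [← e3.lintegral_comp_emb (MeasurableEquiv.measurableEmbedding _)]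
  have h4 : ∀ p : Fin k → ℝ × ℝ, (∏ b, f b ((MeasurableEquiv.arrowProdEquivProdArrow ℝ ℝ (Fin k) p).1 b,
      (MeasurableEquiv.arrowProdEquivProdArrow ℝ ℝ (Fin k) p).2 b)) = ∏ b, f b (p b) := by
    intro p
    rfl
  simp only [h4]
  exact lint_piG f hf

/-- a cubic polynomial in two variables -/
def cub (q : Fin 4 → Fin 4 → ℝ) (u w : ℝ) : ℝ :=
  q 0 0 + q 1 0 * u + q 0 1 * w + q 2 0 * u ^ 2 + q 1 1 * (u * w) + q 0 2 * w ^ 2 +
    q 3 0 * u ^ 3 + q 2 1 * (u ^ 2 * w) + q 1 2 * (u * w ^ 2) + q 0 3 * w ^ 3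

/-- the parameters of its Hessian -/
def toBlk (q : Fin 4 → Fin 4 → ℝ) : Blk where
  m0 := q 2 0 + q 0 2
  h1 := q 2 0 - q 0 2
  h2 := q 1 1
  a11 := 3 * q 3 0 - q 1 2
  a12 := q 2 1 - 3 * q 0 3
  a21 := 2 * q 2 1
  a22 := 2 * q 1 2

/-- the data of a phase -/
structure Ph (k r : ℕ) where
  /-- the cubic polynomials in pairs of variables -/
  q : Fin k → Fin 4 → Fin 4 → ℝ
  /-- the coefficients of the cubes -/
  N : Fin r → ℝ
  /-- the quadratic form -/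
  B : Matrix (Fin r) (Fin r) ℝ
  /-- the linear form -/
  y : Fin r → ℝ

namespace Ph

variable {k r : ℕ} (P : Ph k r)

/-- the polynomial -/
def pol (x : Ix k r → ℝ) : ℝ :=
  ∑ b, cub (P.q b) (x (Sum.inl (Sum.inl b))) (x (Sum.inl (Sum.inr b))) +
    (∑ j, P.N j * x (Sum.inr j) ^ 3 + (∑ j, ∑ l, P.B j l * (x (Sum.inr j) * x (Sum.inr l)) +
      ∑ j, P.y j * x (Sum.inr j)))

/-- the phase at the time `t` -/
noncomputable def phi (t : ℝ) (x : EuclideanSpace ℝ (Ix k r)) : ℝ :=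
  P.pol (WithLp.ofLp x) + ‖x‖ ^ 2 * t

/-- the matrix of the quadratic form in the last variables -/
noncomputable def Ms : Matrix (Fin r) (Fin r) ℝ := P.B + P.B.transpose

lemma Ms_herm : P.Ms.IsHermitian := by
  unfold Ms
  ext i j
  simp [Matrix.conjTranspose_apply, add_comm]

/-- the Hessian, as a bilinear map -/
noncomputable def dv (t : ℝ) (c v : Ix k r → ℝ) : Ix k r → ℝ :=
  Sum.elim (Sum.elim
    (fun b => ((toBlk (P.q b)).mm t (c (Sum.inl (Sum.inl b)), c (Sum.inl (Sum.inr b))) +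
        (toBlk (P.q b)).pp (c (Sum.inl (Sum.inl b)), c (Sum.inl (Sum.inr b)))) *
          v (Sum.inl (Sum.inl b)) +
      (toBlk (P.q b)).rr (c (Sum.inl (Sum.inl b)), c (Sum.inl (Sum.inr b))) *
        v (Sum.inl (Sum.inr b)))
    (fun b => (toBlk (P.q b)).rr (c (Sum.inl (Sum.inl b)), c (Sum.inl (Sum.inr b))) *
          v (Sum.inl (Sum.inl b)) +
      ((toBlk (P.q b)).mm t (c (Sum.inl (Sum.inl b)), c (Sum.inl (Sum.inr b))) -
        (toBlk (P.q b)).pp (c (Sum.inl (Sum.inl b)), c (Sum.inl (Sum.inr b)))) *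
        v (Sum.inl (Sum.inr b))))
    (fun j => (Hd P.Ms (fun j => 6 * P.N j) t (fun j => c (Sum.inr j))).mulVec
      (fun l => v (Sum.inr l)) j)

/-- the same as a vector -/
noncomputable def Dv (t : ℝ) (c v : EuclideanSpace ℝ (Ix k r)) : EuclideanSpace ℝ (Ix k r) :=
  WithLp.toLp 2 (P.dv t (WithLp.ofLp c) (WithLp.ofLp v))

lemma pol_cont : Continuous P.pol := by unfold pol cub; fun_prop

lemma phi_cont (t : ℝ) : Continuous (P.phi t) := by
  unfold phi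
  have h1 : Continuous fun x : EuclideanSpace ℝ (Ix k r) => P.pol (WithLp.ofLp x) :=
    P.pol_cont.comp (PiLp.continuous_ofLp 2 _)
  fun_prop

lemma dv_cont : Continuous fun z : ℝ × ((Ix k r → ℝ) × (Ix k r → ℝ)) => P.dv z.1 z.2.1 z.2.2 := by
  unfold dv
  apply continuous_pi
  intro i
  rcases i with (b | b) | j
  · simp only [Sum.elim_inl]
    unfold Blk.mm Blk.pp Blk.rr
    fun_prop
  · simp only [Sum.elim_inl, Sum.elim_inr]
    unfold Blk.mm Blk.pp Blk.rr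
    fun_prop
  · simp only [Sum.elim_inr]
    unfold Matrix.mulVec dotProduct Hd
    simp only [Matrix.add_apply, Matrix.diagonal_apply, Matrix.smul_apply, smul_eq_mul]
    apply continuous_finsetSum
    intro l _
    by_cases h : j = l
    · simp only [h, if_true]
      fun_prop
    · simp only [h, if_false]
      fun_prop

lemma Dv_cont (t : ℝ) : Continuous fun p : EuclideanSpace ℝ (Ix k r) × EuclideanSpace ℝ (Ix k r) =>
    P.Dv t p.1 p.2 := by
  unfold Dv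
  apply (PiLp.continuous_toLp 2 _).comp
  have h1 : Continuous fun p : EuclideanSpace ℝ (Ix k r) × EuclideanSpace ℝ (Ix k r) =>
      ((t, (WithLp.ofLp p.1, WithLp.ofLp p.2)) : ℝ × ((Ix k r → ℝ) × (Ix k r → ℝ))) := by
    have h2 : Continuous fun x : EuclideanSpace ℝ (Ix k r) => WithLp.ofLp x :=
      PiLp.continuous_ofLp 2 _
    exact continuous_const.prodMk ((h2.comp continuous_fst).prodMk (h2.comp continuous_snd))
  exact P.dv_cont.comp h1

/-- the second difference of a cubic polynomial in two variables -/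
lemma cub_diff (q : Fin 4 → Fin 4 → ℝ) (t c1 c2 v1 v2 h1 h2 : ℝ) :
    cub q (c1 + 1 / 2 * v1 + 1 / 2 * h1) (c2 + 1 / 2 * v2 + 1 / 2 * h2) -
      cub q (c1 + 1 / 2 * v1 - 1 / 2 * h1) (c2 + 1 / 2 * v2 - 1 / 2 * h2) -
      (cub q (c1 - 1 / 2 * v1 + 1 / 2 * h1) (c2 - 1 / 2 * v2 + 1 / 2 * h2) -
      cub q (c1 - 1 / 2 * v1 - 1 / 2 * h1) (c2 - 1 / 2 * v2 - 1 / 2 * h2)) =
    h1 * (((toBlk q).mm t (c1, c2) + (toBlk q).pp (c1, c2)) * v1 + (toBlk q).rr (c1, c2) * v2) +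
      h2 * ((toBlk q).rr (c1, c2) * v1 + ((toBlk q).mm t (c1, c2) - (toBlk q).pp (c1, c2)) * v2) -
      2 * t * (h1 * v1 + h2 * v2) := by
  unfold cub toBlk Blk.mm Blk.pp Blk.rr
  ring

/-- the second difference of the phase -/
lemma pol_diff (t : ℝ) (c v h : Ix k r → ℝ) :
    P.pol (fun i => c i + 1 / 2 * v i + 1 / 2 * h i) -
      P.pol (fun i => c i + 1 / 2 * v i - 1 / 2 * h i) -
      (P.pol (fun i => c i - 1 / 2 * v i + 1 / 2 * h i) -
      P.pol (fun i => c i - 1 / 2 * v i - 1 / 2 * h i)) =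
    ∑ i, h i * P.dv t c v i - 2 * t * ∑ i, h i * v i := by
  unfold pol
  rw [Fintype.sum_sum_type, Fintype.sum_sum_type, Fintype.sum_sum_type, Fintype.sum_sum_type]
  -- the blocks
  have e1 : ∑ b, cub (P.q b) (c (Sum.inl (Sum.inl b)) + 1 / 2 * v (Sum.inl (Sum.inl b)) +
        1 / 2 * h (Sum.inl (Sum.inl b))) (c (Sum.inl (Sum.inr b)) +
        1 / 2 * v (Sum.inl (Sum.inr b)) + 1 / 2 * h (Sum.inl (Sum.inr b))) -
      ∑ b, cub (P.q b) (c (Sum.inl (Sum.inl b)) + 1 / 2 * v (Sum.inl (Sum.inl b)) -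
        1 / 2 * h (Sum.inl (Sum.inl b))) (c (Sum.inl (Sum.inr b)) +
        1 / 2 * v (Sum.inl (Sum.inr b)) - 1 / 2 * h (Sum.inl (Sum.inr b))) -
      (∑ b, cub (P.q b) (c (Sum.inl (Sum.inl b)) - 1 / 2 * v (Sum.inl (Sum.inl b)) +
        1 / 2 * h (Sum.inl (Sum.inl b))) (c (Sum.inl (Sum.inr b)) -
        1 / 2 * v (Sum.inl (Sum.inr b)) + 1 / 2 * h (Sum.inl (Sum.inr b))) -
      ∑ b, cub (P.q b) (c (Sum.inl (Sum.inl b)) - 1 / 2 * v (Sum.inl (Sum.inl b)) -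
        1 / 2 * h (Sum.inl (Sum.inl b))) (c (Sum.inl (Sum.inr b)) -
        1 / 2 * v (Sum.inl (Sum.inr b)) - 1 / 2 * h (Sum.inl (Sum.inr b)))) =
      ∑ b, (h (Sum.inl (Sum.inl b)) * P.dv t c v (Sum.inl (Sum.inl b)) +
        h (Sum.inl (Sum.inr b)) * P.dv t c v (Sum.inl (Sum.inr b)) -
        2 * t * (h (Sum.inl (Sum.inl b)) * v (Sum.inl (Sum.inl b)) +
          h (Sum.inl (Sum.inr b)) * v (Sum.inl (Sum.inr b)))) := by
    rw [← Finset.sum_sub_distrib, ← Finset.sum_sub_distrib, ← Finset.sum_sub_distrib]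
    apply Finset.sum_congr rfl
    intro b _
    rw [cub_diff (P.q b) t]
    simp only [dv, Sum.elim_inl, Sum.elim_inr]
  -- the last variables
  have e2 : (∑ j, P.N j * (c (Sum.inr j) + 1 / 2 * v (Sum.inr j) + 1 / 2 * h (Sum.inr j)) ^ 3 +
      (∑ j, ∑ l, P.B j l * ((c (Sum.inr j) + 1 / 2 * v (Sum.inr j) + 1 / 2 * h (Sum.inr j)) *
        (c (Sum.inr l) + 1 / 2 * v (Sum.inr l) + 1 / 2 * h (Sum.inr l))) +
      ∑ j, P.y j * (c (Sum.inr j) + 1 / 2 * v (Sum.inr j) + 1 / 2 * h (Sum.inr j)))) -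
      (∑ j, P.N j * (c (Sum.inr j) + 1 / 2 * v (Sum.inr j) - 1 / 2 * h (Sum.inr j)) ^ 3 +
      (∑ j, ∑ l, P.B j l * ((c (Sum.inr j) + 1 / 2 * v (Sum.inr j) - 1 / 2 * h (Sum.inr j)) *
        (c (Sum.inr l) + 1 / 2 * v (Sum.inr l) - 1 / 2 * h (Sum.inr l))) +
      ∑ j, P.y j * (c (Sum.inr j) + 1 / 2 * v (Sum.inr j) - 1 / 2 * h (Sum.inr j)))) -
      ((∑ j, P.N j * (c (Sum.inr j) - 1 / 2 * v (Sum.inr j) + 1 / 2 * h (Sum.inr j)) ^ 3 +
      (∑ j, ∑ l, P.B j l * ((c (Sum.inr j) - 1 / 2 * v (Sum.inr j) + 1 / 2 * h (Sum.inr j)) *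
        (c (Sum.inr l) - 1 / 2 * v (Sum.inr l) + 1 / 2 * h (Sum.inr l))) +
      ∑ j, P.y j * (c (Sum.inr j) - 1 / 2 * v (Sum.inr j) + 1 / 2 * h (Sum.inr j)))) -
      (∑ j, P.N j * (c (Sum.inr j) - 1 / 2 * v (Sum.inr j) - 1 / 2 * h (Sum.inr j)) ^ 3 +
      (∑ j, ∑ l, P.B j l * ((c (Sum.inr j) - 1 / 2 * v (Sum.inr j) - 1 / 2 * h (Sum.inr j)) *
        (c (Sum.inr l) - 1 / 2 * v (Sum.inr l) - 1 / 2 * h (Sum.inr l))) +
      ∑ j, P.y j * (c (Sum.inr j) - 1 / 2 * v (Sum.inr j) - 1 / 2 * h (Sum.inr j))))) =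
      ∑ j, (h (Sum.inr j) * P.dv t c v (Sum.inr j) - 2 * t * (h (Sum.inr j) * v (Sum.inr j))) := by
    have e3 : ∀ j, P.dv t c v (Sum.inr j) = ∑ l, (P.B j l + P.B l j) * v (Sum.inr l) +
        6 * P.N j * c (Sum.inr j) * v (Sum.inr j) + 2 * t * v (Sum.inr j) := by
      intro j
      simp only [dv, Sum.elim_inr, Hd, Ms, Matrix.add_mulVec, Matrix.smul_mulVec,
        Matrix.one_mulVec, Matrix.mulVec_diagonal, Pi.add_apply, Pi.smul_apply, smul_eq_mul]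
      simp only [Matrix.mulVec, dotProduct, Matrix.transpose_apply, add_mul,
        Finset.sum_add_distrib]
    have e4 : ∑ j, h (Sum.inr j) * ∑ l, (P.B j l + P.B l j) * v (Sum.inr l) =
        ∑ j, ∑ l, P.B j l * (h (Sum.inr j) * v (Sum.inr l) + v (Sum.inr j) * h (Sum.inr l)) := by
      have a1 : ∀ j, h (Sum.inr j) * ∑ l, (P.B j l + P.B l j) * v (Sum.inr l) =
          ∑ l, P.B j l * (h (Sum.inr j) * v (Sum.inr l)) +
          ∑ l, P.B l j * (v (Sum.inr l) * h (Sum.inr j)) := by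
        intro j
        rw [Finset.mul_sum, ← Finset.sum_add_distrib]
        apply Finset.sum_congr rfl
        intro l _
        ring
      simp only [a1, mul_add, Finset.sum_add_distrib]
      congr 1
      exact Finset.sum_comm
    have e5 : ∑ j, (h (Sum.inr j) * P.dv t c v (Sum.inr j) -
        2 * t * (h (Sum.inr j) * v (Sum.inr j))) =
        ∑ j, ∑ l, P.B j l * (h (Sum.inr j) * v (Sum.inr l) + v (Sum.inr j) * h (Sum.inr l)) +
        ∑ j, 6 * P.N j * c (Sum.inr j) * v (Sum.inr j) * h (Sum.inr j) := by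
      rw [← e4, ← Finset.sum_add_distrib]
      apply Finset.sum_congr rfl
      intro j _
      rw [e3]
      ring
    rw [e5]
    have s1 : ∑ j, P.N j * (c (Sum.inr j) + 1 / 2 * v (Sum.inr j) + 1 / 2 * h (Sum.inr j)) ^ 3 -
        ∑ j, P.N j * (c (Sum.inr j) + 1 / 2 * v (Sum.inr j) - 1 / 2 * h (Sum.inr j)) ^ 3 -
        (∑ j, P.N j * (c (Sum.inr j) - 1 / 2 * v (Sum.inr j) + 1 / 2 * h (Sum.inr j)) ^ 3 -
        ∑ j, P.N j * (c (Sum.inr j) - 1 / 2 * v (Sum.inr j) - 1 / 2 * h (Sum.inr j)) ^ 3) =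
        ∑ j, 6 * P.N j * c (Sum.inr j) * v (Sum.inr j) * h (Sum.inr j) := by
      rw [← Finset.sum_sub_distrib, ← Finset.sum_sub_distrib, ← Finset.sum_sub_distrib]
      apply Finset.sum_congr rfl
      intro j _
      ring
    have s2 : ∑ j, ∑ l, P.B j l * ((c (Sum.inr j) + 1 / 2 * v (Sum.inr j) + 1 / 2 * h (Sum.inr j)) *
        (c (Sum.inr l) + 1 / 2 * v (Sum.inr l) + 1 / 2 * h (Sum.inr l))) -
        ∑ j, ∑ l, P.B j l * ((c (Sum.inr j) + 1 / 2 * v (Sum.inr j) - 1 / 2 * h (Sum.inr j)) *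
        (c (Sum.inr l) + 1 / 2 * v (Sum.inr l) - 1 / 2 * h (Sum.inr l))) -
        (∑ j, ∑ l, P.B j l * ((c (Sum.inr j) - 1 / 2 * v (Sum.inr j) + 1 / 2 * h (Sum.inr j)) *
        (c (Sum.inr l) - 1 / 2 * v (Sum.inr l) + 1 / 2 * h (Sum.inr l))) -
        ∑ j, ∑ l, P.B j l * ((c (Sum.inr j) - 1 / 2 * v (Sum.inr j) - 1 / 2 * h (Sum.inr j)) *
        (c (Sum.inr l) - 1 / 2 * v (Sum.inr l) - 1 / 2 * h (Sum.inr l)))) =
        ∑ j, ∑ l, P.B j l * (h (Sum.inr j) * v (Sum.inr l) + v (Sum.inr j) * h (Sum.inr l)) := by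
      rw [← Finset.sum_sub_distrib, ← Finset.sum_sub_distrib, ← Finset.sum_sub_distrib]
      apply Finset.sum_congr rfl
      intro j _
      rw [← Finset.sum_sub_distrib, ← Finset.sum_sub_distrib, ← Finset.sum_sub_distrib]
      apply Finset.sum_congr rfl
      intro l _
      ring
    have s3 : ∑ j, P.y j * (c (Sum.inr j) + 1 / 2 * v (Sum.inr j) + 1 / 2 * h (Sum.inr j)) -
        ∑ j, P.y j * (c (Sum.inr j) + 1 / 2 * v (Sum.inr j) - 1 / 2 * h (Sum.inr j)) -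
        (∑ j, P.y j * (c (Sum.inr j) - 1 / 2 * v (Sum.inr j) + 1 / 2 * h (Sum.inr j)) -
        ∑ j, P.y j * (c (Sum.inr j) - 1 / 2 * v (Sum.inr j) - 1 / 2 * h (Sum.inr j))) = 0 := by
      rw [← Finset.sum_sub_distrib, ← Finset.sum_sub_distrib, ← Finset.sum_sub_distrib]
      apply Finset.sum_eq_zero
      intro j _
      ring
    linear_combination s1 + s2 + s3
  have e6 : ∑ b, (h (Sum.inl (Sum.inl b)) * P.dv t c v (Sum.inl (Sum.inl b)) +
        h (Sum.inl (Sum.inr b)) * P.dv t c v (Sum.inl (Sum.inr b)) -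
        2 * t * (h (Sum.inl (Sum.inl b)) * v (Sum.inl (Sum.inl b)) +
          h (Sum.inl (Sum.inr b)) * v (Sum.inl (Sum.inr b)))) =
      (∑ b, h (Sum.inl (Sum.inl b)) * P.dv t c v (Sum.inl (Sum.inl b))) +
      (∑ b, h (Sum.inl (Sum.inr b)) * P.dv t c v (Sum.inl (Sum.inr b))) -
      2 * t * ((∑ b, h (Sum.inl (Sum.inl b)) * v (Sum.inl (Sum.inl b))) +
        ∑ b, h (Sum.inl (Sum.inr b)) * v (Sum.inl (Sum.inr b))) := by
    rw [Finset.sum_sub_distrib, Finset.sum_add_distrib, ← Finset.mul_sum, Finset.sum_add_distrib]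
  have e7 : ∑ j, (h (Sum.inr j) * P.dv t c v (Sum.inr j) -
      2 * t * (h (Sum.inr j) * v (Sum.inr j))) =
      (∑ j, h (Sum.inr j) * P.dv t c v (Sum.inr j)) -
        2 * t * ∑ j, h (Sum.inr j) * v (Sum.inr j) := by
    rw [Finset.sum_sub_distrib, ← Finset.mul_sum]
  linear_combination e1 + e2 + e6 + e7

end Ph

end Pool.Agent.P8H15.CP
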