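import Mathlib
import Pool.Agent.P8H15.CP.H
set_option autoImplicit false
set_option linter.unusedSectionVars false

/-! The bound for the Gaussian window, in adapted coordinates. -/

namespace Pool.Agent.P8H15.CP

open MeasureTheory Set
open Pool.Agent.P8H66.QP (gg gg_int gg_le gg_meas UU UU_eq planchV memLp_two_of_bdd)
open Pool.Agent.TH277.HT (ch)
open scoped ENNReal NNReal RealInnerProductSpace

lemma lintE {ι : Type*} [Fintype ι] (f : EuclideanSpace ℝ ι → ℝ≥0∞) :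
    ∫⁻ x, f x = ∫⁻ y : ι → ℝ, f (WithLp.toLp 2 y) :=
  ((PiLp.volume_preserving_toLp ι).lintegral_comp_emb
    (MeasurableEquiv.toLp 2 (ι → ℝ)).measurableEmbedding f).symm

namespace Ph

variable {k r : ℕ} (P : Ph k r)

lemma phi_diff (t : ℝ) (c v h : EuclideanSpace ℝ (Ix k r)) :
    P.phi t (c + (1 / 2 : ℝ) • v + (1 / 2 : ℝ) • h) -
      P.phi t (c + (1 / 2 : ℝ) • v - (1 / 2 : ℝ) • h) -
      (P.phi t (c - (1 / 2 : ℝ) • v + (1 / 2 : ℝ) • h) -
      P.phi t (c - (1 / 2 : ℝ) • v - (1 / 2 : ℝ) • h)) = ⟪h, P.Dv t c v⟫ := by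
  have h1 := P.pol_diff t (WithLp.ofLp c) (WithLp.ofLp v) (WithLp.ofLp h)
  have e1 : WithLp.ofLp (c + (1 / 2 : ℝ) • v + (1 / 2 : ℝ) • h) =
      fun i => c i + 1 / 2 * v i + 1 / 2 * h i := by ext i; simp
  have e2 : WithLp.ofLp (c + (1 / 2 : ℝ) • v - (1 / 2 : ℝ) • h) =
      fun i => c i + 1 / 2 * v i - 1 / 2 * h i := by ext i; simp
  have e3 : WithLp.ofLp (c - (1 / 2 : ℝ) • v + (1 / 2 : ℝ) • h) =
      fun i => c i - 1 / 2 * v i + 1 / 2 * h i := by ext i; simp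
  have e4 : WithLp.ofLp (c - (1 / 2 : ℝ) • v - (1 / 2 : ℝ) • h) =
      fun i => c i - 1 / 2 * v i - 1 / 2 * h i := by ext i; simp
  have n1 : ‖c + (1 / 2 : ℝ) • v + (1 / 2 : ℝ) • h‖ ^ 2 - ‖c + (1 / 2 : ℝ) • v - (1 / 2 : ℝ) • h‖ ^ 2
      - (‖c - (1 / 2 : ℝ) • v + (1 / 2 : ℝ) • h‖ ^ 2 - ‖c - (1 / 2 : ℝ) • v - (1 / 2 : ℝ) • h‖ ^ 2)
      = 2 * ∑ i, h i * v i := by
    rw [EuclideanSpace.real_norm_sq_eq, EuclideanSpace.real_norm_sq_eq,
      EuclideanSpace.real_norm_sq_eq, EuclideanSpace.real_norm_sq_eq,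
      ← Finset.sum_sub_distrib, ← Finset.sum_sub_distrib, ← Finset.sum_sub_distrib,
      Finset.mul_sum]
    apply Finset.sum_congr rfl
    intro i _
    simp only [PiLp.add_apply, PiLp.sub_apply, PiLp.smul_apply, smul_eq_mul]
    ring
  have n2 : ⟪h, P.Dv t c v⟫ = ∑ i, h i * P.dv t (WithLp.ofLp c) (WithLp.ofLp v) i := by
    simp only [PiLp.inner_apply, RCLike.inner_apply, conj_trivial, Dv]
    apply Finset.sum_congr rfl
    intro i _
    ring
  unfold phi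
  rw [e1, e2, e3, e4, n2]
  linear_combination h1 + t * n1

/-- the bound for the `L^4` norm at a fixed time -/
lemma L4b (t : ℝ) : ∫⁻ x, ‖UU (Gp (P.phi t)) x‖ₑ ^ 4 ≤
    (∏ b, (toBlk (P.q b)).FB t) * FD P.Ms (fun j => 6 * P.N j) t := by
  rw [L4phase (P.phi_cont t) (P.Dv_cont t) (P.phi_diff t), lintE]
  -- the inner integral
  have hin : ∀ c : Ix k r → ℝ, ∫⁻ v : EuclideanSpace ℝ (Ix k r), ENNReal.ofReal (Real.exp
      (-(Real.pi * (4 * ‖(WithLp.toLp 2 c : EuclideanSpace ℝ (Ix k r))‖ ^ 2 + ‖v‖ ^ 2 +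
        ‖P.Dv t (WithLp.toLp 2 c) v‖ ^ 2)))) ≤
      (∏ b, (gg (c (Sum.inl (Sum.inl b))) * gg (c (Sum.inl (Sum.inr b)))) *
        ENNReal.ofReal (xb ((toBlk (P.q b)).mm t (c (Sum.inl (Sum.inl b)), c (Sum.inl (Sum.inr b))))
          ((toBlk (P.q b)).dd (c (Sum.inl (Sum.inl b)), c (Sum.inl (Sum.inr b)))))) *
      ((∏ j, gg (c (Sum.inr j))) * fd P.Ms (fun j => 6 * P.N j) t (fun j => c (Sum.inr j))) := by
    intro c
    rw [lintE]
    set wb : Fin k → ℝ × ℝ → ℝ≥0∞ := fun b p => ENNReal.ofReal (Real.exp (-(Real.pi *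
      (p.1 ^ 2 + p.2 ^ 2 +
      ((((toBlk (P.q b)).mm t (c (Sum.inl (Sum.inl b)), c (Sum.inl (Sum.inr b))) +
        (toBlk (P.q b)).pp (c (Sum.inl (Sum.inl b)), c (Sum.inl (Sum.inr b)))) * p.1 +
        (toBlk (P.q b)).rr (c (Sum.inl (Sum.inl b)), c (Sum.inl (Sum.inr b))) * p.2) ^ 2 +
      ((toBlk (P.q b)).rr (c (Sum.inl (Sum.inl b)), c (Sum.inl (Sum.inr b))) * p.1 +
        ((toBlk (P.q b)).mm t (c (Sum.inl (Sum.inl b)), c (Sum.inl (Sum.inr b))) -
        (toBlk (P.q b)).pp (c (Sum.inl (Sum.inl b)), c (Sum.inl (Sum.inr b)))) * p.2) ^ 2)))))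
      with hwb
    set H := Hd P.Ms (fun j => 6 * P.N j) t (fun j => c (Sum.inr j)) with hH
    set wz : (Fin r → ℝ) → ℝ≥0∞ := fun z => ENNReal.ofReal (Real.exp (-(Real.pi *
      (∑ j, z j ^ 2 + ∑ j, (H.mulVec z j) ^ 2)))) with hwz
    have hwbm : ∀ b, Measurable (wb b) := by
      intro b
      rw [hwb]
      fun_prop
    have hwzm : Measurable wz := by
      rw [hwz]
      have : Measurable fun z : Fin r → ℝ => ∑ j, (H.mulVec z j) ^ 2 := by
        unfold Matrix.mulVec dotProduct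
        fun_prop
      fun_prop
    have e1 : ∀ v : Ix k r → ℝ, ENNReal.ofReal (Real.exp
        (-(Real.pi * (4 * ‖(WithLp.toLp 2 c : EuclideanSpace ℝ (Ix k r))‖ ^ 2 +
          ‖(WithLp.toLp 2 v : EuclideanSpace ℝ (Ix k r))‖ ^ 2 +
          ‖P.Dv t (WithLp.toLp 2 c) (WithLp.toLp 2 v)‖ ^ 2)))) =
        ENNReal.ofReal (Real.exp (-(Real.pi * (4 * ∑ i, c i ^ 2)))) *
        ((∏ b, wb b (v (Sum.inl (Sum.inl b)), v (Sum.inl (Sum.inr b)))) *
          wz (fun j => v (Sum.inr j))) := by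
      intro v
      rw [EuclideanSpace.real_norm_sq_eq, EuclideanSpace.real_norm_sq_eq,
        EuclideanSpace.real_norm_sq_eq]
      simp only [Dv]
      rw [hwb, hwz]
      simp only
      rw [← ENNReal.ofReal_prod_of_nonneg (fun b _ => (Real.exp_pos _).le),
        ← ENNReal.ofReal_mul (Finset.prod_nonneg fun b _ => (Real.exp_pos _).le),
        ← ENNReal.ofReal_mul (Real.exp_pos _).le, ← Real.exp_sum, ← Real.exp_add, ← Real.exp_add]
      congr 2
      have f1 : ∑ i, v i ^ 2 = ∑ b, (v (Sum.inl (Sum.inl b)) ^ 2 + v (Sum.inl (Sum.inr b)) ^ 2) +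
          ∑ j, v (Sum.inr j) ^ 2 := by
        rw [Fintype.sum_sum_type, Fintype.sum_sum_type, Finset.sum_add_distrib]
      have f2 : ∑ i, P.dv t c v i ^ 2 = ∑ b, (P.dv t c v (Sum.inl (Sum.inl b)) ^ 2 +
          P.dv t c v (Sum.inl (Sum.inr b)) ^ 2) + ∑ j, P.dv t c v (Sum.inr j) ^ 2 := by
        rw [Fintype.sum_sum_type, Fintype.sum_sum_type, Finset.sum_add_distrib]
      rw [f1, f2]
      simp only [dv, Sum.elim_inl, Sum.elim_inr]
      rw [← hH, Finset.sum_neg_distrib, ← Finset.mul_sum]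
      simp only [Finset.sum_add_distrib]
      ring
    simp only [e1]
    rw [lintegral_const_mul' _ _ ENNReal.ofReal_ne_top, fact wb hwbm wz hwzm]
    have e2 : ENNReal.ofReal (Real.exp (-(Real.pi * (4 * ∑ i, c i ^ 2)))) ≤
        (∏ b, (gg (c (Sum.inl (Sum.inl b))) * gg (c (Sum.inl (Sum.inr b))))) *
          ∏ j, gg (c (Sum.inr j)) := by
      unfold gg
      rw [Finset.prod_mul_distrib, ← ENNReal.ofReal_prod_of_nonneg (fun b _ => (Real.exp_pos _).le),
        ← ENNReal.ofReal_prod_of_nonneg (fun b _ => (Real.exp_pos _).le),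
        ← ENNReal.ofReal_prod_of_nonneg (fun b _ => (Real.exp_pos _).le),
        ← ENNReal.ofReal_mul (Finset.prod_nonneg fun b _ => (Real.exp_pos _).le),
        ← ENNReal.ofReal_mul (mul_nonneg (Finset.prod_nonneg fun b _ => (Real.exp_pos _).le)
          (Finset.prod_nonneg fun b _ => (Real.exp_pos _).le)),
        ← Real.exp_sum, ← Real.exp_sum, ← Real.exp_sum, ← Real.exp_add, ← Real.exp_add]
      apply ENNReal.ofReal_le_ofReal
      apply Real.exp_le_exp.2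
      rw [Fintype.sum_sum_type, Fintype.sum_sum_type, Finset.sum_neg_distrib,
        Finset.sum_neg_distrib, Finset.sum_neg_distrib, ← Finset.mul_sum, ← Finset.mul_sum,
        ← Finset.mul_sum]
      have g1 : 0 ≤ ∑ b, c (Sum.inl (Sum.inl b)) ^ 2 := Finset.sum_nonneg fun _ _ => sq_nonneg _
      have g2 : 0 ≤ ∑ b, c (Sum.inl (Sum.inr b)) ^ 2 := Finset.sum_nonneg fun _ _ => sq_nonneg _
      have g3 : 0 ≤ ∑ j, c (Sum.inr j) ^ 2 := Finset.sum_nonneg fun _ _ => sq_nonneg _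
      have hpi := Real.pi_pos
      nlinarith [mul_nonneg hpi.le g1, mul_nonneg hpi.le g2, mul_nonneg hpi.le g3]
    have e3 : ∀ b, ∫⁻ p, wb b p ≤ ENNReal.ofReal (xb ((toBlk (P.q b)).mm t
        (c (Sum.inl (Sum.inl b)), c (Sum.inl (Sum.inr b)))) ((toBlk (P.q b)).dd
        (c (Sum.inl (Sum.inl b)), c (Sum.inl (Sum.inr b))))) := by
      intro b
      apply block_int
      unfold Blk.dd
      exact Real.sq_sqrt (by positivity)
    have e4 : ∫⁻ z, wz z = fd P.Ms (fun j => 6 * P.N j) t (fun j => c (Sum.inr j)) := by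
      rw [hwz]
      unfold fd
      exact gaussM (Hd_herm P.Ms_herm _ _ _)
    rw [e4]
    calc _ ≤ ((∏ b, (gg (c (Sum.inl (Sum.inl b))) * gg (c (Sum.inl (Sum.inr b))))) *
          ∏ j, gg (c (Sum.inr j))) * ((∏ b, ENNReal.ofReal (xb ((toBlk (P.q b)).mm t
          (c (Sum.inl (Sum.inl b)), c (Sum.inl (Sum.inr b)))) ((toBlk (P.q b)).dd
          (c (Sum.inl (Sum.inl b)), c (Sum.inl (Sum.inr b)))))) *
          fd P.Ms (fun j => 6 * P.N j) t (fun j => c (Sum.inr j))) := by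
          gcongr with b
          exact e3 b
      _ = _ := by
          rw [Finset.prod_mul_distrib (f := fun b => gg (c (Sum.inl (Sum.inl b))) *
            gg (c (Sum.inl (Sum.inr b))))]
          ring
  refine (lintegral_mono hin).trans (le_of_eq ?_)
  have hgm : Measurable fun z : Fin r → ℝ => (∏ j, gg (z j)) * fd P.Ms (fun j => 6 * P.N j) t z := by
    have hgp : Measurable fun x : Fin r → ℝ => ∏ j, gg (x j) :=
      Finset.measurable_fun_prod _ fun j _ => gg_meas.comp (measurable_pi_apply j)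
    exact hgp.mul (fd_meas' _ _ t)
  have hfm : ∀ b, Measurable fun p : ℝ × ℝ => (gg p.1 * gg p.2) *
      ENNReal.ofReal (xb ((toBlk (P.q b)).mm t p) ((toBlk (P.q b)).dd p)) := by
    intro b
    have h1 : Measurable fun p : ℝ × ℝ => gg p.1 := gg_meas.comp measurable_fst
    have h2 : Measurable fun p : ℝ × ℝ => gg p.2 := gg_meas.comp measurable_snd
    have h3 : Measurable fun p : ℝ × ℝ => ((t, p) : ℝ × (ℝ × ℝ)) := by fun_prop
    have h4 := (toBlk (P.q b)).xb_meas.comp h3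
    exact (h1.mul h2).mul h4
  have := fact (fun b (p : ℝ × ℝ) => (gg p.1 * gg p.2) *
      ENNReal.ofReal (xb ((toBlk (P.q b)).mm t p) ((toBlk (P.q b)).dd p))) hfm
      (fun z : Fin r → ℝ => (∏ j, gg (z j)) * fd P.Ms (fun j => 6 * P.N j) t z) hgm
  exact this

end Ph

end Pool.Agent.P8H15.CP
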