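import Mathlib
import Pool.Agent.P8H15.CP.I
set_option autoImplicit false
set_option linter.unusedSectionVars false

/-! The bound for the Gaussian window: interpolation and Hölder's inequality in time. -/

namespace Pool.Agent.P8H15.CP

open MeasureTheory Set
open Pool.Agent.P8H66.QP (gg gg_int gg_le gg_meas UU UU_eq planchV memLp_two_of_bdd)
open Pool.Agent.TH277.HT (ch)
open scoped ENNReal NNReal RealInnerProductSpace

variable {V : Type*} [NormedAddCommGroup V] [InnerProductSpace ℝ V] [MeasurableSpace V]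
  [BorelSpace V] [FiniteDimensional ℝ V]

lemma UU_cont' {F : V → ℂ} (hF : Integrable F) : Continuous (UU F) := by
  have h1 : UU F = fun x => FourierTransform.fourier F (-x) := by
    ext x
    exact UU_eq _ x
  rw [h1]
  have h2 : Continuous (FourierTransform.fourier F) :=
    VectorFourier.fourierIntegral_continuous Real.continuous_fourierChar
      (by exact continuous_inner) hF
  exact h2.comp continuous_neg

/-- the mass of the Gaussian -/
noncomputable def G0 (V : Type*) [NormedAddCommGroup V] [InnerProductSpace ℝ V]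
    [MeasurableSpace V] [BorelSpace V] [FiniteDimensional ℝ V] : ℝ≥0∞ :=
  ∫⁻ ξ : V, ENNReal.ofReal (rg ξ)

lemma G0_ne : G0 V ≠ ∞ := by
  unfold G0
  have h := (rg_int (V := V)).2
  rw [hasFiniteIntegral_iff_ofReal (ae_of_all _ fun ξ => (rg_pos ξ).le)] at h
  exact h.ne

lemma Gp_L2 {φ : V → ℝ} (hφ : Continuous φ) : ∫⁻ x : V, ‖UU (Gp φ) x‖ₑ ^ 2 ≤ G0 V := by
  rw [planchV _ (Gp_int hφ) (memLp_two_of_bdd (Gp_int hφ) (C := 1)
    (fun ξ => by rw [Gp_norm]; exact rg_le ξ))]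
  unfold G0
  refine lintegral_mono fun ξ => ?_
  rw [← ofReal_norm, Gp_norm, ← ENNReal.ofReal_pow (rg_pos ξ).le]
  apply ENNReal.ofReal_le_ofReal
  nlinarith [rg_le ξ, rg_pos ξ]

/-- interpolation at a fixed time -/
lemma Gp_Lq {φ : V → ℝ} (hφ : Continuous φ) {a : ℝ} (ha0 : 0 < a) (ha1 : a < 1) :
    ∫⁻ x : V, ‖UU (Gp φ) x‖ₑ ^ (2 + 2 * a) ≤
      G0 V ^ (1 - a) * (∫⁻ x : V, ‖UU (Gp φ) x‖ₑ ^ 4) ^ a := by
  have hm2 : Measurable fun x : V => ‖UU (Gp φ) x‖ₑ := (UU_cont' (Gp_int hφ)).measurable.enorm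
  have h1a : 0 ≤ 1 - a := by linarith
  have h2 : ∀ x : V, ‖UU (Gp φ) x‖ₑ ^ (2 + 2 * a) =
      (‖UU (Gp φ) x‖ₑ ^ 2) ^ (1 - a) * (‖UU (Gp φ) x‖ₑ ^ 4) ^ a := by
    intro x
    rw [← ENNReal.rpow_natCast, ← ENNReal.rpow_natCast, ← ENNReal.rpow_mul, ← ENNReal.rpow_mul,
      ← ENNReal.rpow_add_of_nonneg _ _ (by positivity) (by positivity)]
    congr 1
    push_cast
    ring
  simp only [h2]
  refine (ENNReal.lintegral_mul_norm_pow_le (hm2.pow_const 2).aemeasurable
    (hm2.pow_const 4).aemeasurable h1a ha0.le (by ring)).trans ?_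
  gcongr
  exact Gp_L2 hφ

namespace Ph

variable {k r : ℕ}

/-- the exponents -/
noncomputable def ex (k r : ℕ) (n : ℝ) : Option (Fin k) → ℝ := fun o => o.elim (r / n) fun _ => 2 / n

/-- The bound for the Gaussian window. -/
theorem baseV {n : ℝ} (hn : n = 2 * k + r) (hn0 : 0 < n) {a : ℝ} (ha : 1 < n * a)
    (ha2 : n * a < 2) (ha1 : a < 1) : ∃ C : ℝ≥0∞, C ≠ ∞ ∧ ∀ P : Ph k r,
      ∫⁻ t : ℝ, ∫⁻ x : EuclideanSpace ℝ (Ix k r), ‖UU (Gp (P.phi t)) x‖ₑ ^ (2 + 2 * a) ≤ C := by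
  have ha0 : 0 < a := by
    by_contra hc
    rw [not_lt] at hc
    nlinarith
  obtain ⟨C1, hC1, H1⟩ := Blk.main (a := n * a / 2) (by linarith) (by linarith)
  have hz : ∃ C : ℝ≥0∞, C ≠ ∞ ∧ ∀ (M : Matrix (Fin r) (Fin r) ℝ) (N : Fin r → ℝ),
      M.IsHermitian → 0 < r → ∫⁻ t : ℝ, FD M N t ^ (n * a / r) ≤ C := by
    rcases Nat.eq_zero_or_pos r with h | h
    · exact ⟨0, ENNReal.zero_ne_top, fun _ _ _ h' => by omega⟩
    · have hr : (0 : ℝ) < r := by exact_mod_cast h
      obtain ⟨C, hC, H⟩ := FD_main (r := r) (a := n * a / r) (by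
        have : (r : ℝ) * (n * a / r) = n * a := by field_simp
        rw [this]; exact ha)
      exact ⟨C, hC, fun M N hM _ => H M N hM⟩
  obtain ⟨C2, hC2, H2⟩ := hz
  have h2n : 0 ≤ 2 / n := by positivity
  have hrn : 0 ≤ (r : ℝ) / n := by positivity
  refine ⟨G0 (EuclideanSpace ℝ (Ix k r)) ^ (1 - a) * (C2 ^ ((r : ℝ) / n) *
    ∏ _b : Fin k, C1 ^ (2 / n)), ?_, ?_⟩
  · refine ENNReal.mul_ne_top (ENNReal.rpow_ne_top_of_nonneg (by linarith) G0_ne) ?_
    refine ENNReal.mul_ne_top (ENNReal.rpow_ne_top_of_nonneg hrn hC2) ?_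
    exact ENNReal.prod_ne_top fun _ _ => ENNReal.rpow_ne_top_of_nonneg h2n hC1
  intro P
  set N6 : Fin r → ℝ := fun j => 6 * P.N j with hN6
  -- Hölder's inequality in time
  set f : Option (Fin k) → ℝ → ℝ≥0∞ := fun o t =>
    o.elim (FD P.Ms N6 t ^ (n * a / r)) fun b => (toBlk (P.q b)).FB t ^ (n * a / 2) with hf
  have hfm : ∀ o ∈ (Finset.univ : Finset (Option (Fin k))), AEMeasurable (f o) volume := by
    intro o _
    apply Measurable.aemeasurable
    cases o with
    | none => exact (FD_meas _ _).pow_const _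
    | some b => exact (Blk.FB_meas _).pow_const _
  have hp : ∑ o, ex k r n o = 1 := by
    rw [Fintype.sum_option]
    simp only [ex, Option.elim_none, Option.elim_some, Finset.sum_const, Finset.card_univ,
      Fintype.card_fin, nsmul_eq_mul]
    rw [hn] at hn0 ⊢
    field_simp
    ring
  have hp0 : ∀ o ∈ (Finset.univ : Finset (Option (Fin k))), 0 ≤ ex k r n o := by
    intro o _
    cases o with
    | none => exact hrn
    | some b => exact h2n
  have hol := ENNReal.lintegral_prod_norm_pow_le (μ := (volume : Measure ℝ)) Finset.univ hfm hp hp0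
  -- the integrand
  have hpt : ∀ t : ℝ, ((∏ b, (toBlk (P.q b)).FB t) * FD P.Ms N6 t) ^ a ≤
      ∏ o, f o t ^ ex k r n o := by
    intro t
    rw [Fintype.prod_option]
    simp only [hf, ex, Option.elim_none, Option.elim_some]
    rw [ENNReal.mul_rpow_of_nonneg _ _ ha0.le, ← ENNReal.prod_rpow_of_nonneg ha0.le, mul_comm]
    apply mul_le_mul'
    · rcases Nat.eq_zero_or_pos r with h | h
      · subst h
        simp only [Nat.cast_zero, div_zero, ENNReal.rpow_zero, zero_div]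
        apply ENNReal.rpow_le_one _ ha0.le
        unfold FD fd
        rw [volume_pi]
        simp [dC]
      · have hr : (0 : ℝ) < r := by exact_mod_cast h
        rw [← ENNReal.rpow_mul]
        apply le_of_eq
        congr 1
        field_simp
    · apply Finset.prod_le_prod'
      intro b _
      rw [← ENNReal.rpow_mul]
      apply le_of_eq
      congr 1
      field_simp
  have hfin : ∏ o, (∫⁻ t, f o t) ^ ex k r n o ≤ C2 ^ ((r : ℝ) / n) * ∏ _b : Fin k, C1 ^ (2 / n) := by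
    rw [Fintype.prod_option]
    simp only [hf, ex, Option.elim_none, Option.elim_some]
    apply mul_le_mul'
    · rcases Nat.eq_zero_or_pos r with h | h
      · subst h
        simp
      · exact ENNReal.rpow_le_rpow (H2 P.Ms N6 P.Ms_herm h) hrn
    · apply Finset.prod_le_prod'
      intro b _
      exact ENNReal.rpow_le_rpow (H1 _) h2n
  calc ∫⁻ t : ℝ, ∫⁻ x : EuclideanSpace ℝ (Ix k r), ‖UU (Gp (P.phi t)) x‖ₑ ^ (2 + 2 * a)
      ≤ ∫⁻ t : ℝ, G0 (EuclideanSpace ℝ (Ix k r)) ^ (1 - a) *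
        ((∏ b, (toBlk (P.q b)).FB t) * FD P.Ms N6 t) ^ a := by
        refine lintegral_mono fun t => ?_
        refine (Gp_Lq (P.phi_cont t) ha0 ha1).trans ?_
        gcongr
        exact P.L4b t
    _ ≤ ∫⁻ t : ℝ, G0 (EuclideanSpace ℝ (Ix k r)) ^ (1 - a) * ∏ o, f o t ^ ex k r n o := by
        refine lintegral_mono fun t => ?_
        gcongr
        exact hpt t
    _ = G0 (EuclideanSpace ℝ (Ix k r)) ^ (1 - a) * ∫⁻ t : ℝ, ∏ o, f o t ^ ex k r n o := by
        rw [lintegral_const_mul']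
        exact ENNReal.rpow_ne_top_of_nonneg (by linarith) G0_ne
    _ ≤ G0 (EuclideanSpace ℝ (Ix k r)) ^ (1 - a) * (C2 ^ ((r : ℝ) / n) *
        ∏ _b : Fin k, C1 ^ (2 / n)) := by
        gcongr
        exact hol.trans hfin

end Ph

end Pool.Agent.P8H15.CP
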