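import Mathlib
import Pool.Agent.P8H15.CP.J
import Pool.Agent.P8H66.QP.N
set_option autoImplicit false
set_option linter.unusedSectionVars false

/-! The atoms; families closed under cutting off with polytopes. -/

namespace Pool.Agent.P8H15.CP

open MeasureTheory Set
open Pool.Agent.P8H66.QP (UU EX EP GG Nq Nq_eq Nq_sup Dom GG_meas EP_le Fam st st_meas st_le Ps
  exists_k mul_all half)
open Pool.Agent.TH277.HT (ch ch_norm ch_enorm ch_add ch_cont)
open scoped ENNReal NNReal RealInnerProductSpace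

variable {m : ℕ}

/-- the atoms -/
noncomputable def at3 {k r : ℕ} (κ : ℂ)
    (e : OrthonormalBasis (Ix k r) ℝ (EuclideanSpace ℝ (Fin (m + 1)))) (P : Ph k r)
    (ξ : EuclideanSpace ℝ (Fin (m + 1))) : ℂ := κ * ch (P.pol (WithLp.ofLp (e.repr ξ)))

lemma at3_meas {k r : ℕ} (κ : ℂ)
    (e : OrthonormalBasis (Ix k r) ℝ (EuclideanSpace ℝ (Fin (m + 1)))) (P : Ph k r) :
    Measurable (at3 κ e P) := by
  unfold at3
  apply Measurable.const_mul
  apply (ch_cont.comp _).measurable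
  exact P.pol_cont.comp ((PiLp.continuous_ofLp 2 _).comp e.repr.continuous)

lemma at3_le {k r : ℕ} {κ : ℂ} (hκ : ‖κ‖ ≤ 1)
    (e : OrthonormalBasis (Ix k r) ℝ (EuclideanSpace ℝ (Fin (m + 1)))) (P : Ph k r)
    (ξ : EuclideanSpace ℝ (Fin (m + 1))) : ‖at3 κ e P ξ‖ ≤ 1 := by
  unfold at3
  rw [norm_mul, ch_norm, mul_one]
  exact hκ

lemma EX_at3 {k r : ℕ} (κ : ℂ)
    (e : OrthonormalBasis (Ix k r) ℝ (EuclideanSpace ℝ (Fin (m + 1)))) (P : Ph k r) (t : ℝ)
    (x : EuclideanSpace ℝ (Fin (m + 1))) :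
    EX (fun ξ => at3 κ e P ξ * GG ξ) t x = κ * UU (Gp (P.phi t)) (e.repr x) := by
  have hemb : MeasurableEmbedding e.repr := e.repr.toHomeomorph.measurableEmbedding
  have h1 : UU (Gp (P.phi t)) (e.repr x) =
      ∫ ξ : EuclideanSpace ℝ (Fin (m + 1)), ch ⟪e.repr ξ, e.repr x⟫ * Gp (P.phi t) (e.repr ξ) := by
    unfold UU
    exact (e.repr.measurePreserving.integral_comp hemb
      (fun η => ch ⟪η, e.repr x⟫ * Gp (P.phi t) η)).symm
  rw [h1]
  unfold EX
  rw [← integral_const_mul]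
  apply integral_congr_ae
  refine ae_of_all _ fun ξ => ?_
  simp only
  rw [LinearIsometryEquiv.inner_map_map]
  unfold Gp at3 GG rg Ph.phi
  rw [LinearIsometryEquiv.norm_map, ch_add, ch_add]
  ring

/-- the bound for the Gaussian window in general position, close to the critical exponent -/
lemma genA {k r : ℕ} (hkr : 2 * k + r = m + 1) (hm : 1 ≤ m) {a : ℝ} (ha : 1 < (m + 1 : ℝ) * a)
    (ha2 : (m + 1 : ℝ) * a < 2) : ∃ C : ℝ≥0∞, C ≠ ∞ ∧ ∀ (κ : ℂ)
      (e : OrthonormalBasis (Ix k r) ℝ (EuclideanSpace ℝ (Fin (m + 1)))) (P : Ph k r), ‖κ‖ ≤ 1 →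
      ∫⁻ t, ∫⁻ x, ‖EX (fun ξ => at3 κ e P ξ * GG ξ) t x‖ₑ ^ (2 + 2 * a) ≤ C := by
  have hm1 : (1 : ℝ) ≤ m := by exact_mod_cast hm
  have ha0 : 0 < a := by
    by_contra hc
    rw [not_lt] at hc
    nlinarith
  have ha1 : a < 1 := by nlinarith
  have hn : ((m : ℝ) + 1) = 2 * k + r := by exact_mod_cast hkr.symm
  obtain ⟨C, hC, H⟩ := Ph.baseV (k := k) (r := r) hn (by positivity) ha ha2 ha1
  refine ⟨C, hC, fun κ e P hκ => ?_⟩
  refine le_trans ?_ (H P)
  refine lintegral_mono fun t => ?_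
  have hemb : MeasurableEmbedding e.repr := e.repr.toHomeomorph.measurableEmbedding
  rw [← e.repr.measurePreserving.lintegral_comp_emb hemb
    (fun y => ‖UU (Gp (P.phi t)) y‖ₑ ^ (2 + 2 * a))]
  refine lintegral_mono fun x => ?_
  rw [EX_at3]
  have : ‖κ * UU (Gp (P.phi t)) (e.repr x)‖ₑ ≤ ‖UU (Gp (P.phi t)) (e.repr x)‖ₑ := by
    rw [enorm_mul]
    calc _ ≤ 1 * ‖UU (Gp (P.phi t)) (e.repr x)‖ₑ := by
          gcongr
          rw [← ofReal_norm, ← ENNReal.ofReal_one]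
          exact ENNReal.ofReal_le_ofReal hκ
      _ = _ := one_mul _
  gcongr

/-- the atoms with the Gaussian window -/
def C0 (m : ℕ) : Set (EuclideanSpace ℝ (Fin (m + 1)) → ℂ) :=
  {g | ∃ (k r : ℕ) (_ : 2 * k + r = m + 1) (κ : ℂ)
    (e : OrthonormalBasis (Ix k r) ℝ (EuclideanSpace ℝ (Fin (m + 1)))) (P : Ph k r),
    ‖κ‖ ≤ 1 ∧ g = fun ξ => at3 κ e P ξ * GG ξ}

lemma C0_fam (hm : 1 ≤ m) : Fam (C0 m) := by
  have hd : ∀ f ∈ C0 m, Dom f := by
    rintro f ⟨k, r, -, κ, e, P, hκ, rfl⟩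
    refine ⟨(at3_meas κ e P).mul GG_meas, fun ξ => ?_⟩
    rw [norm_mul]
    calc _ ≤ 1 * ‖GG ξ‖ := by
          gcongr
          exact at3_le hκ e P ξ
      _ = _ := one_mul _
  refine ⟨hd, fun q hq => ?_⟩
  have hm1 : (1 : ℝ) ≤ m := by exact_mod_cast hm
  have hm0 : (0 : ℝ) < (m : ℝ) + 1 := by linarith
  -- reduction to exponents close to the critical one
  obtain ⟨a, h1, h2, h3⟩ : ∃ a, 1 < ((m : ℝ) + 1) * a ∧ ((m : ℝ) + 1) * a < 2 ∧ 2 + 2 * a ≤ q := by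
    refine ⟨min ((q - 2) / 2) (3 / 2 / (m + 1)), ?_, ?_, ?_⟩
    · have e1 : 1 / ((m : ℝ) + 1) < min ((q - 2) / 2) (3 / 2 / (m + 1)) := by
        rw [lt_min_iff]
        constructor
        · have : 2 / ((m : ℝ) + 1) = 2 * (1 / ((m : ℝ) + 1)) := by ring
          rw [this] at hq
          linarith
        · gcongr
          norm_num
      rw [div_lt_iff₀ hm0] at e1
      linarith
    · calc ((m : ℝ) + 1) * min ((q - 2) / 2) (3 / 2 / (m + 1))
          ≤ ((m : ℝ) + 1) * (3 / 2 / (m + 1)) := by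
            gcongr
            exact min_le_right _ _
        _ = 3 / 2 := by field_simp
        _ < 2 := by norm_num
    · have := min_le_left ((q - 2) / 2) (3 / 2 / ((m : ℝ) + 1))
      linarith
  have key : ∀ k : ℕ, ∃ C : ℝ≥0∞, C ≠ ∞ ∧ ∀ (r : ℕ), 2 * k + r = m + 1 → ∀ (κ : ℂ)
      (e : OrthonormalBasis (Ix k r) ℝ (EuclideanSpace ℝ (Fin (m + 1)))) (P : Ph k r), ‖κ‖ ≤ 1 →
      ∫⁻ t, ∫⁻ x, ‖EX (fun ξ => at3 κ e P ξ * GG ξ) t x‖ₑ ^ (2 + 2 * a) ≤ C := by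
    intro k
    by_cases hk : 2 * k ≤ m + 1
    · obtain ⟨C, hC, H⟩ := genA (m := m) (k := k) (r := m + 1 - 2 * k) (by omega) hm h1 h2
      refine ⟨C, hC, fun r hr => ?_⟩
      obtain rfl : r = m + 1 - 2 * k := by omega
      exact H
    · exact ⟨0, ENNReal.zero_ne_top, fun r hr => by omega⟩
  choose C hC H using key
  refine ⟨∑ k ∈ Finset.range (m + 2), C k, ?_, fun f hf => ?_⟩
  · exact ENNReal.sum_ne_top.2 fun k _ => hC k
  have hfd := hd f hf
  have ha0 : 0 < a := by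
    by_contra hc
    rw [not_lt] at hc
    nlinarith
  have h4 : Nq q f ≤ 1 ^ (q - (2 + 2 * a)) * Nq (2 + 2 * a) f :=
    Nq_sup (by linarith) h3 ENNReal.one_ne_top fun p => (EP_le f p).trans hfd.lint
  rw [ENNReal.one_rpow, one_mul] at h4
  refine h4.trans ?_
  rw [Nq_eq _ hfd.meas]
  obtain ⟨k, r, hkr, κ, e, P, hκ, rfl⟩ := hf
  refine (H k r hkr κ e P hκ).trans ?_
  exact Finset.single_le_sum (f := fun k => C k) (fun _ _ => zero_le)
    (Finset.mem_range.2 (by omega))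

/-- the functions of a family, cut off with `k` strips -/
def Fs (F : Set (EuclideanSpace ℝ (Fin (m + 1)) → ℂ)) (k : ℕ) (δ : ℝ) :
    Set (EuclideanSpace ℝ (Fin (m + 1)) → ℂ) :=
  {g | ∃ f ∈ F, ∃ l : List (EuclideanSpace ℝ (Fin (m + 1)) × ℝ), l.length = k ∧
    (∀ p ∈ l, δ ≤ ‖p.1‖) ∧ g = fun ξ => f ξ * Ps l ξ}

lemma Fs_fam {F : Set (EuclideanSpace ℝ (Fin (m + 1)) → ℂ)} (hF : Fam F) {δ : ℝ} (hδ : 0 < δ)
    (k : ℕ) : Fam (Fs F k δ) := by
  induction k with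
  | zero =>
    have hsub : ∀ g ∈ Fs F 0 δ, g ∈ F := by
      rintro g ⟨f, hf, l, hl, -, rfl⟩
      have : l = [] := List.eq_nil_of_length_eq_zero hl
      subst this
      have h1 : (fun ξ => f ξ * Ps [] ξ) = f := by
        ext ξ
        simp [Ps]
      rw [h1]
      exact hf
    exact ⟨fun g hg => hF.1 g (hsub g hg), fun q hq => by
      obtain ⟨C, hC, H⟩ := hF.2 q hq
      exact ⟨C, hC, fun g hg => H g (hsub g hg)⟩⟩
  | succ k ih =>
    have h := ih.strip hδ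
    have hsub : ∀ g ∈ Fs F (k + 1) δ, g ∈ {g | ∃ f ∈ Fs F k δ,
        ∃ (μ : EuclideanSpace ℝ (Fin (m + 1))) (β : ℝ), δ ≤ ‖μ‖ ∧ g = fun ξ => f ξ * st μ β ξ} := by
      rintro g ⟨f, hf, l, hl, hl2, rfl⟩
      obtain ⟨p, l', rfl⟩ := List.exists_cons_of_length_eq_add_one hl
      refine ⟨fun ξ => f ξ * Ps l' ξ, ⟨f, hf, l', by simpa using hl, fun r hr =>
        hl2 r (List.mem_cons_of_mem _ hr), rfl⟩, p.1, p.2, hl2 p (List.mem_cons_self), ?_⟩
      ext ξ
      simp only [Ps, List.map_cons, List.prod_cons]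
      ring
    exact ⟨fun g hg => h.1 g (hsub g hg), fun q hq => by
      obtain ⟨C, hC, H⟩ := h.2 q hq
      exact ⟨C, hC, fun g hg => H g (hsub g hg)⟩⟩

/-- The estimate on polytopes, for every family with a Gaussian window. -/
theorem polyN {F : Set (EuclideanSpace ℝ (Fin (m + 1)) → ℂ)} (hF : Fam F) (N : ℕ) (q : ℝ)
    (hq : 2 + 2 / ((m : ℝ) + 1) < q) :
    ∃ C : ℝ≥0∞, C ≠ ∞ ∧ ∀ (g : EuclideanSpace ℝ (Fin (m + 1)) → ℂ)
      (ν : Fin N → EuclideanSpace ℝ (Fin (m + 1))) (c : Fin N → ℝ),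
      (fun ξ => g ξ * GG ξ) ∈ F →
      Nq q ({ξ | (∀ j, |ξ j| < 1) ∧ ∀ i, ⟪ν i, ξ⟫ < c i}.indicator g) ≤ C := by
  classical
  have hc2 : (2 : ℝ) < 2 + 2 / ((m : ℝ) + 1) := by
    have : 0 < 2 / ((m : ℝ) + 1) := by positivity
    linarith
  have hδ : (0 : ℝ) < 1 / ((m : ℝ) + 1) := by positivity
  obtain ⟨κ, k, hκ, hκm, hk, hk1⟩ := exists_k
  obtain ⟨hFd, hFq⟩ := Fs_fam hF hδ ((m + 1) + N)
  obtain ⟨C, hC, H⟩ := hFq q hq
  have hK : ∫⁻ η, ‖κ η‖ₑ ≠ ∞ := by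
    have := hκ.2
    rw [hasFiniteIntegral_iff_enorm] at this
    exact this.ne
  refine ⟨((∫⁻ η, ‖κ η‖ₑ) ^ q) ^ (m + 1) * C, ?_, ?_⟩
  · exact ENNReal.mul_ne_top (ENNReal.pow_ne_top
      (ENNReal.rpow_ne_top_of_nonneg (by linarith) hK)) hC
  intro g ν c hg
  choose μ β hμ hμ2 using fun i => half (ν i) (c i)
  set l : List (EuclideanSpace ℝ (Fin (m + 1)) × ℝ) :=
    List.ofFn (fun j : Fin (m + 1) => ((EuclideanSpace.single j 1 :
      EuclideanSpace ℝ (Fin (m + 1))), (0 : ℝ))) ++ List.ofFn (fun i => (μ i, β i)) with hl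
  have hlen : l.length = (m + 1) + N := by
    rw [hl, List.length_append, List.length_ofFn, List.length_ofFn]
  have hle : ∀ p ∈ l, 1 / ((m : ℝ) + 1) ≤ ‖p.1‖ := by
    intro p hp
    rw [hl, List.mem_append, List.mem_ofFn, List.mem_ofFn] at hp
    rcases hp with ⟨j, rfl⟩ | ⟨i, rfl⟩
    · simp only [PiLp.norm_single, norm_one]
      rw [div_le_one (by positivity)]
      have : (0 : ℝ) ≤ m := Nat.cast_nonneg m
      linarith
    · exact hμ i
  have hmem : (fun ξ => (g ξ * GG ξ) * Ps l ξ) ∈ Fs F ((m + 1) + N) (1 / ((m : ℝ) + 1)) :=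
    ⟨_, hg, l, hlen, hle, rfl⟩
  have hd := hFd _ hmem
  obtain ⟨-, -, h3⟩ := mul_all (q := q) (by linarith) hκ hκm hk hd.int hd.meas
    (Finset.univ : Finset (Fin (m + 1)))
  have h4 : {ξ : EuclideanSpace ℝ (Fin (m + 1)) |
      (∀ j, |ξ j| < 1) ∧ ∀ i, ⟪ν i, ξ⟫ < c i}.indicator g =
      fun ξ => ((g ξ * GG ξ) * Ps l ξ) * ∏ j, k (ξ j) := by
    ext ξ
    have hPs : Ps l ξ = (∏ j : Fin (m + 1), st (EuclideanSpace.single j 1) 0 ξ) *
        ∏ i, st (μ i) (β i) ξ := by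
      unfold Ps
      rw [hl, List.map_append, List.prod_append, List.map_ofFn, List.map_ofFn, List.prod_ofFn,
        List.prod_ofFn]
      rfl
    have hst : ∀ j : Fin (m + 1), st (EuclideanSpace.single j 1) 0 ξ =
        if |ξ j| < 1 then 1 else 0 := by
      intro j
      unfold st
      have : ⟪(EuclideanSpace.single j 1 : EuclideanSpace ℝ (Fin (m + 1))), ξ⟫ = ξ j := by
        simp [EuclideanSpace.inner_single_left]
      rw [this, add_zero]
    by_cases h5 : ∀ j, |ξ j| < 1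
    · have e1 : ∏ j : Fin (m + 1), st (EuclideanSpace.single j 1) 0 ξ = 1 := by
        apply Finset.prod_eq_one
        intro j _
        rw [hst, if_pos (h5 j)]
      have e2 : GG ξ * ∏ j, k (ξ j) = 1 := by
        have e3 : ∏ j, k (ξ j) = ((∏ j, Real.exp (Real.pi * ξ j ^ 2) : ℝ) : ℂ) := by
          rw [Complex.ofReal_prod]
          refine Finset.prod_congr rfl fun j _ => ?_
          exact hk1 _ (h5 j)
        rw [e3]
        unfold GG
        rw [← Complex.ofReal_mul, ← Real.exp_sum, ← Real.exp_add, EuclideanSpace.real_norm_sq_eq,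
          ← Finset.mul_sum, neg_add_cancel, Real.exp_zero, Complex.ofReal_one]
      by_cases h6 : ∀ i, ⟪ν i, ξ⟫ < c i
      · have e4 : ∏ i, st (μ i) (β i) ξ = 1 := by
          apply Finset.prod_eq_one
          intro i _
          unfold st
          rw [if_pos ((hμ2 i ξ h5).2 (h6 i))]
        rw [indicator_of_mem (show ξ ∈ {ξ : EuclideanSpace ℝ (Fin (m + 1)) |
          (∀ j, |ξ j| < 1) ∧ ∀ i, ⟪ν i, ξ⟫ < c i} from ⟨h5, h6⟩), hPs, e1, e4]
        calc g ξ = g ξ * (GG ξ * ∏ j, k (ξ j)) := by rw [e2, mul_one]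
          _ = _ := by ring
      · rw [indicator_of_notMem (fun h => h6 h.2), hPs]
        push Not at h6
        obtain ⟨i, hi⟩ := h6
        have e4 : ∏ i, st (μ i) (β i) ξ = 0 := by
          apply Finset.prod_eq_zero (Finset.mem_univ i)
          unfold st
          rw [if_neg]
          rw [hμ2 i ξ h5]
          exact not_lt.2 hi
        rw [e4]
        ring
    · rw [indicator_of_notMem (fun h => h5 h.1), hPs]
      push Not at h5
      obtain ⟨j, hj⟩ := h5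
      have e4 : ∏ j : Fin (m + 1), st (EuclideanSpace.single j 1) 0 ξ = 0 := by
        apply Finset.prod_eq_zero (Finset.mem_univ j)
        rw [hst, if_neg (not_lt.2 hj)]
      rw [e4]
      ring
  rw [h4]
  refine h3.trans ?_
  rw [Finset.card_univ, Fintype.card_fin]
  gcongr
  exact H _ hmem

end Pool.Agent.P8H15.CP
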