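import Mathlib
import Pool.Agent.P8H15.CP.H
set_option autoImplicit false

/-! Polynomials of degree at most three in two variables. -/

namespace Pool.Agent.P8H15.CP

open Finset

/-- the exponents -/
noncomputable def ex2 (p : ℕ × ℕ) : Fin 2 →₀ ℕ := Finsupp.equivFunOnFinite.symm ![p.1, p.2]

lemma ex2_inj : Function.Injective ex2 := by
  intro p q h
  have h1 := Finsupp.equivFunOnFinite.symm.injective h
  have h2 := congrFun h1 0
  have h3 := congrFun h1 1
  simp only [Matrix.cons_val_zero, Matrix.cons_val_one] at h2 h3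
  exact Prod.ext h2 h3

/-- the ten exponents -/
def tens : Finset (ℕ × ℕ) := {(0, 0), (1, 0), (0, 1), (2, 0), (1, 1), (0, 2), (3, 0), (2, 1),
  (1, 2), (0, 3)}

lemma mem_tens {a b : ℕ} (h : a + b ≤ 3) : (a, b) ∈ tens := by
  have ha : a ≤ 3 := by omega
  have hb : b ≤ 3 := by omega
  interval_cases a <;> interval_cases b <;> first | (exfalso; omega) | decide

/-- the coefficients -/
noncomputable def cf (Q : MvPolynomial (Fin 2) ℝ) : Fin 4 → Fin 4 → ℝ :=
  fun i j => Q.coeff (ex2 (i, j))

lemma eval_cub (Q : MvPolynomial (Fin 2) ℝ) (hQ : Q.totalDegree ≤ 3) (u w : ℝ) :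
    MvPolynomial.eval ![u, w] Q = cub (cf Q) u w := by
  classical
  have h1 : MvPolynomial.eval ![u, w] Q =
      ∑ p ∈ tens, Q.coeff (ex2 p) * (u ^ p.1 * w ^ p.2) := by
    rw [MvPolynomial.eval_eq']
    have h2 : ∑ p ∈ tens, Q.coeff (ex2 p) * (u ^ p.1 * w ^ p.2) =
        ∑ d ∈ tens.image ex2, Q.coeff d * ∏ i, ![u, w] i ^ d i := by
      rw [Finset.sum_image fun p _ q _ h => ex2_inj h]
      refine Finset.sum_congr rfl fun p _ => ?_
      rw [Fin.prod_univ_two]
      simp [ex2]
    rw [h2]
    apply Finset.sum_subset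
    · intro d hd
      rw [Finset.mem_image]
      refine ⟨(d 0, d 1), mem_tens ?_, ?_⟩
      · have h3 := (MvPolynomial.le_totalDegree hd).trans hQ
        rw [Finsupp.sum_fintype _ _ (fun _ => rfl), Fin.sum_univ_two] at h3
        exact h3
      · ext i
        fin_cases i <;> simp [ex2]
    · intro d _ hd
      rw [MvPolynomial.notMem_support_iff.1 hd, zero_mul]
  rw [h1]
  unfold tens cub cf
  rw [Finset.sum_insert (by decide), Finset.sum_insert (by decide), Finset.sum_insert (by decide),
    Finset.sum_insert (by decide), Finset.sum_insert (by decide), Finset.sum_insert (by decide),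
    Finset.sum_insert (by decide), Finset.sum_insert (by decide), Finset.sum_insert (by decide),
    Finset.sum_singleton]
  simp only [Fin.val_zero, Fin.val_one, Fin.val_two, show ((3 : Fin 4) : ℕ) = 3 from rfl]
  ring

end Pool.Agent.P8H15.CP
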