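import Mathlib
import Pool.Agent.P8H15.CP.K
import Pool.Agent.P8H15.CP.P
set_option autoImplicit false

/-!
# The restriction conjecture for cubic phases

Let `d = n + 1 ≥ 3` and let `E` be the extension operator of the truncated paraboloid. The theorem
is the bound of the restriction conjecture in the full range `q > 2d/(d-1)` for `f = e^{2πiP}` on an
arbitrary convex polytope with at most `N` faces, `f = 0` elsewhere, with a constant which depends
only on `q`, `d` and `N`, for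

* all real polynomials `P` of degree at most three, if `d = 3`;
* in every dimension `d ≥ 3`, all `P` which in some orthonormal coordinates are the sum of arbitrary
  polynomials of degree at most three in disjoint pairs of variables, of arbitrary multiples of the
  cubes of the remaining variables and of an arbitrary polynomial of degree at most two in the
  remaining variables.

No bound on the coefficients is assumed. The same holds for superpositions `∫ f_s dρ(s)` of such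
functions, with the constant `C ρ(S)`.
-/

namespace Pool.Agent.P8H15.CP.CubicMain

open MeasureTheory Set Complex
open scoped ENNReal NNReal

/-- The closed cube `[-1,1]^n`. -/
def cube (n : ℕ) : Set (EuclideanSpace ℝ (Fin n)) := {ξ | ∀ j, |ξ j| ≤ 1}

/-- The extension operator of the truncated paraboloid in `ℝ^(n+1)`:
`Ef(x,t) = ∫_{[-1,1]^n} f(ξ) exp(2πi(∑_j ξ_j x_j + |ξ|² t)) dξ`. -/
noncomputable def ext {n : ℕ} (f : EuclideanSpace ℝ (Fin n) → ℂ)
    (z : EuclideanSpace ℝ (Fin n) × ℝ) : ℂ :=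
  ∫ ξ in cube n, f ξ *
    cexp (2 * Real.pi * I * ((∑ j, ξ j * z.1 j + (∑ j, ξ j ^ 2) * z.2 : ℝ) : ℂ))

/-- `P` is a cubic phase: there are natural numbers `k`, `r` and an orthonormal basis
`u_1, …, u_k, w_1, …, w_k, z_1, …, z_r` of `ℝ^n` (so `2k + r = n`) with
`P(ξ) = ∑_b Q_b(⟨u_b, ξ⟩, ⟨w_b, ξ⟩) + ∑_j a_j ⟨z_j, ξ⟩³ + R(⟨z_1, ξ⟩, …, ⟨z_r, ξ⟩)`,
where `Q_1, …, Q_k` are real polynomials of degree at most three in two variables, the `a_j` are
real numbers and `R(v) = ∑_{j,l} B_{jl} v_j v_l + ∑_j y_j v_j`. -/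
def IsPhase {n : ℕ} (P : EuclideanSpace ℝ (Fin n) → ℝ) : Prop :=
  ∃ (k r : ℕ) (e : OrthonormalBasis ((Fin k ⊕ Fin k) ⊕ Fin r) ℝ (EuclideanSpace ℝ (Fin n)))
    (Q : Fin k → MvPolynomial (Fin 2) ℝ) (a : Fin r → ℝ) (B : Matrix (Fin r) (Fin r) ℝ)
    (y : Fin r → ℝ), (∀ b, (Q b).totalDegree ≤ 3) ∧
    ∀ ξ, P ξ = ∑ b, MvPolynomial.eval ![inner ℝ (e (.inl (.inl b))) ξ,
        inner ℝ (e (.inl (.inr b))) ξ] (Q b) +
      (∑ j, a j * inner ℝ (e (.inr j)) ξ ^ 3 +
        (∑ j, ∑ l, B j l * (inner ℝ (e (.inr j)) ξ * inner ℝ (e (.inr l)) ξ) +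
          ∑ j, y j * inner ℝ (e (.inr j)) ξ))

/-- `g(ξ) = κ e^{2πiP(ξ)}` on the polytope `{ξ : ⟨ν_i, ξ⟩ < c_i, i < N}` and `g = 0` elsewhere,
where `|κ| ≤ 1` and `P` is a cubic phase. -/
def IsAtom {n : ℕ} (N : ℕ) (g : EuclideanSpace ℝ (Fin n) → ℂ) : Prop :=
  ∃ (κ : ℂ) (P : EuclideanSpace ℝ (Fin n) → ℝ) (ν : Fin N → EuclideanSpace ℝ (Fin n))
    (c : Fin N → ℝ), ‖κ‖ ≤ 1 ∧ IsPhase P ∧
    g = {ξ | ∀ i, inner ℝ (ν i) ξ < c i}.indicator fun ξ => κ * cexp (2 * Real.pi * I * (P ξ : ℂ))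

open Pool.Agent.P8H66.QP (UU EX EP GG Nq Nq_eq Nq_sup Dom GG_meas EP_le Fam)
open Pool.Agent.TH277.HT (ch ch_norm ch_enorm)
open Pool.Agent.P8H15.CP (Ix Ph at3 C0 C0_fam polyN cf cub eval_cub)

/-- the atoms with the Gaussian window belong to the family `C0` -/
lemma atom_mem {m : ℕ} (κ : ℂ) (P : EuclideanSpace ℝ (Fin (m + 1)) → ℝ) (hκ : ‖κ‖ ≤ 1)
    (hP : IsPhase P) : (fun ξ => κ * ch (P ξ) * GG ξ) ∈ C0 m := by
  obtain ⟨k, r, e, Q, a, B, y, hQ, hP⟩ := hP
  have hcard : 2 * k + r = m + 1 := by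
    have h1 := Module.finrank_eq_card_basis e.toBasis
    rw [finrank_euclideanSpace_fin] at h1
    simp only [Fintype.card_sum, Fintype.card_fin] at h1
    omega
  refine ⟨k, r, hcard, κ, e, ⟨fun b => cf (Q b), a, B, y⟩, hκ, ?_⟩
  funext ξ
  unfold at3
  congr 3
  rw [hP]
  unfold Ph.pol
  simp only [OrthonormalBasis.repr_apply_apply]
  congr 1
  exact Finset.sum_congr rfl fun b _ => eval_cub (Q b) (hQ b) _ _

open Pool.Agent.TH277.HT (ch ch_norm ch_enorm)

lemma cube_meas (n : ℕ) : MeasurableSet (cube n) := by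
  have : cube n = ⋂ j, {ξ : EuclideanSpace ℝ (Fin n) | |ξ j| ≤ 1} := by
    ext ξ; simp [cube]
  rw [this]
  exact MeasurableSet.iInter fun j => measurableSet_le (by fun_prop) measurable_const

lemma cube_ae (n : ℕ) : cube n =ᵐ[volume] {ξ : EuclideanSpace ℝ (Fin n) | ∀ j, |ξ j| < 1} := by
  have h1 : (pi univ fun _ : Fin n => Ioo (-1 : ℝ) 1) =ᵐ[volume] Icc (fun _ => -1) (fun _ => 1) := by
    have := Measure.univ_pi_Ioo_ae_eq_Icc (μ := fun _ : Fin n => (volume : Measure ℝ))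
      (f := fun _ => (-1 : ℝ)) (g := fun _ => 1)
    exact this
  have h2 := (PiLp.volume_preserving_ofLp (Fin n)).quasiMeasurePreserving.preimage_ae_eq h1
  have e1 : (fun ξ : EuclideanSpace ℝ (Fin n) => (WithLp.ofLp ξ : Fin n → ℝ)) ⁻¹'
      (pi univ fun _ : Fin n => Ioo (-1 : ℝ) 1) = {ξ | ∀ j, |ξ j| < 1} := by
    ext ξ
    simp [mem_pi, abs_lt]
  have e2 : (fun ξ : EuclideanSpace ℝ (Fin n) => (WithLp.ofLp ξ : Fin n → ℝ)) ⁻¹'
      (Icc (fun _ => -1) (fun _ => 1)) = cube n := by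
    ext ξ
    simp only [mem_preimage, mem_Icc, Pi.le_def, cube, mem_ofPred_eq, abs_le]
    exact ⟨fun h j => ⟨h.1 j, h.2 j⟩, fun h => ⟨fun j => (h j).1, fun j => (h j).2⟩⟩
  rw [← e1, ← e2]
  exact h2.symm

lemma cube_vol (n : ℕ) : volume (cube n) ≠ ∞ := by
  have hsub : cube n ⊆ Metric.closedBall (0 : EuclideanSpace ℝ (Fin n)) (Real.sqrt n) := by
    intro ξ hξ
    rw [mem_closedBall_zero_iff, EuclideanSpace.norm_eq]
    refine Real.sqrt_le_sqrt ?_
    have : ∑ i : Fin n, ‖ξ i‖ ^ 2 ≤ ∑ i : Fin n, (1 : ℝ) := by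
      refine Finset.sum_le_sum fun i _ => ?_
      rw [Real.norm_eq_abs]
      have h := hξ i
      have h0 := abs_nonneg (ξ i)
      nlinarith
    rw [Finset.sum_const, Finset.card_univ, Fintype.card_fin, nsmul_eq_mul, mul_one] at this
    exact this
  exact ((measure_mono hsub).trans_lt measure_closedBall_lt_top).ne

lemma phase {n : ℕ} (ξ : EuclideanSpace ℝ (Fin n)) (z : EuclideanSpace ℝ (Fin n) × ℝ) :
    cexp (2 * Real.pi * I * ((∑ j, ξ j * z.1 j + (∑ j, ξ j ^ 2) * z.2 : ℝ) : ℂ)) =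
      ch (inner ℝ ξ z.1 + ‖ξ‖ ^ 2 * z.2) := by
  unfold ch
  congr 3
  rw [EuclideanSpace.real_norm_sq_eq]
  simp [PiLp.inner_apply, mul_comm]

lemma phase_meas {n : ℕ} {α : Type*} [MeasurableSpace α] (u : α → EuclideanSpace ℝ (Fin n))
    (z : α → EuclideanSpace ℝ (Fin n) × ℝ) (hu : Measurable u) (hz : Measurable z) :
    Measurable fun r => cexp (2 * Real.pi * I *
      ((∑ j, u r j * (z r).1 j + (∑ j, u r j ^ 2) * (z r).2 : ℝ) : ℂ)) := by
  have h1 : ∀ j, Measurable fun r => u r j := fun j =>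
    (by fun_prop : Measurable fun ξ : EuclideanSpace ℝ (Fin n) => ξ j).comp hu
  have h2 : ∀ j, Measurable fun r => (z r).1 j := fun j =>
    (by fun_prop : Measurable fun ξ : EuclideanSpace ℝ (Fin n) => ξ j).comp (measurable_fst.comp hz)
  have h3 : Measurable fun r => (z r).2 := measurable_snd.comp hz
  apply Complex.measurable_exp.comp
  apply Measurable.const_mul
  apply Complex.measurable_ofReal.comp
  apply Measurable.add
  · exact Finset.measurable_fun_sum _ fun j _ => (h1 j).mul (h2 j)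
  · exact (Finset.measurable_fun_sum _ fun j _ => (h1 j).pow_const 2).mul h3

/-- In the plane every polynomial of degree at most three is a cubic phase. -/
lemma isPhase_of_two (Q : MvPolynomial (Fin 2) ℝ) (hQ : Q.totalDegree ≤ 3) :
    IsPhase fun ξ : EuclideanSpace ℝ (Fin 2) => MvPolynomial.eval (fun i => ξ i) Q := by
  classical
  let s : Fin 2 ≃ (Fin 1 ⊕ Fin 1) ⊕ Fin 0 :=
    { toFun := fun i => if i = 0 then .inl (.inl 0) else .inl (.inr 0)
      invFun := fun x => x.elim (fun x => x.elim (fun _ => 0) fun _ => 1) fun x => x.elim0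
      left_inv := fun i => by fin_cases i <;> rfl
      right_inv := by
        rintro ((x | x) | x)
        · rw [Subsingleton.elim x 0]; rfl
        · rw [Subsingleton.elim x 0]; rfl
        · exact x.elim0 }
  refine ⟨1, 0, (EuclideanSpace.basisFun (Fin 2) ℝ).reindex s, fun _ => Q, fun _ => 0,
    fun _ _ => 0, fun _ => 0, fun _ => hQ, fun ξ => ?_⟩
  simp only [Finset.univ_unique, Finset.sum_singleton, Finset.univ_eq_empty, Finset.sum_empty,
    add_zero, OrthonormalBasis.reindex_apply]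
  congr 1
  congr 1
  ext i
  fin_cases i
  · have h0 : s.symm (.inl (.inl (0 : Fin 1))) = 0 := rfl
    simp [h0, EuclideanSpace.inner_single_left]
  · have h1 : s.symm (.inl (.inr (0 : Fin 1))) = 1 := rfl
    simp [h1, EuclideanSpace.inner_single_left]

/-- **The restriction conjecture for cubic phases.** -/
theorem result (n : ℕ) (hn : 2 ≤ n) (N : ℕ) (q : ℝ) (hq : 2 * ((n : ℝ) + 1) / n < q) :
    ∃ C : ℝ≥0, ∀ (S : Type) [MeasurableSpace S] (ρ : Measure S) [IsFiniteMeasure ρ]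
      (g : S → EuclideanSpace ℝ (Fin n) → ℂ),
      Measurable (Function.uncurry g) → (∀ s, IsAtom N (g s)) →
      ∫⁻ z : EuclideanSpace ℝ (Fin n) × ℝ, ‖ext (fun ξ => ∫ s, g s ξ ∂ρ) z‖ₑ ^ q
        ≤ C * ρ univ ^ q := by
  obtain ⟨m, rfl⟩ : ∃ m, n = m + 1 := ⟨n - 1, by omega⟩
  have hm : 1 ≤ m := by omega
  have hq' : 2 + 2 / ((m : ℝ) + 1) < q := by
    refine lt_of_eq_of_lt ?_ hq
    push_cast
    field_simp
  have hq1 : 1 ≤ q := by
    have : 0 < 2 / ((m : ℝ) + 1) := by positivity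
    linarith
  have hq0 : 0 < q := by linarith
  obtain ⟨C, hC, H⟩ := polyN (C0_fam hm) N q hq'
  refine ⟨C.toNNReal, ?_⟩
  intro S _ ρ _ g hg hat
  rw [ENNReal.coe_toNNReal hC]
  -- the bound for the atoms
  have hatom : ∀ s, ∫⁻ z : EuclideanSpace ℝ (Fin (m + 1)) × ℝ, ‖ext (g s) z‖ₑ ^ q ≤ C := by
    intro s
    obtain ⟨κ, P, ν, c, hκ, hP, hgs⟩ := hat s
    have hmem := atom_mem κ P hκ hP
    refine le_trans (le_of_eq ?_) (H (fun ξ => κ * ch (P ξ)) ν c hmem)
    unfold Nq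
    apply lintegral_congr
    intro z
    congr 2
    unfold ext EP EX
    rw [setIntegral_congr_set (cube_ae (m + 1)), ← integral_indicator]
    · apply integral_congr_ae
      refine ae_of_all _ fun ξ => ?_
      simp only
      rw [hgs]
      by_cases h1 : ∀ j, |ξ j| < 1
      · rw [indicator_of_mem (show ξ ∈ {ξ : EuclideanSpace ℝ (Fin (m + 1)) | ∀ j, |ξ j| < 1}
          from h1), phase]
        by_cases h2 : ∀ i, inner ℝ (ν i) ξ < c i
        · rw [indicator_of_mem (show ξ ∈ {ξ : EuclideanSpace ℝ (Fin (m + 1)) |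
            ∀ i, inner ℝ (ν i) ξ < c i} from h2), indicator_of_mem (show ξ ∈
            {ξ : EuclideanSpace ℝ (Fin (m + 1)) | (∀ j, |ξ j| < 1) ∧ ∀ i, inner ℝ (ν i) ξ < c i}
            from ⟨h1, h2⟩)]
          rw [mul_comm]
          rfl
        · rw [indicator_of_notMem (show ξ ∉ {ξ : EuclideanSpace ℝ (Fin (m + 1)) |
            ∀ i, inner ℝ (ν i) ξ < c i} from h2), indicator_of_notMem (fun h => h2 h.2), zero_mul,
            mul_zero]
      · rw [indicator_of_notMem (show ξ ∉ {ξ : EuclideanSpace ℝ (Fin (m + 1)) | ∀ j, |ξ j| < 1}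
          from h1), indicator_of_notMem (fun h => h1 h.1), mul_zero]
    · have : {ξ : EuclideanSpace ℝ (Fin (m + 1)) | ∀ j, |ξ j| < 1} =
          ⋂ j, {ξ : EuclideanSpace ℝ (Fin (m + 1)) | |ξ j| < 1} := by
        ext ξ; simp
      rw [this]
      exact MeasurableSet.iInter fun j => measurableSet_lt (by fun_prop) measurable_const
  have hb : ∀ s ξ, ‖g s ξ‖ ≤ 1 := by
    intro s ξ
    obtain ⟨κ, P, ν, c, hκ, hP, hgs⟩ := hat s
    rw [hgs]
    by_cases h2 : ξ ∈ {ξ : EuclideanSpace ℝ (Fin (m + 1)) | ∀ i, inner ℝ (ν i) ξ < c i}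
    · rw [indicator_of_mem h2, norm_mul]
      have h3 : ‖cexp (2 * Real.pi * I * (P ξ : ℂ))‖ = 1 := ch_norm (P ξ)
      rw [h3, mul_one]
      exact hκ
    · rw [indicator_of_notMem h2, norm_zero]
      exact zero_le_one
  have hfm : IsFiniteMeasure (volume.restrict (cube (m + 1))) :=
    ⟨by rw [Measure.restrict_apply_univ]; exact lt_top_iff_ne_top.2 (cube_vol _)⟩
  -- Fubini
  have hg2 : Measurable fun p : S × EuclideanSpace ℝ (Fin (m + 1)) => g p.1 p.2 := hg
  have hfub : ∀ z, ext (fun ξ => ∫ s, g s ξ ∂ρ) z = ∫ s, ext (g s) z ∂ρ := by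
    intro z
    have hi : Integrable (Function.uncurry fun (s : S) (ξ : EuclideanSpace ℝ (Fin (m + 1))) =>
        g s ξ * cexp (2 * Real.pi * I * ((∑ j, ξ j * z.1 j + (∑ j, ξ j ^ 2) * z.2 : ℝ) : ℂ)))
        (ρ.prod (volume.restrict (cube (m + 1)))) := by
      have h0 : Measurable fun p : S × EuclideanSpace ℝ (Fin (m + 1)) => g p.1 p.2 *
          cexp (2 * Real.pi * I * ((∑ j, p.2 j * z.1 j + (∑ j, p.2 j ^ 2) * z.2 : ℝ) : ℂ)) :=
        hg2.mul (phase_meas (fun p : S × EuclideanSpace ℝ (Fin (m + 1)) => p.2) (fun _ => z)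
          measurable_snd measurable_const)
      apply Integrable.of_bound (C := 1) h0.aestronglyMeasurable
      refine ae_of_all _ fun p => ?_
      simp only
      rw [norm_mul, phase, ch_norm, mul_one]
      exact hb _ _
    have hs := integral_integral_swap hi
    unfold ext
    rw [hs]
    apply integral_congr_ae
    refine ae_of_all _ fun ξ => ?_
    simp only
    rw [integral_mul_const]
  have hjm : Measurable fun p : (EuclideanSpace ℝ (Fin (m + 1)) × ℝ) × S => ext (g p.2) p.1 := by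
    have h0 : Measurable fun r : ((EuclideanSpace ℝ (Fin (m + 1)) × ℝ) × S) ×
        EuclideanSpace ℝ (Fin (m + 1)) => g r.1.2 r.2 * cexp (2 * Real.pi * I *
          ((∑ j, r.2 j * r.1.1.1 j + (∑ j, r.2 j ^ 2) * r.1.1.2 : ℝ) : ℂ)) :=
      (hg2.comp ((measurable_snd.comp measurable_fst).prodMk measurable_snd)).mul
        (phase_meas (fun r : ((EuclideanSpace ℝ (Fin (m + 1)) × ℝ) × S) ×
          EuclideanSpace ℝ (Fin (m + 1)) => r.2) (fun r => r.1.1) measurable_snd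
          (measurable_fst.comp measurable_fst))
    have h1 : StronglyMeasurable (Function.uncurry fun
        (p : (EuclideanSpace ℝ (Fin (m + 1)) × ℝ) × S) (ξ : EuclideanSpace ℝ (Fin (m + 1))) =>
        g p.2 ξ * cexp (2 * Real.pi * I *
          ((∑ j, ξ j * p.1.1 j + (∑ j, ξ j ^ 2) * p.1.2 : ℝ) : ℂ))) := h0.stronglyMeasurable
    exact (h1.integral_prod_right (ν := volume.restrict (cube (m + 1)))).measurable
  -- Hölder
  have hhol : ∀ z, ‖ext (fun ξ => ∫ s, g s ξ ∂ρ) z‖ₑ ^ q ≤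
      ρ univ ^ (q - 1) * ∫⁻ s, ‖ext (g s) z‖ₑ ^ q ∂ρ := by
    intro z
    have hzm : Measurable fun s => ‖ext (g s) z‖ₑ :=
      (hjm.comp (by fun_prop : Measurable fun s : S => (z, s))).enorm
    have h1 : ‖ext (fun ξ => ∫ s, g s ξ ∂ρ) z‖ₑ ≤ ∫⁻ s, ‖ext (g s) z‖ₑ ∂ρ := by
      rw [hfub]
      exact enorm_integral_le_lintegral_enorm _
    have h2 : ∫⁻ s, ‖ext (g s) z‖ₑ ∂ρ ≤
        ρ univ ^ (1 - 1 / q) * (∫⁻ s, ‖ext (g s) z‖ₑ ^ q ∂ρ) ^ (1 / q) := by
      have h3 := ENNReal.lintegral_mul_norm_pow_le (μ := ρ)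
        (f := fun _ => 1) (g := fun s => ‖ext (g s) z‖ₑ ^ q)
        aemeasurable_const (hzm.pow_const q).aemeasurable
        (p := 1 - 1 / q) (q := 1 / q) (by
          rw [sub_nonneg, div_le_one hq0]
          exact hq1) (by positivity) (by ring)
      simp only [ENNReal.one_rpow, one_mul, lintegral_const] at h3
      refine le_trans (le_of_eq ?_) h3
      apply lintegral_congr
      intro s
      rw [← ENNReal.rpow_mul, mul_one_div_cancel hq0.ne', ENNReal.rpow_one]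
    calc ‖ext (fun ξ => ∫ s, g s ξ ∂ρ) z‖ₑ ^ q
        ≤ (ρ univ ^ (1 - 1 / q) * (∫⁻ s, ‖ext (g s) z‖ₑ ^ q ∂ρ) ^ (1 / q)) ^ q := by
          gcongr
          exact h1.trans h2
      _ = _ := by
          rw [ENNReal.mul_rpow_of_nonneg _ _ hq0.le, ← ENNReal.rpow_mul, ← ENNReal.rpow_mul,
            one_div_mul_cancel hq0.ne', ENNReal.rpow_one]
          congr 2
          field_simp
  calc ∫⁻ z : EuclideanSpace ℝ (Fin (m + 1)) × ℝ, ‖ext (fun ξ => ∫ s, g s ξ ∂ρ) z‖ₑ ^ q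
      ≤ ∫⁻ z : EuclideanSpace ℝ (Fin (m + 1)) × ℝ,
          ρ univ ^ (q - 1) * ∫⁻ s, ‖ext (g s) z‖ₑ ^ q ∂ρ := lintegral_mono hhol
    _ = ρ univ ^ (q - 1) * ∫⁻ z : EuclideanSpace ℝ (Fin (m + 1)) × ℝ,
          ∫⁻ s, ‖ext (g s) z‖ₑ ^ q ∂ρ :=
        lintegral_const_mul' _ _ (ENNReal.rpow_ne_top_of_nonneg (by linarith)
          (measure_ne_top ρ univ))
    _ = ρ univ ^ (q - 1) * ∫⁻ s, (∫⁻ z : EuclideanSpace ℝ (Fin (m + 1)) × ℝ,
          ‖ext (g s) z‖ₑ ^ q) ∂ρ := by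
        congr 1
        exact lintegral_lintegral_swap (hjm.enorm.pow_const q).aemeasurable
    _ ≤ ρ univ ^ (q - 1) * ∫⁻ _s, C ∂ρ := by
        gcongr with s
        exact hatom s
    _ = C * ρ univ ^ q := by
        rw [lintegral_const, mul_comm C (ρ univ), ← mul_assoc, mul_comm _ C]
        congr 1
        nth_rewrite 2 [← ENNReal.rpow_one (ρ univ)]
        rw [← ENNReal.rpow_add_of_nonneg _ _ (by linarith) zero_le_one]
        simp

end Pool.Agent.P8H15.CP.CubicMain
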